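import Pool.Agent.W703.OCDefs

set_option autoImplicit false

open Set Filter Topology
open scoped ENNReal

namespace Pool.Agent.W703.OC

section Blocks

variable (𝕜 : Type*) [RCLike 𝕜]

/-- the two-dimensional spaces of the blocks: triples `(a, b + s a, b - s a)` with sup norm -/
def VV (s : ℝ) : Submodule 𝕜 (Fin 3 → 𝕜) where
  carrier := {p | p 1 - p 2 = ((2 * s : ℝ) : 𝕜) * p 0}
  add_mem' := by
    intro a b ha hb
    change (a 1 + b 1) - (a 2 + b 2) = ((2 * s : ℝ) : 𝕜) * (a 0 + b 0)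
    rw [mul_add, ← (show a 1 - a 2 = _ from ha), ← (show b 1 - b 2 = _ from hb)]; ring
  zero_mem' := by
    change (0 : 𝕜) - 0 = ((2 * s : ℝ) : 𝕜) * 0
    ring
  smul_mem' := by
    intro c a ha
    change c * a 1 - c * a 2 = ((2 * s : ℝ) : 𝕜) * (c * a 0)
    rw [← mul_sub, (show a 1 - a 2 = _ from ha)]; ring

variable {𝕜}

lemma mem_VV {s : ℝ} {p : Fin 3 → 𝕜} :
    p ∈ VV 𝕜 s ↔ p 1 - p 2 = ((2 * s : ℝ) : 𝕜) * p 0 := Iff.rfl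

variable {X : Type*} [NormedAddCommGroup X] [NormedSpace 𝕜 X]

/-- operator with three coordinate functionals -/
noncomputable def blk (a b c : X →L[𝕜] 𝕜) : X →L[𝕜] (Fin 3 → 𝕜) :=
  ContinuousLinearMap.pi ![a, b, c]

lemma blk_0 (a b c : X →L[𝕜] 𝕜) (x : X) : blk a b c x 0 = a x := rfl
lemma blk_1 (a b c : X →L[𝕜] 𝕜) (x : X) : blk a b c x 1 = b x := rfl
lemma blk_2 (a b c : X →L[𝕜] 𝕜) (x : X) : blk a b c x 2 = c x := rfl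

/-- coordinate functionals -/
noncomputable def co (i : Fin 3) (A : X →L[𝕜] (Fin 3 → 𝕜)) : X →L[𝕜] 𝕜 :=
  (ContinuousLinearMap.proj i).comp A

lemma co_apply (i : Fin 3) (A : X →L[𝕜] (Fin 3 → 𝕜)) (x : X) : co i A x = A x i := rfl

lemma norm_co_le (i : Fin 3) (A : X →L[𝕜] (Fin 3 → 𝕜)) : ‖co i A‖ ≤ ‖A‖ :=
  ContinuousLinearMap.opNorm_le_bound _ (norm_nonneg _) fun x =>
    (norm_le_pi_norm (A x) i).trans (A.le_opNorm x)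

lemma norm_blk_le {a b c : X →L[𝕜] 𝕜} {M : ℝ} (hM : 0 ≤ M) (ha : ‖a‖ ≤ M) (hb : ‖b‖ ≤ M)
    (hc : ‖c‖ ≤ M) : ‖blk a b c‖ ≤ M := by
  refine ContinuousLinearMap.opNorm_le_bound _ hM fun x => ?_
  rw [pi_norm_le_iff_of_nonneg (by positivity)]
  intro i
  have key : ∀ d : X →L[𝕜] 𝕜, ‖d‖ ≤ M → ‖d x‖ ≤ M * ‖x‖ := fun d hd =>
    (d.le_opNorm x).trans (mul_le_mul_of_nonneg_right hd (norm_nonneg _))
  fin_cases i
  · exact key a ha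
  · exact key b hb
  · exact key c hc

lemma eq_blk (A : X →L[𝕜] (Fin 3 → 𝕜)) : A = blk (co 0 A) (co 1 A) (co 2 A) := by
  ext x i
  fin_cases i <;> rfl

lemma blk_sub (a b c a' b' c' : X →L[𝕜] 𝕜) :
    blk a b c - blk a' b' c' = blk (a - a') (b - b') (c - c') := by
  ext x i
  fin_cases i <;> rfl

/-- local goal -/
def Good (ε s : ℝ) (A : X →L[𝕜] (Fin 3 → 𝕜)) (x : X) : Prop :=
  ∃ (B : X →L[𝕜] (Fin 3 → 𝕜)) (u : X), ‖B‖ ≤ 1 ∧ (∀ y, B y ∈ VV 𝕜 s) ∧ ‖u‖ = 1 ∧ ‖B u‖ = 1 ∧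
    ‖x - u‖ < ε ∧ ‖B - A‖ < ε

/-- exposing functionals are dense in the duality graph -/
def Exps (𝕜 : Type*) [RCLike 𝕜] (X : Type*) [NormedAddCommGroup X] [NormedSpace 𝕜 X] : Prop :=
  ∀ (g : X →L[𝕜] 𝕜) (x : X), ‖g‖ ≤ 1 → ‖x‖ = 1 → ‖g x‖ = 1 → ∀ ε : ℝ, 0 < ε →
    ∃ (g' : X →L[𝕜] 𝕜) (x' : X), ‖g'‖ ≤ 1 ∧ ‖x'‖ = 1 ∧ ‖g' x'‖ = 1 ∧ ‖g' - g‖ < ε ∧
      ‖x' - x‖ < ε ∧ ∀ u : X, ‖u‖ = 1 → ‖g' u‖ = 1 → ∃ c : 𝕜, ‖c‖ = 1 ∧ u = c • x'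

/-- in finite dimension an exposing functional is strongly exposing -/
lemma strong_exp [FiniteDimensional 𝕜 X] {g : X →L[𝕜] 𝕜} {x : X} (hg : ‖g‖ ≤ 1)
    (h : ∀ u : X, ‖u‖ = 1 → ‖g u‖ = 1 → ∃ c : 𝕜, ‖c‖ = 1 ∧ u = c • x) {ε : ℝ} (hε : 0 < ε) :
    ∃ δ : ℝ, 0 < δ ∧ ∀ u : X, ‖u‖ = 1 → 1 - δ < ‖g u‖ → ∃ c : 𝕜, ‖c‖ = 1 ∧ ‖c • u - x‖ < ε := by
  have : ProperSpace X := FiniteDimensional.proper_rclike 𝕜 X
  by_contra hcon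
  push Not at hcon
  have h1 : ∀ n : ℕ, ∃ u : X, ‖u‖ = 1 ∧ 1 - 1 / ((n : ℝ) + 1) < ‖g u‖ ∧
      ∀ c : 𝕜, ‖c‖ = 1 → ε ≤ ‖c • u - x‖ := fun n => hcon _ (by positivity)
  choose u hu1 hu2 hu3 using h1
  obtain ⟨v, hv, φ, hφ, hlim⟩ := (isCompact_sphere (0 : X) 1).tendsto_subseq
    (x := u) (fun n => by rw [mem_sphere_zero_iff_norm]; exact hu1 n)
  rw [mem_sphere_zero_iff_norm] at hv
  have h2 : 1 ≤ ‖g v‖ := by
    have e1 : Tendsto (fun n => ‖g (u (φ n))‖) atTop (𝓝 ‖g v‖) :=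
      ((g.continuous.tendsto v).comp hlim).norm
    have e2 : Tendsto (fun n : ℕ => 1 - 1 / (((φ n : ℕ) : ℝ) + 1)) atTop (𝓝 (1 - 0)) :=
      tendsto_const_nhds.sub (tendsto_one_div_add_atTop_nhds_zero_nat.comp hφ.tendsto_atTop)
    rw [sub_zero] at e2
    exact le_of_tendsto_of_tendsto' e2 e1 fun n => (hu2 (φ n)).le
  have h3 : ‖g v‖ ≤ 1 := by
    have := g.le_opNorm v
    rw [hv, mul_one] at this
    exact this.trans hg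
  obtain ⟨c, hc, hvc⟩ := h v hv (le_antisymm h3 h2)
  have hc0 : c ≠ 0 := by intro h0; rw [h0, norm_zero] at hc; exact zero_ne_one hc
  have h4 : Tendsto (fun n => ‖c⁻¹ • u (φ n) - x‖) atTop (𝓝 ‖c⁻¹ • v - x‖) :=
    ((hlim.const_smul c⁻¹).sub_const x).norm
  have h5 : ε ≤ ‖c⁻¹ • v - x‖ :=
    ge_of_tendsto' h4 fun n => hu3 (φ n) c⁻¹ (by rw [norm_inv, hc, inv_one])
  rw [hvc, smul_smul, inv_mul_cancel₀ hc0, one_smul, sub_self, norm_zero] at h5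
  exact absurd h5 (not_le.2 hε)

lemma tendsto_app {A : ℕ → X →L[𝕜] (Fin 3 → 𝕜)} {x : ℕ → X} {B : X →L[𝕜] (Fin 3 → 𝕜)} {u : X}
    (h1 : Tendsto A atTop (𝓝 B)) (h2 : Tendsto x atTop (𝓝 u)) :
    Tendsto (fun n => A n (x n)) atTop (𝓝 (B u)) :=
  ((isBoundedBilinearMap_apply (𝕜 := 𝕜) (E := X) (F := Fin 3 → 𝕜)).continuous.tendsto
    (B, u)).comp (h1.prodMk_nhds h2)

/-- compactness of the space of data -/
lemma compactness [FiniteDimensional 𝕜 X] {s : ℕ → ℝ} {s₀ : ℝ} (hs : Tendsto s atTop (𝓝 s₀))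
    (A : ℕ → X →L[𝕜] (Fin 3 → 𝕜)) (x : ℕ → X) (hA : ∀ n, ‖A n‖ ≤ 1)
    (hV : ∀ n y, A n y ∈ VV 𝕜 (s n)) (hx : ∀ n, ‖x n‖ = 1)
    (hAx : ∀ n : ℕ, 1 - 1 / ((n : ℝ) + 1) < ‖A n (x n)‖) :
    ∃ (φ : ℕ → ℕ) (B : X →L[𝕜] (Fin 3 → 𝕜)) (u : X), StrictMono φ ∧
      Tendsto (fun n => A (φ n)) atTop (𝓝 B) ∧ Tendsto (fun n => x (φ n)) atTop (𝓝 u) ∧
      ‖B‖ ≤ 1 ∧ ‖u‖ = 1 ∧ ‖B u‖ = 1 ∧ ∀ y, B y ∈ VV 𝕜 s₀ := by
  have : ProperSpace X := FiniteDimensional.proper_rclike 𝕜 X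
  have : ProperSpace (X →L[𝕜] (Fin 3 → 𝕜)) := FiniteDimensional.proper_rclike 𝕜 _
  obtain ⟨⟨B, u⟩, hBu, φ, hφ, hlim⟩ :=
    ((isCompact_closedBall (0 : X →L[𝕜] (Fin 3 → 𝕜)) 1).prod
      (isCompact_sphere (0 : X) 1)).tendsto_subseq (x := fun n => (A n, x n)) (fun n => by
        refine ⟨?_, ?_⟩
        · rw [mem_closedBall_zero_iff]; exact hA n
        · rw [mem_sphere_zero_iff_norm]; exact hx n)
  have hB : ‖B‖ ≤ 1 := by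
    have := hBu.1
    rwa [mem_closedBall_zero_iff] at this
  have hu : ‖u‖ = 1 := by
    have := hBu.2
    rwa [mem_sphere_zero_iff_norm] at this
  have h1 : Tendsto (fun n => A (φ n)) atTop (𝓝 B) := (continuous_fst.tendsto _).comp hlim
  have h2 : Tendsto (fun n => x (φ n)) atTop (𝓝 u) := (continuous_snd.tendsto _).comp hlim
  refine ⟨φ, B, u, hφ, h1, h2, hB, hu, ?_, ?_⟩
  · apply le_antisymm
    · have := B.le_opNorm u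
      rw [hu, mul_one] at this
      exact this.trans hB
    · have e1 : Tendsto (fun n => ‖A (φ n) (x (φ n))‖) atTop (𝓝 ‖B u‖) :=
        (tendsto_app h1 h2).norm
      have e2 : Tendsto (fun n : ℕ => 1 - 1 / (((φ n : ℕ) : ℝ) + 1)) atTop (𝓝 (1 - 0)) :=
        tendsto_const_nhds.sub (tendsto_one_div_add_atTop_nhds_zero_nat.comp hφ.tendsto_atTop)
      rw [sub_zero] at e2
      exact le_of_tendsto_of_tendsto' e2 e1 fun n => (hAx (φ n)).le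
  · intro y
    rw [mem_VV]
    have e0 : ∀ i : Fin 3, Tendsto (fun n => A (φ n) y i) atTop (𝓝 (B y i)) := fun i =>
      ((continuous_apply i).tendsto _).comp (tendsto_app h1 tendsto_const_nhds)
    have e1 : Tendsto (fun n => A (φ n) y 1 - A (φ n) y 2) atTop (𝓝 (B y 1 - B y 2)) :=
      (e0 1).sub (e0 2)
    have e2 : Tendsto (fun n => ((2 * s (φ n) : ℝ) : 𝕜) * A (φ n) y 0) atTop
        (𝓝 (((2 * s₀ : ℝ) : 𝕜) * B y 0)) := by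
      refine Tendsto.mul ?_ (e0 0)
      exact ((RCLike.continuous_ofReal (K := 𝕜)).tendsto _).comp
        ((hs.comp hφ.tendsto_atTop).const_mul 2)
    exact tendsto_nhds_unique (e1.congr fun n => mem_VV.1 (hV (φ n) y)) e2

end Blocks

end Pool.Agent.W703.OC
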