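import Pool.Agent.W703.BPBa

set_option autoImplicit false

open Set Filter Topology
open scoped ENNReal

namespace Pool.Agent.W703.OC

variable {𝕜 : Type*} [RCLike 𝕜] {X : Type*} [NormedAddCommGroup X] [NormedSpace 𝕜 X]

lemma good_fixed [FiniteDimensional 𝕜 X] (s : ℝ) {ε : ℝ} (hε : 0 < ε) :
    ∃ η : ℝ, 0 < η ∧ ∀ (A : X →L[𝕜] (Fin 3 → 𝕜)) (x : X), ‖A‖ ≤ 1 → (∀ y, A y ∈ VV 𝕜 s) →
      ‖x‖ = 1 → 1 - η < ‖A x‖ → Good ε s A x := by
  by_contra hcon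
  push Not at hcon
  have h1 : ∀ n : ℕ, ∃ (A : X →L[𝕜] (Fin 3 → 𝕜)) (x : X), ‖A‖ ≤ 1 ∧ (∀ y, A y ∈ VV 𝕜 s) ∧
      ‖x‖ = 1 ∧ 1 - 1 / ((n : ℝ) + 1) < ‖A x‖ ∧ ¬ Good ε s A x := fun n => hcon _ (by positivity)
  choose A x hA hV hx hAx hG using h1
  obtain ⟨φ, B, u, -, hB, hu, h2, h3, h4, h5⟩ :=
    compactness (s := fun _ => s) tendsto_const_nhds A x hA hV hx hAx
  have e1 := Metric.tendsto_nhds.1 hB ε hε
  have e2 := Metric.tendsto_nhds.1 hu ε hε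
  obtain ⟨n, hn1, hn2⟩ := (e1.and e2).exists
  rw [dist_eq_norm] at hn1 hn2
  exact hG (φ n) ⟨B, u, h2, h5, h3, h4, hn2, by rw [norm_sub_rev]; exact hn1⟩

/-- the mean of the last two coordinates -/
noncomputable def mid (A : X →L[𝕜] (Fin 3 → 𝕜)) : X →L[𝕜] 𝕜 := (2⁻¹ : 𝕜) • (co 1 A + co 2 A)

lemma norm_half : ‖(2⁻¹ : 𝕜)‖ = 1 / 2 := by
  rw [norm_inv, RCLike.norm_ofNat]; norm_num

lemma norm_mid_sub_le (A B : X →L[𝕜] (Fin 3 → 𝕜)) : ‖mid A - mid B‖ ≤ ‖A - B‖ := by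
  have h : mid A - mid B = (2⁻¹ : 𝕜) • (co 1 (A - B) + co 2 (A - B)) := by
    ext x
    change 2⁻¹ * (A x 1 + A x 2) - 2⁻¹ * (B x 1 + B x 2) =
      2⁻¹ * ((A x 1 - B x 1) + (A x 2 - B x 2))
    ring
  rw [h, norm_smul, norm_half]
  have h1 := norm_co_le 1 (A - B)
  have h2 := norm_co_le 2 (A - B)
  have h3 := norm_add_le (co 1 (A - B)) (co 2 (A - B))
  linarith

lemma norm_mid_le (A : X →L[𝕜] (Fin 3 → 𝕜)) : ‖mid A‖ ≤ ‖A‖ := by
  have h := norm_mid_sub_le A 0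
  have h0 : mid (0 : X →L[𝕜] (Fin 3 → 𝕜)) = 0 := by
    ext x
    change 2⁻¹ * ((0 : 𝕜) + 0) = 0
    ring
  rwa [h0, sub_zero, sub_zero] at h

lemma eq_blk_mid {s : ℝ} {A : X →L[𝕜] (Fin 3 → 𝕜)} (hA : ∀ y, A y ∈ VV 𝕜 s) :
    A = blk (co 0 A) (mid A + (s : 𝕜) • co 0 A) (mid A - (s : 𝕜) • co 0 A) := by
  ext x i
  have h := mem_VV.1 (hA x)
  push_cast at h
  fin_cases i
  · rfl
  · change A x 1 = 2⁻¹ * (A x 1 + A x 2) + (s : 𝕜) * A x 0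
    linear_combination (2⁻¹ : 𝕜) * h
  · change A x 2 = 2⁻¹ * (A x 1 + A x 2) - (s : 𝕜) * A x 0
    linear_combination (-(2⁻¹ : 𝕜)) * h

lemma blk_mem (f g : X →L[𝕜] 𝕜) (s : ℝ) (y : X) :
    blk f (g + (s : 𝕜) • f) (g - (s : 𝕜) • f) y ∈ VV 𝕜 s := by
  rw [mem_VV]
  change (g y + (s : 𝕜) * f y) - (g y - (s : 𝕜) * f y) = ((2 * s : ℝ) : 𝕜) * f y
  push_cast
  ring

lemma norm_real_smul (s : ℝ) (hs : 0 ≤ s) (f : X →L[𝕜] 𝕜) : ‖(s : 𝕜) • f‖ = s * ‖f‖ := by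
  rw [norm_smul, norm_algebraMap', Real.norm_of_nonneg hs]

/-- case: the first coordinate attains -/
lemma good_a {ε ρ s : ℝ} (hρ1 : 4 * ρ ≤ ε) (hρ2 : ρ ≤ 1) (hs0 : 0 ≤ s) (hs : s ≤ ρ)
    (hρ0 : 0 < ρ) {A B : X →L[𝕜] (Fin 3 → 𝕜)} (hA : ‖A‖ ≤ 1) (hAV : ∀ y, A y ∈ VV 𝕜 s)
    (hB : ‖B‖ ≤ 1) {x u : X} (hu : ‖u‖ = 1) (hBu : ‖co 0 B u‖ = 1) (hxu : ‖x - u‖ < ε)
    (hAB : ‖A - B‖ < ρ) : Good ε s A x := by
  set f := co 0 B
  set g := mid A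
  have hf : ‖f‖ ≤ 1 := (norm_co_le 0 B).trans hB
  have hg : ‖g‖ ≤ 1 := (norm_mid_le A).trans hA
  have hfA : ‖co 0 A‖ ≤ 1 := (norm_co_le 0 A).trans hA
  have e1 : ‖((1 - ρ : ℝ) : 𝕜) • g‖ ≤ 1 - ρ := by
    rw [norm_real_smul _ (by linarith)]
    nlinarith
  have e2 : ‖(s : 𝕜) • f‖ ≤ s := by
    rw [norm_real_smul _ hs0]
    nlinarith
  refine ⟨blk f (((1 - ρ : ℝ) : 𝕜) • g + (s : 𝕜) • f) (((1 - ρ : ℝ) : 𝕜) • g - (s : 𝕜) • f), u,
    ?_, blk_mem f _ s, hu, ?_, hxu, ?_⟩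
  · refine norm_blk_le zero_le_one hf ?_ ?_
    · exact (norm_add_le _ _).trans (by linarith)
    · exact (norm_sub_le _ _).trans (by linarith)
  · set B' := blk f (((1 - ρ : ℝ) : 𝕜) • g + (s : 𝕜) • f) (((1 - ρ : ℝ) : 𝕜) • g - (s : 𝕜) • f)
    apply le_antisymm
    · have h1 : ‖B'‖ ≤ 1 := by
        refine norm_blk_le zero_le_one hf ?_ ?_
        · exact (norm_add_le _ _).trans (by linarith)
        · exact (norm_sub_le _ _).trans (by linarith)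
      have h2 := B'.le_opNorm u
      rw [hu, mul_one] at h2
      exact h2.trans h1
    · rw [← hBu]
      exact norm_le_pi_norm (B' u) 0
  · have hA' := eq_blk_mid hAV
    rw [hA', blk_sub]
    have e3 : ‖f - co 0 A‖ ≤ ρ := by
      have h1 : f - co 0 A = co 0 (B - A) := rfl
      rw [h1]
      refine (norm_co_le 0 _).trans ?_
      rw [norm_sub_rev]
      exact hAB.le
    have e4 : ‖(ρ : 𝕜) • g‖ ≤ ρ := by
      rw [norm_real_smul _ hρ0.le]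
      nlinarith
    have e5 : ‖(s : 𝕜) • (f - co 0 A)‖ ≤ ρ := by
      rw [norm_real_smul _ hs0]
      nlinarith [norm_nonneg (f - co 0 A)]
    refine lt_of_le_of_lt (norm_blk_le (M := 3 * ρ) (by positivity) (by linarith) ?_ ?_)
      (by linarith)
    · have h1 : ((1 - ρ : ℝ) : 𝕜) • g + (s : 𝕜) • f - (mid A + (s : 𝕜) • co 0 A) =
          (s : 𝕜) • (f - co 0 A) - (ρ : 𝕜) • g := by
        ext y
        change ((1 - ρ : ℝ) : 𝕜) * g y + (s : 𝕜) * f y - (g y + (s : 𝕜) * co 0 A y) =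
          (s : 𝕜) * (f y - co 0 A y) - (ρ : 𝕜) * g y
        push_cast
        ring
      rw [h1]
      exact (norm_sub_le _ _).trans (by linarith)
    · have h1 : ((1 - ρ : ℝ) : 𝕜) • g - (s : 𝕜) • f - (mid A - (s : 𝕜) • co 0 A) =
          -((s : 𝕜) • (f - co 0 A)) - (ρ : 𝕜) • g := by
        ext y
        change ((1 - ρ : ℝ) : 𝕜) * g y - (s : 𝕜) * f y - (g y - (s : 𝕜) * co 0 A y) =
          -((s : 𝕜) * (f y - co 0 A y)) - (ρ : 𝕜) * g y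
        push_cast
        ring
      rw [h1]
      refine (norm_sub_le _ _).trans ?_
      rw [norm_neg]
      linarith

/-- functionals on finite-dimensional spaces attain their norms -/
lemma exists_attain [FiniteDimensional 𝕜 X] [Nontrivial X] (h : X →L[𝕜] 𝕜) :
    ∃ v : X, ‖v‖ = 1 ∧ ‖h v‖ = ‖h‖ := by
  have : ProperSpace X := FiniteDimensional.proper_rclike 𝕜 X
  obtain ⟨w0, hw0⟩ := exists_ne (0 : X)
  obtain ⟨w, hw⟩ : ∃ w : X, ‖w‖ = 1 := ⟨((‖w0‖ : 𝕜)⁻¹) • w0, norm_smul_inv_norm hw0⟩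
  obtain ⟨v, hv1, hv2⟩ := (isCompact_sphere (0 : X) 1).exists_isMaxOn
    ⟨w, by rw [mem_sphere_zero_iff_norm]; exact hw⟩ (f := fun x => ‖h x‖)
    h.continuous.norm.continuousOn
  rw [mem_sphere_zero_iff_norm] at hv1
  refine ⟨v, hv1, le_antisymm ?_ ?_⟩
  · have := h.le_opNorm v
    rwa [hv1, mul_one] at this
  · refine h.opNorm_le_of_unit_norm (norm_nonneg _) ?_
    intro z hz
    exact hv2 (by rw [mem_sphere_zero_iff_norm]; exact hz)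

/-- case: the other coordinates attain; `g'` is a strongly exposing functional -/
lemma good_b [FiniteDimensional 𝕜 X] {ε δ s : ℝ} (hs0 : 0 ≤ s) (hsδ : s < δ)
    (hsε : s ≤ ε / 4) {A B : X →L[𝕜] (Fin 3 → 𝕜)} (hA : ‖A‖ ≤ 1) (hAV : ∀ y, A y ∈ VV 𝕜 s)
    {x u x' : X} {g' : X →L[𝕜] 𝕜} (hg' : ‖g'‖ ≤ 1) (hx' : ‖x'‖ = 1) (hgx' : ‖g' x'‖ = 1)
    (hexp : ∀ u : X, ‖u‖ = 1 → 1 - δ < ‖g' u‖ → ∃ c : 𝕜, ‖c‖ = 1 ∧ ‖c • u - x'‖ < ε / 4)
    (hg'g : ‖g' - mid B‖ < ε / 4) (hx'u : ‖x' - u‖ < ε / 4) (hxu : ‖x - u‖ < ε / 4)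
    (hAB : ‖A - B‖ < ε / 4) : Good ε s A x := by
  have hε : 0 < ε := by linarith [norm_nonneg (x - u)]
  have : Nontrivial X := ⟨x', 0, fun h => by rw [h, norm_zero] at hx'; exact zero_ne_one hx'⟩
  set f := co 0 A with hf_def
  have hf : ‖f‖ ≤ 1 := (norm_co_le 0 A).trans hA
  set hp := g' + (s : 𝕜) • f with hp_def
  set hm := g' - (s : 𝕜) • f with hm_def
  set M := max ‖hp‖ ‖hm‖ with hM_def
  have esf : ‖(s : 𝕜) • f‖ ≤ s := by
    rw [norm_real_smul _ hs0]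
    nlinarith
  have hg1 : 1 ≤ ‖g'‖ := by
    have := g'.le_opNorm x'
    rwa [hx', mul_one, hgx'] at this
  have hM1 : 1 ≤ M := by
    have h1 : (2 : 𝕜) • g' = hp + hm := by
      ext y
      change (2 : 𝕜) * g' y = (g' y + (s : 𝕜) * f y) + (g' y - (s : 𝕜) * f y)
      ring
    have h2 : 2 * ‖g'‖ ≤ ‖hp‖ + ‖hm‖ := by
      have h3 : ‖(2 : 𝕜) • g'‖ = 2 * ‖g'‖ := by rw [norm_smul, RCLike.norm_ofNat]
      rw [← h3, h1]
      exact norm_add_le _ _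
    have h3 := le_max_left ‖hp‖ ‖hm‖
    have h4 := le_max_right ‖hp‖ ‖hm‖
    linarith
  have hM2 : M ≤ 1 + s :=
    max_le ((norm_add_le _ _).trans (by linarith)) ((norm_sub_le _ _).trans (by linarith))
  have hM0 : 0 < M := by linarith
  have key : ∃ (v : X) (i : Fin 3), ‖v‖ = 1 ∧ ‖blk f hp hm v i‖ = M ∧ M - s ≤ ‖g' v‖ := by
    rcases max_choice ‖hp‖ ‖hm‖ with h | h
    · obtain ⟨v, hv1, hv2⟩ := exists_attain hp
      have h1 : ‖hp v‖ = M := by rw [hv2, hM_def, h]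
      refine ⟨v, 1, hv1, h1, ?_⟩
      have h2 : hp v = g' v + ((s : 𝕜) • f) v := rfl
      have h3 := norm_add_le (g' v) (((s : 𝕜) • f) v)
      have h4 := ((s : 𝕜) • f).le_opNorm v
      rw [hv1, mul_one] at h4
      rw [← h2, h1] at h3
      linarith
    · obtain ⟨v, hv1, hv2⟩ := exists_attain hm
      have h1 : ‖hm v‖ = M := by rw [hv2, hM_def, h]
      refine ⟨v, 2, hv1, h1, ?_⟩
      have h2 : hm v = g' v - ((s : 𝕜) • f) v := rfl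
      have h3 := norm_sub_le (g' v) (((s : 𝕜) • f) v)
      have h4 := ((s : 𝕜) • f).le_opNorm v
      rw [hv1, mul_one] at h4
      rw [← h2, h1] at h3
      linarith
  obtain ⟨v, i, hv1, hv2, hv3⟩ := key
  obtain ⟨c, hc, hcv⟩ := hexp v hv1 (by linarith)
  have hbn : ‖blk f hp hm‖ ≤ M :=
    norm_blk_le hM0.le (by linarith) (le_max_left _ _) (le_max_right _ _)
  have hMi : ‖((M⁻¹ : ℝ) : 𝕜)‖ = M⁻¹ := by
    rw [norm_algebraMap', Real.norm_of_nonneg (inv_nonneg.2 hM0.le)]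
  have hBn : ‖((M⁻¹ : ℝ) : 𝕜) • blk f hp hm‖ ≤ 1 := by
    rw [norm_smul, hMi]
    calc M⁻¹ * ‖blk f hp hm‖ ≤ M⁻¹ * M := mul_le_mul_of_nonneg_left hbn (inv_nonneg.2 hM0.le)
      _ = 1 := inv_mul_cancel₀ hM0.ne'
  refine ⟨((M⁻¹ : ℝ) : 𝕜) • blk f hp hm, c • v, hBn, ?_, ?_, ?_, ?_, ?_⟩
  · intro y
    exact (VV 𝕜 s).smul_mem _ (blk_mem f g' s y)
  · rw [norm_smul, hc, hv1, one_mul]
  · apply le_antisymm
    · have h2 := (((M⁻¹ : ℝ) : 𝕜) • blk f hp hm).le_opNorm (c • v)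
      rw [norm_smul c, hc, hv1, one_mul, mul_one] at h2
      exact h2.trans hBn
    · have h1 := norm_le_pi_norm ((((M⁻¹ : ℝ) : 𝕜) • blk f hp hm) (c • v)) i
      have h2 : ((((M⁻¹ : ℝ) : 𝕜) • blk f hp hm) (c • v)) i =
          ((M⁻¹ : ℝ) : 𝕜) * (c * blk f hp hm v i) := by
        rw [map_smul]
        change c * (((M⁻¹ : ℝ) : 𝕜) * blk f hp hm v i) = _
        ring
      rw [h2, norm_mul, norm_mul, hMi, hc, hv2, one_mul, inv_mul_cancel₀ hM0.ne'] at h1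
      exact h1
  · have h1 : x - c • v = (x - u) - (x' - u) - (c • v - x') := by abel
    rw [h1]
    have h2 := norm_sub_le ((x - u) - (x' - u)) (c • v - x')
    have h3 := norm_sub_le (x - u) (x' - u)
    linarith
  · have h1 : ((M⁻¹ : ℝ) : 𝕜) • blk f hp hm - A = (((M⁻¹ : ℝ) : 𝕜) - 1) • blk f hp hm +
        (blk f hp hm - A) := by
      ext y i
      change ((M⁻¹ : ℝ) : 𝕜) * blk f hp hm y i - A y i =
        (((M⁻¹ : ℝ) : 𝕜) - 1) * blk f hp hm y i + (blk f hp hm y i - A y i)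
      ring
    have h2 : ‖(((M⁻¹ : ℝ) : 𝕜) - 1) • blk f hp hm‖ ≤ s := by
      have e1 : (((M⁻¹ : ℝ) : 𝕜) - 1) = ((M⁻¹ - 1 : ℝ) : 𝕜) := by push_cast; ring
      have e2 : |M⁻¹ - 1| = 1 - M⁻¹ := by
        rw [abs_sub_comm, abs_of_nonneg]
        have := inv_le_one_of_one_le₀ hM1
        linarith
      rw [norm_smul, e1, norm_algebraMap', Real.norm_eq_abs, e2]
      calc (1 - M⁻¹) * ‖blk f hp hm‖ ≤ (1 - M⁻¹) * M := by
            refine mul_le_mul_of_nonneg_left hbn ?_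
            have := inv_le_one_of_one_le₀ hM1
            linarith
        _ = M - 1 := by rw [sub_mul, one_mul, inv_mul_cancel₀ hM0.ne']
        _ ≤ s := by linarith
    have h3 : ‖blk f hp hm - A‖ ≤ ‖g' - mid A‖ := by
      have e1 := eq_blk_mid hAV
      have e2 : blk f hp hm - A = blk 0 (g' - mid A) (g' - mid A) := by
        conv_lhs => rw [e1]
        rw [blk_sub]
        congr 1
        · exact sub_self _
        · rw [hp_def, hf_def]; abel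
        · rw [hm_def, hf_def]; abel
      rw [e2]
      refine norm_blk_le (norm_nonneg _) ?_ le_rfl le_rfl
      rw [norm_zero]; exact norm_nonneg _
    have h4 : ‖g' - mid A‖ ≤ ‖g' - mid B‖ + ‖A - B‖ := by
      have e1 : g' - mid A = (g' - mid B) - (mid A - mid B) := by abel
      rw [e1]
      exact (norm_sub_le _ _).trans (by linarith [norm_mid_sub_le A B])
    rw [h1]
    have h5 := norm_add_le ((((M⁻¹ : ℝ) : 𝕜) - 1) • blk f hp hm) (blk f hp hm - A)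
    linarith

lemma good_small [FiniteDimensional 𝕜 X] (hX : Exps 𝕜 X) {ε : ℝ} (hε : 0 < ε) :
    ∃ η : ℝ, 0 < η ∧ ∀ s : ℝ, 0 ≤ s → s < η → ∀ (A : X →L[𝕜] (Fin 3 → 𝕜)) (x : X), ‖A‖ ≤ 1 →
      (∀ y, A y ∈ VV 𝕜 s) → ‖x‖ = 1 → 1 - η < ‖A x‖ → Good ε s A x := by
  by_contra hcon
  push Not at hcon
  have h1 : ∀ n : ℕ, ∃ s : ℝ, 0 ≤ s ∧ s < 1 / ((n : ℝ) + 1) ∧
      ∃ (A : X →L[𝕜] (Fin 3 → 𝕜)) (x : X), ‖A‖ ≤ 1 ∧ (∀ y, A y ∈ VV 𝕜 s) ∧
      ‖x‖ = 1 ∧ 1 - 1 / ((n : ℝ) + 1) < ‖A x‖ ∧ ¬ Good ε s A x := fun n => hcon _ (by positivity)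
  choose s hs0 hs1 A x hA hV hx hAx hG using h1
  have hs : Tendsto s atTop (𝓝 0) :=
    squeeze_zero hs0 (fun n => (hs1 n).le) tendsto_one_div_add_atTop_nhds_zero_nat
  obtain ⟨φ, B, u, hφ, hB, hu, h2, h3, h4, h5⟩ := compactness hs A x hA hV hx hAx
  have hs' : Tendsto (fun n => s (φ n)) atTop (𝓝 0) := hs.comp hφ.tendsto_atTop
  obtain ⟨i, hi⟩ : ∃ i, ‖B u i‖ = 1 := by
    by_contra hno
    push Not at hno
    have h6 : ∀ i, ‖B u i‖ < 1 := fun i =>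
      lt_of_le_of_ne ((norm_le_pi_norm (B u) i).trans h4.le) (hno i)
    have h7 := (pi_norm_lt_iff one_pos).2 h6
    exact absurd h4 (ne_of_lt h7)
  have h12 : co 1 B = co 2 B := by
    ext y
    have := mem_VV.1 (h5 y)
    rw [mul_zero, RCLike.ofReal_zero, zero_mul, sub_eq_zero] at this
    exact this
  by_cases h0 : ‖co 0 B u‖ = 1
  · set ρ := min (ε / 4) 1
    have hρ0 : 0 < ρ := lt_min (by positivity) one_pos
    have e1 := Metric.tendsto_nhds.1 hB ρ hρ0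
    have e2 := Metric.tendsto_nhds.1 hu ε hε
    have e3 := Metric.tendsto_nhds.1 hs' ρ hρ0
    obtain ⟨n, hn1, hn2, hn3⟩ := (e1.and (e2.and e3)).exists
    rw [dist_eq_norm] at hn1 hn2 hn3
    rw [sub_zero, Real.norm_of_nonneg (hs0 _)] at hn3
    refine hG (φ n) (good_a (ρ := ρ) (B := B) (u := u) ?_ (min_le_right _ _) (hs0 _) hn3.le hρ0
      (hA _) (hV _) h2 h3 h0 hn2 hn1)
    have := min_le_left (ε / 4) 1
    linarith
  · have hmid : mid B = co 1 B := by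
      ext y
      have h6 : co 2 B y = co 1 B y := by rw [h12]
      change 2⁻¹ * (co 1 B y + co 2 B y) = co 1 B y
      rw [h6]
      ring
    have hg : ‖mid B u‖ = 1 := by
      rw [hmid]
      fin_cases i
      · exact absurd hi h0
      · exact hi
      · rw [h12]; exact hi
    obtain ⟨g', x', hg'1, hx'1, hg'x', hg'g, hx'u, hexp⟩ :=
      hX (mid B) u ((norm_mid_le B).trans h2) h3 hg (ε / 4) (by positivity)
    obtain ⟨δ, hδ, hexp'⟩ := strong_exp (x := x') hg'1 hexp (show 0 < ε / 4 by positivity)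
    have e1 := Metric.tendsto_nhds.1 hB (ε / 4) (by positivity)
    have e2 := Metric.tendsto_nhds.1 hu (ε / 4) (by positivity)
    have e3 := Metric.tendsto_nhds.1 hs' (min δ (ε / 4)) (lt_min hδ (by positivity))
    obtain ⟨n, hn1, hn2, hn3⟩ := (e1.and (e2.and e3)).exists
    rw [dist_eq_norm] at hn1 hn2 hn3
    rw [sub_zero, Real.norm_of_nonneg (hs0 _)] at hn3
    exact hG (φ n) (good_b (hs0 _) (hn3.trans_le (min_le_left _ _))
      (hn3.le.trans (min_le_right _ _)) (hA _) (hV _) hg'1 hx'1 hg'x' hexp' hg'g hx'u hn2 hn1)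

end Pool.Agent.W703.OC
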