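import Pool.Agent.W703.BPBb

set_option autoImplicit false

open Set Filter Topology
open scoped ENNReal

namespace Pool.Agent.W703.OC

/-- the parameters of the blocks -/
noncomputable def sk (k : ℕ) : ℝ := 1 / ((k : ℝ) + 1)

lemma sk_pos (k : ℕ) : 0 < sk k := by unfold sk; positivity

section

variable {𝕜 : Type*} [RCLike 𝕜] {X : Type*} [NormedAddCommGroup X] [NormedSpace 𝕜 X]

lemma good_unif [FiniteDimensional 𝕜 X] (hX : Exps 𝕜 X) {ε : ℝ} (hε : 0 < ε) :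
    ∃ η : ℝ, 0 < η ∧ ∀ (k : ℕ) (A : X →L[𝕜] (Fin 3 → 𝕜)) (x : X), ‖A‖ ≤ 1 →
      (∀ y, A y ∈ VV 𝕜 (sk k)) → ‖x‖ = 1 → 1 - η < ‖A x‖ → Good ε (sk k) A x := by
  obtain ⟨η₁, h1, h2⟩ := good_small hX hε
  obtain ⟨n, hn⟩ := exists_nat_one_div_lt h1
  have h3 : ∀ m : ℕ, ∃ η : ℝ, 0 < η ∧ ∀ k < m, ∀ (A : X →L[𝕜] (Fin 3 → 𝕜)) (x : X), ‖A‖ ≤ 1 →
      (∀ y, A y ∈ VV 𝕜 (sk k)) → ‖x‖ = 1 → 1 - η < ‖A x‖ → Good ε (sk k) A x := by
    intro m
    induction m with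
    | zero => exact ⟨1, one_pos, fun k hk => absurd hk (Nat.not_lt_zero k)⟩
    | succ m ih =>
      obtain ⟨η, hη, h4⟩ := ih
      obtain ⟨η', hη', h5⟩ := good_fixed (𝕜 := 𝕜) (X := X) (sk m) hε
      refine ⟨min η η', lt_min hη hη', fun k hk A x hA hV hx hAx => ?_⟩
      rcases Nat.lt_succ_iff_lt_or_eq.1 hk with hk | rfl
      · exact h4 k hk A x hA hV hx (lt_of_le_of_lt (by linarith [min_le_left η η']) hAx)
      · exact h5 A x hA hV hx (lt_of_le_of_lt (by linarith [min_le_right η η']) hAx)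
  obtain ⟨η₂, h4, h5⟩ := h3 n
  refine ⟨min η₁ η₂, lt_min h1 h4, fun k A x hA hV hx hAx => ?_⟩
  rcases lt_or_ge k n with hk | hk
  · exact h5 k hk A x hA hV hx (lt_of_le_of_lt (by linarith [min_le_right η₁ η₂]) hAx)
  · refine h2 (sk k) (sk_pos k).le ?_ A x hA hV hx
      (lt_of_le_of_lt (by linarith [min_le_left η₁ η₂]) hAx)
    refine lt_of_le_of_lt ?_ hn
    unfold sk
    have : (n : ℝ) ≤ k := by exact_mod_cast hk
    exact one_div_le_one_div_of_le (by positivity) (by linarith)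

end

section Abs

variable {𝕜 : Type*} [RCLike 𝕜] {X : Type*} [NormedAddCommGroup X] [NormedSpace 𝕜 X]
  {Y : Type*} [NormedAddCommGroup Y] [NormedSpace 𝕜 Y]

/-- `Y` is the `ℓ_∞`-sum of the spaces `VV 𝕜 (sk k)` -/
structure IsSum (ev : ∀ _ : ℕ, Y →L[𝕜] (Fin 3 → 𝕜)) (inj : ∀ k : ℕ, VV 𝕜 (sk k) →L[𝕜] Y) :
    Prop where
  le_of : ∀ (w : Y) (c : ℝ), 0 ≤ c → (∀ k, ‖ev k w‖ ≤ c) → ‖w‖ ≤ c
  ev_le : ∀ k w, ‖ev k w‖ ≤ ‖w‖
  ev_mem : ∀ k w, ev k w ∈ VV 𝕜 (sk k)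
  ev_self : ∀ k v, ev k (inj k v) = v
  ev_ne : ∀ k j v, j ≠ k → ev j (inj k v) = 0

theorem bpbp_of_isSum [FiniteDimensional 𝕜 X] (hX : Exps 𝕜 X)
    {ev : ∀ _ : ℕ, Y →L[𝕜] (Fin 3 → 𝕜)} {inj : ∀ k : ℕ, VV 𝕜 (sk k) →L[𝕜] Y}
    (hY : IsSum ev inj) : BPBp 𝕜 X Y := by
  intro ε hε _
  obtain ⟨η, hη, h⟩ := good_unif (𝕜 := 𝕜) (X := X) hX hε
  refine ⟨min η 1, lt_min hη one_pos, fun T x hT hx hTx => ?_⟩
  obtain ⟨k, hk⟩ : ∃ k, 1 - min η 1 < ‖ev k (T x)‖ := by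
    by_contra hno
    push Not at hno
    exact absurd (hY.le_of (T x) _ (by linarith [min_le_right η 1]) hno) (not_le.2 hTx)
  have hev : ∀ j y, ‖ev j (T y)‖ ≤ ‖y‖ := fun j y => by
    have h1 := hY.ev_le j (T y)
    have h2 := T.le_opNorm y
    rw [hT, one_mul] at h2
    exact h1.trans h2
  have hc : ‖(ev k).comp T‖ ≤ 1 :=
    ContinuousLinearMap.opNorm_le_bound _ zero_le_one fun y => by
      rw [one_mul]; exact hev k y
  obtain ⟨B, u, hB, hBV, hu, hBu, hxu, hBA⟩ := h k ((ev k).comp T) x hc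
    (fun y => hY.ev_mem k (T y)) hx (lt_of_le_of_lt (by linarith [min_le_left η 1]) hk)
  have hR : ∀ y, (B - (ev k).comp T) y ∈ VV 𝕜 (sk k) := fun y =>
    (VV 𝕜 (sk k)).sub_mem (hBV y) (hY.ev_mem k (T y))
  set R : X →L[𝕜] VV 𝕜 (sk k) := (B - (ev k).comp T).codRestrict (VV 𝕜 (sk k)) hR with hR_def
  set S := T + (inj k).comp R with hS_def
  have hSk : ∀ y, ev k (S y) = B y := by
    intro y
    change ev k (T y + inj k (R y)) = B y
    rw [map_add, hY.ev_self]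
    change ev k (T y) + (B y - ev k (T y)) = B y
    abel
  have hSj : ∀ y j, j ≠ k → ev j (S y) = ev j (T y) := by
    intro y j hj
    change ev j (T y + inj k (R y)) = ev j (T y)
    rw [map_add, hY.ev_ne k j _ hj, add_zero]
  have hS1 : ‖S‖ ≤ 1 := by
    refine ContinuousLinearMap.opNorm_le_bound _ zero_le_one fun y => ?_
    rw [one_mul]
    refine hY.le_of _ _ (norm_nonneg _) fun j => ?_
    by_cases hj : j = k
    · subst hj
      rw [hSk]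
      have := B.le_opNorm y
      nlinarith [norm_nonneg y]
    · rw [hSj y j hj]
      exact hev j y
  have hSu : ‖S u‖ = 1 := by
    apply le_antisymm
    · have := S.le_opNorm u
      rw [hu, mul_one] at this
      exact this.trans hS1
    · have := hY.ev_le k (S u)
      rwa [hSk, hBu] at this
  refine ⟨S, u, le_antisymm hS1 ?_, hu, hSu, hxu, ?_⟩
  · have := S.le_opNorm u
    rwa [hu, mul_one, hSu] at this
  · have h1 : S - T = (inj k).comp R := by rw [hS_def]; abel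
    rw [h1]
    refine lt_of_le_of_lt ?_ hBA
    refine ContinuousLinearMap.opNorm_le_bound _ (norm_nonneg _) fun y => ?_
    refine hY.le_of _ _ (by positivity) fun j => ?_
    change ‖ev j (inj k (R y))‖ ≤ _
    by_cases hj : j = k
    · subst hj
      rw [hY.ev_self]
      exact (B - (ev j).comp T).le_opNorm y
    · rw [hY.ev_ne k j _ hj, norm_zero]
      positivity

end Abs

section YB

variable (𝕜 : Type*) [RCLike 𝕜]

/-- the ambient space: bounded sequences of triples -/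
abbrev LL : Type _ := lp (fun _ : ℕ => (Fin 3 → 𝕜)) ∞

/-- the range space: the `ℓ_∞`-sum of the spaces `VV 𝕜 (sk k)` -/
def YB : Submodule 𝕜 (LL 𝕜) where
  carrier := {w | ∀ k, w k ∈ VV 𝕜 (sk k)}
  add_mem' := fun ha hb k => (VV 𝕜 (sk k)).add_mem (ha k) (hb k)
  zero_mem' := fun k => (VV 𝕜 (sk k)).zero_mem
  smul_mem' := fun c _ ha k => (VV 𝕜 (sk k)).smul_mem c (ha k)

variable {𝕜}

lemma mem_YB {w : LL 𝕜} : w ∈ YB 𝕜 ↔ ∀ k, w k ∈ VV 𝕜 (sk k) := Iff.rfl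

lemma isClosed_YB : IsClosed (YB 𝕜 : Set (LL 𝕜)) := by
  have h : (YB 𝕜 : Set (LL 𝕜)) =
      ⋂ k, (lp.evalCLM 𝕜 (fun _ : ℕ => (Fin 3 → 𝕜)) ∞ k) ⁻¹' (VV 𝕜 (sk k)) := by
    ext w
    simp only [mem_iInter]
    rfl
  rw [h]
  exact isClosed_iInter fun k =>
    (Submodule.closed_of_finiteDimensional _).preimage (ContinuousLinearMap.continuous _)

lemma complete_YB : CompleteSpace (YB 𝕜) := isClosed_YB.completeSpace_coe

/-- coordinates -/
noncomputable def evk (k : ℕ) : YB 𝕜 →L[𝕜] (Fin 3 → 𝕜) :=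
  (lp.evalCLM 𝕜 (fun _ : ℕ => (Fin 3 → 𝕜)) ∞ k).comp (YB 𝕜).subtypeL

/-- insertion of the `k`-th block -/
noncomputable def injk (k : ℕ) : VV 𝕜 (sk k) →L[𝕜] YB 𝕜 :=
  ((lp.singleContinuousLinearMap 𝕜 (fun _ : ℕ => (Fin 3 → 𝕜)) ∞ k).comp
    (VV 𝕜 (sk k)).subtypeL).codRestrict (YB 𝕜)
    (fun y j => by
      change (lp.single ∞ k (y : Fin 3 → 𝕜) : ∀ _ : ℕ, (Fin 3 → 𝕜)) j ∈ VV 𝕜 (sk j)
      by_cases h : j = k
      · subst h
        rw [lp.single_apply_self]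
        exact y.2
      · rw [lp.single_apply_ne _ _ _ h]
        exact (VV 𝕜 (sk j)).zero_mem)

lemma isSum_YB : IsSum (𝕜 := 𝕜) (Y := YB 𝕜) evk injk where
  le_of w c hc h := lp.norm_le_of_forall_le (f := (w : LL 𝕜)) hc h
  ev_le k w := lp.norm_apply_le_norm (by simp) (w : LL 𝕜) k
  ev_mem k w := w.2 k
  ev_self k v := lp.single_apply_self ∞ _ _
  ev_ne k j v h := lp.single_apply_ne ∞ _ _ h

end YB

end Pool.Agent.W703.OC
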