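import Pool.Agent.W703.BPBc

set_option autoImplicit false

open Set Filter Topology
open scoped ENNReal

namespace Pool.Agent.W703.OC

variable {𝕜 : Type*} [RCLike 𝕜] {X : Type*} [NormedAddCommGroup X] [NormedSpace 𝕜 X]
  {Y : Type*} [NormedAddCommGroup Y] [NormedSpace 𝕜 Y]

/-- a two-dimensional `ℓ_1`-space with its coordinates -/
structure IsL1 (φ1 φ2 : X →L[𝕜] 𝕜) (e1 e2 : X) : Prop where
  norm_eq : ∀ u, ‖u‖ = ‖φ1 u‖ + ‖φ2 u‖
  h11 : φ1 e1 = 1
  h12 : φ1 e2 = 0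
  h21 : φ2 e1 = 0
  h22 : φ2 e2 = 1

lemma IsL1.eq {φ1 φ2 : X →L[𝕜] 𝕜} {e1 e2 : X} (h : IsL1 φ1 φ2 e1 e2) (u : X) :
    u = φ1 u • e1 + φ2 u • e2 := by
  rw [← sub_eq_zero, ← norm_eq_zero, h.norm_eq]
  have h1 : φ1 (u - (φ1 u • e1 + φ2 u • e2)) = 0 := by
    rw [map_sub, map_add, map_smul, map_smul, h.h11, h.h12, smul_eq_mul, smul_eq_mul]; ring
  have h2 : φ2 (u - (φ1 u • e1 + φ2 u • e2)) = 0 := by
    rw [map_sub, map_add, map_smul, map_smul, h.h21, h.h22, smul_eq_mul, smul_eq_mul]; ring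
  rw [h1, h2, norm_zero, add_zero]

/-- the coordinate contraction estimate -/
lemma contract {s : ℝ} (hs0 : 0 < s) (hs1 : 2 * s ≤ 1) {p q r : 𝕜} (hq : ‖q‖ ≤ 1)
    (hr : ‖r‖ ≤ 1 / 4) (h : p = ((1 - 2 * s : ℝ) : 𝕜) * q + ((2 * s : ℝ) : 𝕜) * r) : ‖p‖ < 1 := by
  have h1 : ‖p‖ ≤ (1 - 2 * s) * ‖q‖ + 2 * s * ‖r‖ := by
    rw [h]
    refine (norm_add_le _ _).trans ?_
    rw [norm_mul, norm_mul, norm_algebraMap', norm_algebraMap', Real.norm_of_nonneg (by linarith),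
      Real.norm_of_nonneg (by linarith)]
  nlinarith

theorem not_bpbp_of_isL1 {φ1 φ2 : X →L[𝕜] 𝕜} {e1 e2 : X} (h : IsL1 φ1 φ2 e1 e2)
    {ev : ∀ _ : ℕ, Y →L[𝕜] (Fin 3 → 𝕜)} {inj : ∀ k : ℕ, VV 𝕜 (sk k) →L[𝕜] Y}
    (hY : IsSum ev inj) : ¬ BPBp 𝕜 X Y := by
  intro hb
  obtain ⟨η, hη, H⟩ := hb (1 / 8) (by norm_num) (by norm_num)
  obtain ⟨k, hk⟩ := exists_nat_one_div_lt (lt_min hη (show (0 : ℝ) < 1 / 8 by norm_num))
  change sk k < _ at hk
  have hs0 := sk_pos k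
  obtain ⟨hsη, hs8⟩ := lt_min_iff.1 hk
  have hφ1 : ∀ u, ‖φ1 u‖ ≤ ‖u‖ := fun u => by
    rw [h.norm_eq u]; linarith [norm_nonneg (φ2 u)]
  have hφ2 : ∀ u, ‖φ2 u‖ ≤ ‖u‖ := fun u => by
    rw [h.norm_eq u]; linarith [norm_nonneg (φ1 u)]
  have he1 : ‖e1‖ = 1 := by rw [h.norm_eq, h.h11, h.h21, norm_one, norm_zero, add_zero]
  have he2 : ‖e2‖ = 1 := by rw [h.norm_eq, h.h12, h.h22, norm_one, norm_zero, zero_add]
  set f : X →L[𝕜] 𝕜 := φ2 - φ1 with hf_def
  set g : X →L[𝕜] 𝕜 := ((1 - sk k : ℝ) : 𝕜) • (φ1 + φ2) with hg_def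
  set A : X →L[𝕜] (Fin 3 → 𝕜) := blk f (g + (sk k : 𝕜) • f) (g - (sk k : 𝕜) • f) with hA_def
  have hAm : ∀ y, A y ∈ VV 𝕜 (sk k) := fun y => blk_mem f g (sk k) y
  set T : X →L[𝕜] Y := (inj k).comp (A.codRestrict (VV 𝕜 (sk k)) hAm) with hT_def
  have hTk : ∀ y, ev k (T y) = A y := fun y => hY.ev_self k _
  have hTj : ∀ y j, j ≠ k → ev j (T y) = 0 := fun y j hj => hY.ev_ne k j _ hj
  have A0 : ∀ y, A y 0 = φ2 y - φ1 y := fun y => rfl
  have A1 : ∀ y, A y 1 = ((1 - 2 * sk k : ℝ) : 𝕜) * φ1 y + φ2 y := fun y => by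
    change ((1 - sk k : ℝ) : 𝕜) * (φ1 y + φ2 y) + (sk k : 𝕜) * (φ2 y - φ1 y) = _
    push_cast
    ring
  have A2 : ∀ y, A y 2 = φ1 y + ((1 - 2 * sk k : ℝ) : 𝕜) * φ2 y := fun y => by
    change ((1 - sk k : ℝ) : 𝕜) * (φ1 y + φ2 y) - (sk k : 𝕜) * (φ2 y - φ1 y) = _
    push_cast
    ring
  have hc : ‖((1 - 2 * sk k : ℝ) : 𝕜)‖ ≤ 1 := by
    rw [norm_algebraMap', Real.norm_of_nonneg (by linarith)]; linarith
  have hAn : ∀ y, ‖A y‖ ≤ ‖y‖ := by
    intro y
    rw [pi_norm_le_iff_of_nonneg (norm_nonneg y)]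
    intro i
    rw [h.norm_eq y]
    fin_cases i
    · change ‖A y 0‖ ≤ _
      rw [A0]
      exact (norm_sub_le _ _).trans (by linarith)
    · change ‖A y 1‖ ≤ _
      rw [A1]
      refine (norm_add_le _ _).trans ?_
      rw [norm_mul]
      nlinarith [norm_nonneg (φ1 y)]
    · change ‖A y 2‖ ≤ _
      rw [A2]
      refine (norm_add_le _ _).trans ?_
      rw [norm_mul]
      nlinarith [norm_nonneg (φ2 y)]
  have hT1 : ‖T‖ ≤ 1 := by
    refine ContinuousLinearMap.opNorm_le_bound _ zero_le_one fun y => ?_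
    rw [one_mul]
    refine hY.le_of _ _ (norm_nonneg _) fun j => ?_
    by_cases hj : j = k
    · subst hj; rw [hTk]; exact hAn y
    · rw [hTj y j hj, norm_zero]; exact norm_nonneg _
  have hT : ‖T‖ = 1 := by
    refine le_antisymm hT1 ?_
    have e1' := T.le_opNorm e1
    rw [he1, mul_one] at e1'
    have e2' := hY.ev_le k (T e1)
    rw [hTk] at e2'
    have e3' := norm_le_pi_norm (A e1) 0
    rw [A0, h.h11, h.h21, zero_sub, norm_neg, norm_one] at e3'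
    linarith
  set x₀ : X := (2⁻¹ : 𝕜) • (e1 + e2) with hx₀_def
  have p1 : φ1 x₀ = 2⁻¹ := by
    rw [hx₀_def, map_smul, map_add, h.h11, h.h12, add_zero, smul_eq_mul, mul_one]
  have p2 : φ2 x₀ = 2⁻¹ := by
    rw [hx₀_def, map_smul, map_add, h.h21, h.h22, zero_add, smul_eq_mul, mul_one]
  have hx₀ : ‖x₀‖ = 1 := by
    rw [h.norm_eq, p1, p2, norm_half]; norm_num
  have hTx₀ : 1 - η < ‖T x₀‖ := by
    have e1' := hY.ev_le k (T x₀)
    rw [hTk] at e1'
    have e2' := norm_le_pi_norm (A x₀) 1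
    have e3' : A x₀ 1 = ((1 - sk k : ℝ) : 𝕜) := by
      rw [A1, p1, p2]
      push_cast
      have : (2 : 𝕜) ≠ 0 := two_ne_zero
      field_simp
      ring
    rw [e3', norm_algebraMap', Real.norm_of_nonneg (by linarith)] at e2'
    linarith
  obtain ⟨S, u, hS, hu, hSu, hxu, hST⟩ := H T x₀ hT hx₀ hTx₀
  have hd : ∀ y, ‖y‖ ≤ 1 → ∀ j, ‖ev j (S y) - ev j (T y)‖ ≤ 1 / 8 := by
    intro y hy j
    rw [← map_sub]
    have e1' := hY.ev_le j (S y - T y)
    have e2' := (S - T).le_opNorm y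
    have e3' : (S - T) y = S y - T y := rfl
    rw [e3'] at e2'
    nlinarith [norm_nonneg (S - T), norm_nonneg y]
  have hSn : ∀ y, ‖y‖ ≤ 1 → ∀ j i, ‖ev j (S y) i‖ ≤ 1 := by
    intro y hy j i
    have e1' := norm_le_pi_norm (ev j (S y)) i
    have e2' := hY.ev_le j (S y)
    have e3' := S.le_opNorm y
    rw [hS, one_mul] at e3'
    linarith
  -- the first unit vector
  have r1 : ‖ev k (S e1) 1‖ < 1 := by
    have m := mem_VV.1 (hY.ev_mem k (S e1))
    have d := hd e1 he1.le k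
    rw [hTk] at d
    have d0 := (norm_le_pi_norm (ev k (S e1) - A e1) 0).trans d
    have d2 := (norm_le_pi_norm (ev k (S e1) - A e1) 2).trans d
    rw [Pi.sub_apply, A0, h.h11, h.h21] at d0
    rw [Pi.sub_apply, A2, h.h11, h.h21] at d2
    refine contract (s := sk k) hs0 (by linarith) (q := ev k (S e1) 2)
      (r := ev k (S e1) 0 + ev k (S e1) 2) (hSn e1 he1.le k 2) ?_ ?_
    · have e : ev k (S e1) 0 + ev k (S e1) 2 = (ev k (S e1) 0 - (0 - 1)) +
          (ev k (S e1) 2 - (1 + ((1 - 2 * sk k : ℝ) : 𝕜) * 0)) := by ring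
      rw [e]
      exact (norm_add_le _ _).trans (by linarith)
    · push_cast at m ⊢
      linear_combination m
  -- the second unit vector
  have r2 : ‖ev k (S e2) 2‖ < 1 := by
    have m := mem_VV.1 (hY.ev_mem k (S e2))
    have d := hd e2 he2.le k
    rw [hTk] at d
    have d0 := (norm_le_pi_norm (ev k (S e2) - A e2) 0).trans d
    have d1 := (norm_le_pi_norm (ev k (S e2) - A e2) 1).trans d
    rw [Pi.sub_apply, A0, h.h12, h.h22] at d0
    rw [Pi.sub_apply, A1, h.h12, h.h22] at d1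
    refine contract (s := sk k) hs0 (by linarith) (q := ev k (S e2) 1)
      (r := ev k (S e2) 1 - ev k (S e2) 0) (hSn e2 he2.le k 1) ?_ ?_
    · have e : ev k (S e2) 1 - ev k (S e2) 0 =
          (ev k (S e2) 1 - (((1 - 2 * sk k : ℝ) : 𝕜) * 0 + 1)) - (ev k (S e2) 0 - (1 - 0)) := by
        ring
      rw [e]
      exact (norm_sub_le _ _).trans (by linarith)
    · push_cast at m ⊢
      linear_combination -m
  have hα : ‖φ1 u - 2⁻¹‖ < 1 / 8 := by
    have := hφ1 (x₀ - u)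
    rw [map_sub, p1, norm_sub_rev] at this
    linarith
  have hβ : ‖φ2 u - 2⁻¹‖ < 1 / 8 := by
    have := hφ2 (x₀ - u)
    rw [map_sub, p2, norm_sub_rev] at this
    linarith
  have hα0 : 0 < ‖φ1 u‖ := by
    have h1 := norm_sub_norm_le (2⁻¹ : 𝕜) (φ1 u)
    rw [norm_half, norm_sub_rev] at h1
    linarith
  have hβ0 : 0 < ‖φ2 u‖ := by
    have h1 := norm_sub_norm_le (2⁻¹ : 𝕜) (φ2 u)
    rw [norm_half, norm_sub_rev] at h1
    linarith
  have hαβ : ‖φ1 u‖ + ‖φ2 u‖ = 1 := by rw [← h.norm_eq, hu]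
  have hSu' : ∀ i, ev k (S u) i = φ1 u * ev k (S e1) i + φ2 u * ev k (S e2) i := by
    intro i
    conv_lhs => rw [h.eq u]
    rw [map_add, map_smul, map_smul, map_add, map_smul, map_smul]
    rfl
  set c := max (3 / 8) (max (‖φ1 u‖ * ‖ev k (S e1) 1‖ + ‖φ2 u‖)
    (‖φ1 u‖ + ‖φ2 u‖ * ‖ev k (S e2) 2‖)) with hc_def
  have hc1 : c < 1 := by
    have q1 := mul_lt_of_lt_one_right hα0 r1
    have q2 := mul_lt_of_lt_one_right hβ0 r2
    exact max_lt (by norm_num) (max_lt (by linarith only [q1, hαβ]) (by linarith only [q2, hαβ]))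
  have hc0 : 3 / 8 ≤ c := le_max_left _ _
  have hfin : ‖S u‖ ≤ c := by
    refine hY.le_of _ _ (by linarith) fun j => ?_
    by_cases hj : j = k
    · subst hj
      rw [pi_norm_le_iff_of_nonneg (by linarith)]
      intro i
      fin_cases i
      · change ‖ev j (S u) 0‖ ≤ c
        have d := (norm_le_pi_norm (ev j (S u) - ev j (T u)) 0).trans (hd u hu.le j)
        rw [hTk, Pi.sub_apply, A0] at d
        have e : ev j (S u) 0 = (ev j (S u) 0 - (φ2 u - φ1 u)) +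
            ((φ2 u - 2⁻¹) - (φ1 u - 2⁻¹)) := by ring
        rw [e]
        refine (norm_add_le _ _).trans ?_
        have := norm_sub_le (φ2 u - 2⁻¹) (φ1 u - 2⁻¹)
        linarith
      · change ‖ev j (S u) 1‖ ≤ c
        rw [hSu']
        refine (norm_add_le _ _).trans ?_
        rw [norm_mul, norm_mul]
        have e1' := hSn e2 he2.le j 1
        refine le_trans ?_ ((le_max_left _ _).trans (le_max_right _ _))
        have q := mul_le_of_le_one_right (norm_nonneg (φ2 u)) e1'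
        linarith only [q]
      · change ‖ev j (S u) 2‖ ≤ c
        rw [hSu']
        refine (norm_add_le _ _).trans ?_
        rw [norm_mul, norm_mul]
        have e1' := hSn e1 he1.le j 2
        refine le_trans ?_ ((le_max_right _ _).trans (le_max_right _ _))
        have q := mul_le_of_le_one_right (norm_nonneg (φ1 u)) e1'
        linarith only [q]
    · have d := hd u hu.le j
      rw [hTj u j hj, sub_zero] at d
      linarith
  rw [hSu] at hfin
  linarith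

end Pool.Agent.W703.OC
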