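import Pool.Agent.W703.BPBb

set_option autoImplicit false

open Set Filter Topology
open scoped ENNReal InnerProductSpace

namespace Pool.Agent.W703.OC

variable (𝕜 : Type*) [RCLike 𝕜]

/-- the Euclidean plane over `𝕜` -/
abbrev E2 : Type _ := EuclideanSpace 𝕜 (Fin 2)

/-- the `ℓ_1`-sum of two Euclidean planes -/
abbrev WW : Type _ := WithLp 1 (E2 𝕜 × E2 𝕜)

variable {𝕜} {X : Type*} [NormedAddCommGroup X] [NormedSpace 𝕜 X]

lemma norm_WW (p : WW 𝕜) : ‖p‖ = ‖p.fst‖ + ‖p.snd‖ := WithLp.prod_norm_eq_of_L1 p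

/-- the first component -/
noncomputable def pr1 (J : X →ₗᵢ[𝕜] WW 𝕜) : X →L[𝕜] E2 𝕜 :=
  LinearMap.mkContinuous
    { toFun := fun x => (J x).fst
      map_add' := fun x y => by rw [map_add]; rfl
      map_smul' := fun c x => by rw [map_smul]; rfl } 1 (fun x => by
        rw [one_mul, ← J.norm_map x, norm_WW]
        exact le_add_of_nonneg_right (norm_nonneg _))

/-- the second component -/
noncomputable def pr2 (J : X →ₗᵢ[𝕜] WW 𝕜) : X →L[𝕜] E2 𝕜 :=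
  LinearMap.mkContinuous
    { toFun := fun x => (J x).snd
      map_add' := fun x y => by rw [map_add]; rfl
      map_smul' := fun c x => by rw [map_smul]; rfl } 1 (fun x => by
        rw [one_mul, ← J.norm_map x, norm_WW]
        exact le_add_of_nonneg_left (norm_nonneg _))

lemma norm_pr (J : X →ₗᵢ[𝕜] WW 𝕜) (x : X) : ‖x‖ = ‖pr1 J x‖ + ‖pr2 J x‖ := by
  rw [← J.norm_map x, norm_WW]; rfl

lemma ext_pr (J : X →ₗᵢ[𝕜] WW 𝕜) {x y : X} (h1 : pr1 J x = pr1 J y) (h2 : pr2 J x = pr2 J y) :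
    x = y := by
  rw [← sub_eq_zero, ← norm_eq_zero, norm_pr J, map_sub, map_sub, h1, h2, sub_self, sub_self,
    norm_zero, add_zero]

/-- functionals -/
noncomputable def FF (J : X →ₗᵢ[𝕜] WW 𝕜) (a b : E2 𝕜) : X →L[𝕜] 𝕜 :=
  (innerSL 𝕜 a).comp (pr1 J) + (innerSL 𝕜 b).comp (pr2 J)

lemma FF_apply (J : X →ₗᵢ[𝕜] WW 𝕜) (a b : E2 𝕜) (x : X) :
    FF J a b x = ⟪a, pr1 J x⟫_𝕜 + ⟪b, pr2 J x⟫_𝕜 := rfl

lemma norm_FF_le (J : X →ₗᵢ[𝕜] WW 𝕜) {a b : E2 𝕜} {c : ℝ} (hc : 0 ≤ c) (ha : ‖a‖ ≤ c)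
    (hb : ‖b‖ ≤ c) : ‖FF J a b‖ ≤ c := by
  refine ContinuousLinearMap.opNorm_le_bound _ hc fun x => ?_
  rw [FF_apply, norm_pr J x, mul_add]
  refine (norm_add_le _ _).trans (add_le_add ?_ ?_)
  · exact (norm_inner_le_norm _ _).trans (mul_le_mul_of_nonneg_right ha (norm_nonneg _))
  · exact (norm_inner_le_norm _ _).trans (mul_le_mul_of_nonneg_right hb (norm_nonneg _))

lemma FF_sub (J : X →ₗᵢ[𝕜] WW 𝕜) (a b a' b' : E2 𝕜) :
    FF J a b - FF J a' b' = FF J (a - a') (b - b') := by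
  ext x
  rw [sub_apply, FF_apply, FF_apply, FF_apply, inner_sub_left, inner_sub_left]
  ring

lemma l1_add (u v : E2 𝕜) : (WithLp.toLp 1 (u + v, (0 : E2 𝕜)) : WW 𝕜) =
    WithLp.toLp 1 (u, (0 : E2 𝕜)) + WithLp.toLp 1 (v, (0 : E2 𝕜)) := by
  have h := WithLp.toLp_add 1 (u, (0 : E2 𝕜)) (v, (0 : E2 𝕜))
  rw [Prod.mk_add_mk, add_zero] at h
  exact h

lemma l1_smul (c : 𝕜) (u : E2 𝕜) : (WithLp.toLp 1 (c • u, (0 : E2 𝕜)) : WW 𝕜) =
    c • WithLp.toLp 1 (u, (0 : E2 𝕜)) := by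
  have h := WithLp.toLp_smul 1 c (u, (0 : E2 𝕜))
  rw [Prod.smul_mk, smul_zero] at h
  exact h

lemma l2_add (u v : E2 𝕜) : (WithLp.toLp 1 ((0 : E2 𝕜), u + v) : WW 𝕜) =
    WithLp.toLp 1 ((0 : E2 𝕜), u) + WithLp.toLp 1 ((0 : E2 𝕜), v) := by
  have h := WithLp.toLp_add 1 ((0 : E2 𝕜), u) ((0 : E2 𝕜), v)
  rw [Prod.mk_add_mk, add_zero] at h
  exact h

lemma l2_smul (c : 𝕜) (u : E2 𝕜) : (WithLp.toLp 1 ((0 : E2 𝕜), c • u) : WW 𝕜) =
    c • WithLp.toLp 1 ((0 : E2 𝕜), u) := by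
  have h := WithLp.toLp_smul 1 c ((0 : E2 𝕜), u)
  rw [Prod.smul_mk, smul_zero] at h
  exact h

/-- every functional is of this form -/
lemma exists_FF (J : X →ₗᵢ[𝕜] WW 𝕜) (g : X →L[𝕜] 𝕜) (hg : ‖g‖ ≤ 1) :
    ∃ a b : E2 𝕜, ‖a‖ ≤ 1 ∧ ‖b‖ ≤ 1 ∧ g = FF J a b := by
  obtain ⟨G, hG1, hG2⟩ := exists_extension_norm_eq (LinearMap.range J.toLinearMap)
    (g.comp (J.equivRange.symm.toContinuousLinearEquiv :
      LinearMap.range J.toLinearMap →L[𝕜] X))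
  have hGJ : ∀ x, G (J x) = g x := by
    intro x
    have h1 := hG1 (J.equivRange x)
    have h2 : ((J.equivRange x : LinearMap.range J.toLinearMap) : WW 𝕜) = J x := rfl
    rw [h2] at h1
    rw [h1]
    change g (J.equivRange.symm (J.equivRange x)) = g x
    rw [LinearIsometryEquiv.symm_apply_apply]
  have hGn : ‖G‖ ≤ 1 := by
    rw [hG2]
    refine ContinuousLinearMap.opNorm_le_bound _ zero_le_one fun y => ?_
    change ‖g (J.equivRange.symm y)‖ ≤ _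
    have h1 := g.le_opNorm (J.equivRange.symm y)
    rw [LinearIsometryEquiv.norm_map] at h1
    nlinarith [norm_nonneg y]
  let G1 : E2 𝕜 →L[𝕜] 𝕜 := LinearMap.mkContinuous
    { toFun := fun u => G (WithLp.toLp 1 (u, (0 : E2 𝕜)))
      map_add' := fun u v => (congrArg G (l1_add u v)).trans (map_add G _ _)
      map_smul' := fun c u => (congrArg G (l1_smul c u)).trans (map_smul G _ _) } 1 (fun u => by
        have h1 := G.le_opNorm (WithLp.toLp 1 (u, (0 : E2 𝕜)))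
        have h2 : ‖(WithLp.toLp 1 (u, (0 : E2 𝕜)) : WW 𝕜)‖ = ‖u‖ := by
          rw [norm_WW]; simp
        rw [h2] at h1
        refine h1.trans (mul_le_mul_of_nonneg_right hGn (norm_nonneg _)))
  let G2 : E2 𝕜 →L[𝕜] 𝕜 := LinearMap.mkContinuous
    { toFun := fun u => G (WithLp.toLp 1 ((0 : E2 𝕜), u))
      map_add' := fun u v => (congrArg G (l2_add u v)).trans (map_add G _ _)
      map_smul' := fun c u => (congrArg G (l2_smul c u)).trans (map_smul G _ _) } 1 (fun u => by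
        have h1 := G.le_opNorm (WithLp.toLp 1 ((0 : E2 𝕜), u))
        have h2 : ‖(WithLp.toLp 1 ((0 : E2 𝕜), u) : WW 𝕜)‖ = ‖u‖ := by
          rw [norm_WW]; simp
        rw [h2] at h1
        refine h1.trans (mul_le_mul_of_nonneg_right hGn (norm_nonneg _)))
  have hG1n : ‖G1‖ ≤ 1 := LinearMap.mkContinuous_norm_le _ zero_le_one _
  have hG2n : ‖G2‖ ≤ 1 := LinearMap.mkContinuous_norm_le _ zero_le_one _
  refine ⟨(InnerProductSpace.toDual 𝕜 (E2 𝕜)).symm G1, (InnerProductSpace.toDual 𝕜 (E2 𝕜)).symm G2,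
    by rwa [LinearIsometryEquiv.norm_map], by rwa [LinearIsometryEquiv.norm_map], ?_⟩
  ext x
  rw [FF_apply, InnerProductSpace.toDual_symm_apply, InnerProductSpace.toDual_symm_apply, ← hGJ x]
  change G (J x) = G (WithLp.toLp 1 ((J x).fst, (0 : E2 𝕜))) +
    G (WithLp.toLp 1 ((0 : E2 𝕜), (J x).snd))
  rw [← map_add]
  congr 1
  have h := WithLp.toLp_add 1 ((J x).fst, (0 : E2 𝕜)) ((0 : E2 𝕜), (J x).snd)
  rw [Prod.mk_add_mk, add_zero, zero_add] at h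
  exact h

/-- equality in Cauchy-Schwarz -/
lemma cs_eq {a u : E2 𝕜} (ha : ‖a‖ ≤ 1) (h : RCLike.re ⟪a, u⟫_𝕜 = ‖u‖) :
    u = ((‖u‖ : ℝ) : 𝕜) • a := by
  have h1 : ‖u - ((‖u‖ : ℝ) : 𝕜) • a‖ ^ 2 = 0 := by
    have h2 := @norm_sub_sq 𝕜 _ _ _ _ u (((‖u‖ : ℝ) : 𝕜) • a)
    rw [inner_smul_right, RCLike.re_ofReal_mul, ← inner_conj_symm, RCLike.conj_re, h, norm_smul,
      norm_algebraMap', norm_norm] at h2
    have h3 : (‖u‖ * ‖a‖) ^ 2 ≤ ‖u‖ ^ 2 := by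
      have : ‖u‖ * ‖a‖ ≤ ‖u‖ := mul_le_of_le_one_right (norm_nonneg _) ha
      exact pow_le_pow_left₀ (by positivity) this 2
    have h4 := sq_nonneg ‖u - ((‖u‖ : ℝ) : 𝕜) • a‖
    nlinarith
  rw [sq_eq_zero_iff, norm_eq_zero, sub_eq_zero] at h1
  exact h1

/-- structure of the points where a functional attains its norm -/
lemma attain_eq (J : X →ₗᵢ[𝕜] WW 𝕜) {a b : E2 𝕜} (ha : ‖a‖ ≤ 1) (hb : ‖b‖ ≤ 1) {y : X}
    (hy : ‖y‖ = 1) (h : FF J a b y = 1) :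
    pr1 J y = ((‖pr1 J y‖ : ℝ) : 𝕜) • a ∧ pr2 J y = ((‖pr2 J y‖ : ℝ) : 𝕜) • b := by
  rw [FF_apply] at h
  have h1 : RCLike.re ⟪a, pr1 J y⟫_𝕜 + RCLike.re ⟪b, pr2 J y⟫_𝕜 = 1 := by
    rw [← map_add, h, RCLike.one_re]
  have h2 : RCLike.re ⟪a, pr1 J y⟫_𝕜 ≤ ‖pr1 J y‖ :=
    (re_inner_le_norm _ _).trans (mul_le_of_le_one_left (norm_nonneg _) ha)
  have h3 : RCLike.re ⟪b, pr2 J y⟫_𝕜 ≤ ‖pr2 J y‖ :=
    (re_inner_le_norm _ _).trans (mul_le_of_le_one_left (norm_nonneg _) hb)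
  rw [norm_pr J y] at hy
  exact ⟨cs_eq ha (by linarith), cs_eq hb (by linarith)⟩

/-- the hypotheses on the three-dimensional space -/
structure IsXB (J : X →ₗᵢ[𝕜] WW 𝕜) (e : X) : Prop where
  eq : ∀ x, pr1 J x 1 = pr2 J x 1
  e1 : pr1 J e = EuclideanSpace.single 1 1
  e2 : pr2 J e = EuclideanSpace.single 1 1

lemma lam_mul {c : E2 𝕜} {u : E2 𝕜} (hu : u = ((‖u‖ : ℝ) : 𝕜) • c) : ‖u‖ = ‖u‖ * ‖c‖ := by
  conv_lhs => rw [hu]
  rw [norm_smul, norm_algebraMap', norm_norm]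

/-- uniqueness criterion -/
lemma unique_of (J : X →ₗᵢ[𝕜] WW 𝕜) {e : X} (hJ : IsXB J e) {a b : E2 𝕜} (ha : ‖a‖ ≤ 1)
    (hb : ‖b‖ ≤ 1) (hab : ‖a‖ < 1 ∨ ‖b‖ < 1 ∨ a 1 + b 1 ≠ 0) {x y : X} (hx : ‖x‖ = 1)
    (hy : ‖y‖ = 1) (hx1 : FF J a b x = 1) (hy1 : FF J a b y = 1) : y = x := by
  obtain ⟨x1, x2⟩ := attain_eq J ha hb hx hx1
  obtain ⟨y1, y2⟩ := attain_eq J ha hb hy hy1
  have nx := norm_pr J x
  have ny := norm_pr J y
  rw [hx] at nx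
  rw [hy] at ny
  have key : ‖pr1 J y‖ = ‖pr1 J x‖ := by
    rcases hab with h | h | h
    · have e1 := lam_mul x1
      have e2 := lam_mul y1
      have e3 : ‖pr1 J x‖ = 0 := by nlinarith [norm_nonneg (pr1 J x)]
      have e4 : ‖pr1 J y‖ = 0 := by nlinarith [norm_nonneg (pr1 J y)]
      rw [e3, e4]
    · have e1 := lam_mul x2
      have e2 := lam_mul y2
      have e3 : ‖pr2 J x‖ = 0 := by nlinarith [norm_nonneg (pr2 J x)]
      have e4 : ‖pr2 J y‖ = 0 := by nlinarith [norm_nonneg (pr2 J y)]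
      linarith
    · have gen : ∀ z : X, 1 = ‖pr1 J z‖ + ‖pr2 J z‖ → pr1 J z = ((‖pr1 J z‖ : ℝ) : 𝕜) • a →
          pr2 J z = ((‖pr2 J z‖ : ℝ) : 𝕜) • b → ((‖pr1 J z‖ : ℝ) : 𝕜) = b 1 / (a 1 + b 1) := by
        intro z hz z1 z2
        have h1 := hJ.eq z
        rw [z1, z2] at h1
        have h2 : ((‖pr1 J z‖ : ℝ) : 𝕜) * a 1 = ((‖pr2 J z‖ : ℝ) : 𝕜) * b 1 := by
          have h3 : ∀ c : 𝕜, ∀ w : E2 𝕜, (c • w) 1 = c * w 1 := fun _ _ => rfl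
          rw [h3, h3] at h1
          simpa [norm_smul] using h1
        have h3 : ((‖pr2 J z‖ : ℝ) : 𝕜) = 1 - ((‖pr1 J z‖ : ℝ) : 𝕜) := by
          have : ‖pr2 J z‖ = 1 - ‖pr1 J z‖ := by linarith
          rw [this]; push_cast; ring
        rw [h3] at h2
        rw [eq_div_iff h]
        linear_combination h2
      have := (gen y ny y1 y2).trans (gen x nx x1 x2).symm
      exact_mod_cast this
  have key2 : ‖pr2 J y‖ = ‖pr2 J x‖ := by linarith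
  apply ext_pr J
  · rw [y1, x1, key]
  · rw [y2, x2, key2]

end Pool.Agent.W703.OC
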