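import Pool.Agent.W703.BPBe

set_option autoImplicit false

open Set Filter Topology
open scoped ENNReal InnerProductSpace

namespace Pool.Agent.W703.OC

variable {𝕜 : Type*} [RCLike 𝕜] {X : Type*} [NormedAddCommGroup X] [NormedSpace 𝕜 X]

lemma inner_unit (u : E2 𝕜) : ⟪((‖u‖⁻¹ : ℝ) : 𝕜) • u, u⟫_𝕜 = ((‖u‖ : ℝ) : 𝕜) := by
  rw [inner_smul_left, inner_self_eq_norm_sq_to_K, RCLike.conj_ofReal]
  by_cases h : ‖u‖ = 0
  · rw [h]; simp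
  · have : ((‖u‖ : ℝ) : 𝕜) ≠ 0 := by exact_mod_cast h
    push_cast
    field_simp

lemma norm_unit_le {V : Type*} [NormedAddCommGroup V] [NormedSpace 𝕜 V] (u : V) :
    ‖((‖u‖⁻¹ : ℝ) : 𝕜) • u‖ ≤ 1 := by
  rw [norm_smul, norm_algebraMap', norm_inv, norm_norm]
  exact inv_mul_le_one

lemma norm_unit {V : Type*} [NormedAddCommGroup V] [NormedSpace 𝕜 V] {u : V} (hu : u ≠ 0) :
    ‖((‖u‖⁻¹ : ℝ) : 𝕜) • u‖ = 1 := by
  rw [norm_smul, norm_algebraMap', norm_inv, norm_norm]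
  exact inv_mul_cancel₀ (norm_ne_zero_iff.2 hu)

lemma tendsto_unit {V : Type*} [NormedAddCommGroup V] [NormedSpace 𝕜 V] {u : V} (hu : u ≠ 0)
    {l : Filter ℝ} {w : ℝ → V} (hw : Tendsto w l (𝓝 u)) :
    Tendsto (fun τ => ((‖w τ‖⁻¹ : ℝ) : 𝕜) • w τ) l (𝓝 (((‖u‖⁻¹ : ℝ) : 𝕜) • u)) := by
  refine Tendsto.smul ?_ hw
  exact ((RCLike.continuous_ofReal (K := 𝕜)).tendsto _).comp
    (hw.norm.inv₀ (norm_ne_zero_iff.2 hu))

lemma core (J : X →ₗᵢ[𝕜] WW 𝕜) {e : X} (hJ : IsXB J e) {a b : E2 𝕜} (ha : ‖a‖ ≤ 1)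
    (hb : ‖b‖ ≤ 1) {x : X} (hx : ‖x‖ = 1) (h : FF J a b x = 1) {ε : ℝ} (hε : 0 < ε) :
    ∃ (a' b' : E2 𝕜) (x' : X), ‖a'‖ ≤ 1 ∧ ‖b'‖ ≤ 1 ∧ ‖x'‖ = 1 ∧ FF J a' b' x' = 1 ∧
      ‖a' - a‖ < ε ∧ ‖b' - b‖ < ε ∧ ‖x' - x‖ < ε ∧ (‖a'‖ < 1 ∨ ‖b'‖ < 1 ∨ a' 1 + b' 1 ≠ 0) := by
  by_cases hab : a 1 + b 1 ≠ 0
  · exact ⟨a, b, x, ha, hb, hx, h, by simpa using hε, by simpa using hε, by simpa using hε,
      Or.inr (Or.inr hab)⟩
  push Not at hab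
  have shrink : ∀ c : E2 𝕜, ‖c‖ ≤ 1 → ∃ c' : E2 𝕜, ‖c'‖ < 1 ∧ ‖c' - c‖ < ε := by
    intro c hc
    have hκ : 0 < min (ε / 2) 1 := lt_min (by positivity) one_pos
    refine ⟨((1 - min (ε / 2) 1 : ℝ) : 𝕜) • c, ?_, ?_⟩
    · rw [norm_smul, norm_algebraMap', Real.norm_of_nonneg (by linarith [min_le_right (ε / 2) 1])]
      have h1 : 0 ≤ 1 - min (ε / 2) 1 := by linarith [min_le_right (ε / 2) 1]
      nlinarith
    · have h1 : ((1 - min (ε / 2) 1 : ℝ) : 𝕜) • c - c = -(((min (ε / 2) 1 : ℝ) : 𝕜) • c) := by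
        rw [RCLike.ofReal_sub, sub_smul, RCLike.ofReal_one, one_smul]; abel
      rw [h1, norm_neg, norm_smul, norm_algebraMap', Real.norm_of_nonneg hκ.le]
      have h2 := min_le_left (ε / 2) 1
      nlinarith
  obtain ⟨x1, x2⟩ := attain_eq J ha hb hx h
  have nx := norm_pr J x
  rw [hx] at nx
  by_cases hμ : pr2 J x = 0
  · obtain ⟨b', hb1, hb2⟩ := shrink b hb
    refine ⟨a, b', x, ha, hb1.le, hx, ?_, by simpa using hε, hb2, by simpa using hε,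
      Or.inr (Or.inl hb1)⟩
    rw [FF_apply, hμ, inner_zero_right] at h ⊢
    exact h
  by_cases hl : pr1 J x = 0
  · obtain ⟨a', ha1, ha2⟩ := shrink a ha
    refine ⟨a', b, x, ha1.le, hb, hx, ?_, ha2, by simpa using hε, by simpa using hε,
      Or.inl ha1⟩
    rw [FF_apply, hl, inner_zero_right] at h ⊢
    exact h
  -- the smooth points of the flat faces
  have hsm : ∀ (c : 𝕜) (w : E2 𝕜), (c • w) 1 = c * w 1 := fun _ _ => rfl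
  have hz : pr1 J x 1 = 0 := by
    have h1 := hJ.eq x
    have h2 : pr1 J x 1 = ((‖pr1 J x‖ : ℝ) : 𝕜) * a 1 := by
      conv_lhs => rw [x1]
      exact hsm _ _
    have h3 : pr2 J x 1 = ((‖pr2 J x‖ : ℝ) : 𝕜) * b 1 := by
      conv_lhs => rw [x2]
      exact hsm _ _
    have h4 : ((‖pr1 J x‖ : ℝ) : 𝕜) + ((‖pr2 J x‖ : ℝ) : 𝕜) = 1 := by
      exact_mod_cast congrArg (fun r : ℝ => (r : 𝕜)) nx.symm
    have h5 : a 1 = 0 := by
      have h6 : b 1 = - a 1 := by linear_combination hab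
      rw [h2, h3, h6] at h1
      linear_combination h1 - a 1 * h4
    rw [h2, h5, mul_zero]
  have hz2 : pr2 J x 1 = 0 := by rw [← hJ.eq x, hz]
  let xt : ℝ → X := fun τ => x + ((τ : ℝ) : 𝕜) • e
  have hxt : Tendsto xt (𝓝 0) (𝓝 x) := by
    have h1 : Tendsto (fun τ : ℝ => x + ((τ : ℝ) : 𝕜) • e) (𝓝 0) (𝓝 (x + (((0 : ℝ)) : 𝕜) • e)) := by
      refine tendsto_const_nhds.add (Tendsto.smul_const ?_ e)
      exact (RCLike.continuous_ofReal (K := 𝕜)).tendsto 0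
    rwa [RCLike.ofReal_zero, zero_smul, add_zero] at h1
  have hxt' : Tendsto xt (𝓝[≠] 0) (𝓝 x) := hxt.mono_left nhdsWithin_le_nhds
  have hu : Tendsto (fun τ => pr1 J (xt τ)) (𝓝[≠] 0) (𝓝 (pr1 J x)) :=
    ((pr1 J).continuous.tendsto x).comp hxt'
  have hv : Tendsto (fun τ => pr2 J (xt τ)) (𝓝[≠] 0) (𝓝 (pr2 J x)) :=
    ((pr2 J).continuous.tendsto x).comp hxt'
  have hx0 : x ≠ 0 := by intro h0; rw [h0, norm_zero] at hx; exact zero_ne_one hx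
  have ta := tendsto_unit (𝕜 := 𝕜) hl hu
  have tb := tendsto_unit (𝕜 := 𝕜) hμ hv
  have tx := tendsto_unit (𝕜 := 𝕜) hx0 hxt'
  have ea : ((‖pr1 J x‖⁻¹ : ℝ) : 𝕜) • pr1 J x = a := by
    have h1 : ((‖pr1 J x‖ : ℝ) : 𝕜) ≠ 0 := by
      exact_mod_cast norm_ne_zero_iff.2 hl
    conv_lhs => rw [x1]
    rw [smul_smul, ← x1, RCLike.ofReal_inv, inv_mul_cancel₀ h1, one_smul]
  have eb : ((‖pr2 J x‖⁻¹ : ℝ) : 𝕜) • pr2 J x = b := by
    have h1 : ((‖pr2 J x‖ : ℝ) : 𝕜) ≠ 0 := by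
      exact_mod_cast norm_ne_zero_iff.2 hμ
    conv_lhs => rw [x2]
    rw [smul_smul, ← x2, RCLike.ofReal_inv, inv_mul_cancel₀ h1, one_smul]
  have ex : ((‖x‖⁻¹ : ℝ) : 𝕜) • x = x := by
    rw [hx, inv_one, RCLike.ofReal_one, one_smul]
  rw [ea] at ta
  rw [eb] at tb
  rw [ex] at tx
  have e1 := Metric.tendsto_nhds.1 ta ε hε
  have e2 := Metric.tendsto_nhds.1 tb ε hε
  have e3 := Metric.tendsto_nhds.1 tx ε hε
  have e4 : ∀ᶠ τ : ℝ in 𝓝[≠] 0, τ ≠ 0 := eventually_mem_nhdsWithin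
  obtain ⟨τ, h1, h2, h3, h4⟩ := (e1.and (e2.and (e3.and e4))).exists
  rw [dist_eq_norm] at h1 h2 h3
  have c1 : pr1 J (xt τ) 1 = (τ : 𝕜) := by
    have : pr1 J (xt τ) = pr1 J x + (τ : 𝕜) • (EuclideanSpace.single 1 1 : E2 𝕜) := by
      change pr1 J (x + (τ : 𝕜) • e) = _
      rw [map_add, map_smul, hJ.e1]
    rw [this]
    change pr1 J x 1 + (τ : 𝕜) * (EuclideanSpace.single 1 1 : E2 𝕜) 1 = _
    rw [hz, PiLp.single_apply, if_pos rfl, mul_one, zero_add]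
  have c2 : pr2 J (xt τ) 1 = (τ : 𝕜) := by rw [← hJ.eq, c1]
  have hτ : (τ : 𝕜) ≠ 0 := by exact_mod_cast h4
  have n1 : pr1 J (xt τ) ≠ 0 := by
    intro h0; rw [h0] at c1; exact hτ c1.symm
  have n2 : pr2 J (xt τ) ≠ 0 := by
    intro h0; rw [h0] at c2; exact hτ c2.symm
  have n3 : xt τ ≠ 0 := by
    intro h0; rw [h0, map_zero] at n1; exact n1 rfl
  refine ⟨_, _, _, norm_unit_le _, norm_unit_le _, norm_unit n3, ?_, h1, h2, h3,
    Or.inr (Or.inr ?_)⟩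
  · rw [FF_apply, map_smul, map_smul, inner_smul_right, inner_smul_right, inner_unit, inner_unit,
      ← mul_add, ← RCLike.ofReal_add, ← norm_pr J, ← RCLike.ofReal_mul,
      inv_mul_cancel₀ (norm_ne_zero_iff.2 n3), RCLike.ofReal_one]
  · rw [hsm, hsm, c1, c2, ← add_mul, ← RCLike.ofReal_add]
    refine mul_ne_zero ?_ hτ
    have : 0 < ‖pr1 J (xt τ)‖⁻¹ + ‖pr2 J (xt τ)‖⁻¹ := by positivity
    exact_mod_cast this.ne'

theorem exps_of_isXB (J : X →ₗᵢ[𝕜] WW 𝕜) {e : X} (hJ : IsXB J e) : Exps 𝕜 X := by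
  intro g x hg hx hgx ε hε
  obtain ⟨a, b, ha, hb, rfl⟩ := exists_FF J g hg
  set ζ := FF J a b x with hζ
  have hζ0 : ζ ≠ 0 := by intro h0; rw [h0, norm_zero] at hgx; exact zero_ne_one hgx
  have hx0 : ‖ζ⁻¹ • x‖ = 1 := by rw [norm_smul, norm_inv, hgx, hx, inv_one, one_mul]
  have hgx0 : FF J a b (ζ⁻¹ • x) = 1 := by
    rw [map_smul, smul_eq_mul, ← hζ, inv_mul_cancel₀ hζ0]
  obtain ⟨a', b', x', ha', hb', hx', hF', haa, hbb, hxx, hcase⟩ := core J hJ ha hb hx0 hgx0 hε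
  refine ⟨FF J a' b', ζ • x', norm_FF_le J zero_le_one ha' hb', ?_, ?_, ?_, ?_, ?_⟩
  · rw [norm_smul, hgx, hx', one_mul]
  · rw [map_smul, hF', smul_eq_mul, mul_one, hgx]
  · rw [FF_sub]
    refine lt_of_le_of_lt (norm_FF_le J (c := max ‖a' - a‖ ‖b' - b‖)
      ((norm_nonneg _).trans (le_max_left _ _)) (le_max_left _ _) (le_max_right _ _))
      (max_lt haa hbb)
  · have h1 : ζ • x' - x = ζ • (x' - ζ⁻¹ • x) := by
      rw [smul_sub, smul_smul, mul_inv_cancel₀ hζ0, one_smul]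
    rw [h1, norm_smul, hgx, one_mul]
    exact hxx
  · intro u hu hFu
    set c := FF J a' b' u with hc
    have hc0 : c ≠ 0 := by intro h0; rw [h0, norm_zero] at hFu; exact zero_ne_one hFu
    have h1 : ‖c⁻¹ • u‖ = 1 := by rw [norm_smul, norm_inv, hFu, hu, inv_one, one_mul]
    have h2 : FF J a' b' (c⁻¹ • u) = 1 := by
      rw [map_smul, smul_eq_mul, ← hc, inv_mul_cancel₀ hc0]
    have h3 := unique_of J hJ ha' hb' hcase hx' h1 hF' h2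
    refine ⟨c * ζ⁻¹, by rw [norm_mul, norm_inv, hFu, hgx, inv_one, one_mul], ?_⟩
    rw [smul_smul, mul_assoc, inv_mul_cancel₀ hζ0, mul_one, ← h3, smul_smul,
      mul_inv_cancel₀ hc0, one_smul]

end Pool.Agent.W703.OC
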