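import Pool.Agent.W703.BPBd
import Pool.Agent.W703.BPBf

set_option autoImplicit false

open Set Filter Topology
open scoped ENNReal InnerProductSpace

namespace Pool.Agent.W703.OC

variable (𝕜 : Type*) [RCLike 𝕜]

/-- pairs of vectors of the Euclidean plane with equal last coordinates, with the sum of the two
Euclidean norms -/
def XB : Submodule 𝕜 (WW 𝕜) where
  carrier := {p | p.fst 1 = p.snd 1}
  add_mem' := by
    intro a b ha hb
    change a.fst 1 + b.fst 1 = a.snd 1 + b.snd 1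
    rw [(show a.fst 1 = a.snd 1 from ha), (show b.fst 1 = b.snd 1 from hb)]
  zero_mem' := rfl
  smul_mem' := by
    intro c a ha
    change c * a.fst 1 = c * a.snd 1
    rw [(show a.fst 1 = a.snd 1 from ha)]

/-- the three-dimensional space -/
def XT : Type _ := XB 𝕜

noncomputable instance : NormedAddCommGroup (XT 𝕜) := inferInstanceAs (NormedAddCommGroup (XB 𝕜))

noncomputable instance : NormedSpace 𝕜 (XT 𝕜) := inferInstanceAs (NormedSpace 𝕜 (XB 𝕜))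

instance : FiniteDimensional 𝕜 (XT 𝕜) := inferInstanceAs (FiniteDimensional 𝕜 (XB 𝕜))

/-- the inclusion -/
noncomputable def JJ : XT 𝕜 →ₗᵢ[𝕜] WW 𝕜 := (XB 𝕜).subtypeₗᵢ

variable {𝕜}

/-- constructor -/
def mkX (u v : E2 𝕜) (h : u 1 = v 1) : XT 𝕜 := ⟨WithLp.toLp 1 (u, v), h⟩

lemma pr1_mkX (u v : E2 𝕜) (h : u 1 = v 1) : pr1 (JJ 𝕜) (mkX u v h) = u := rfl
lemma pr2_mkX (u v : E2 𝕜) (h : u 1 = v 1) : pr2 (JJ 𝕜) (mkX u v h) = v := rfl

lemma isXB_XT : IsXB (JJ 𝕜) (mkX (EuclideanSpace.single 1 1) (EuclideanSpace.single 1 1) rfl) where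
  eq x := x.2
  e1 := rfl
  e2 := rfl

theorem exps_XT : Exps 𝕜 (XT 𝕜) := exps_of_isXB _ isXB_XT

variable (𝕜)

/-- the last coordinate -/
noncomputable def last : XT 𝕜 →L[𝕜] 𝕜 := (EuclideanSpace.proj (1 : Fin 2)).comp (pr1 (JJ 𝕜))

/-- the subspace of the vectors with last coordinate zero -/
noncomputable def X1 : Submodule 𝕜 (XT 𝕜) := (last 𝕜).ker

variable {𝕜}

lemma mem_X1 {x : XT 𝕜} : x ∈ X1 𝕜 ↔ pr1 (JJ 𝕜) x 1 = 0 := Iff.rfl

/-- coordinate projection of the Euclidean plane -/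
noncomputable def qq (u : E2 𝕜) : E2 𝕜 := EuclideanSpace.single 0 (u 0)

lemma qq_zero (u : E2 𝕜) : qq u 0 = u 0 := by
  unfold qq; rw [PiLp.single_apply, if_pos rfl]

lemma qq_one (u : E2 𝕜) : qq u 1 = 0 := by
  unfold qq; rw [PiLp.single_apply, if_neg (by decide)]

omit [RCLike 𝕜] in
lemma ext2 {u v : E2 𝕜} (h0 : u 0 = v 0) (h1 : u 1 = v 1) : u = v := by
  ext i
  fin_cases i
  · exact h0
  · exact h1

lemma qq_add (u v : E2 𝕜) : qq (u + v) = qq u + qq v := by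
  apply ext2
  · change qq (u + v) 0 = qq u 0 + qq v 0
    rw [qq_zero, qq_zero, qq_zero]; rfl
  · change qq (u + v) 1 = qq u 1 + qq v 1
    rw [qq_one, qq_one, qq_one, add_zero]

lemma qq_smul (c : 𝕜) (u : E2 𝕜) : qq (c • u) = c • qq u := by
  apply ext2
  · change qq (c • u) 0 = c * qq u 0
    rw [qq_zero, qq_zero]; rfl
  · change qq (c • u) 1 = c * qq u 1
    rw [qq_one, qq_one, mul_zero]

lemma norm_qq (u : E2 𝕜) : ‖qq u‖ = ‖u 0‖ := by
  unfold qq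
  rw [PiLp.norm_single]

lemma norm_qq_le (u : E2 𝕜) : ‖qq u‖ ≤ ‖u‖ := by
  rw [norm_qq]; exact PiLp.norm_apply_le u 0

lemma qq_eq {u : E2 𝕜} (h : u 1 = 0) : qq u = u := by
  apply ext2
  · rw [qq_zero]
  · rw [qq_one, h]

lemma ext_XT {x y : XT 𝕜} (h1 : pr1 (JJ 𝕜) x = pr1 (JJ 𝕜) y) (h2 : pr2 (JJ 𝕜) x = pr2 (JJ 𝕜) y) :
    x = y := ext_pr (JJ 𝕜) h1 h2

/-- the projection as a function -/
noncomputable def pfun (x : XT 𝕜) : XT 𝕜 :=
  mkX (qq (pr1 (JJ 𝕜) x)) (qq (pr2 (JJ 𝕜) x)) (by rw [qq_one, qq_one])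

lemma pr1_pfun (x : XT 𝕜) : pr1 (JJ 𝕜) (pfun x) = qq (pr1 (JJ 𝕜) x) := rfl
lemma pr2_pfun (x : XT 𝕜) : pr2 (JJ 𝕜) (pfun x) = qq (pr2 (JJ 𝕜) x) := rfl

/-- the projection -/
noncomputable def PP : XT 𝕜 →L[𝕜] XT 𝕜 :=
  LinearMap.mkContinuous
    { toFun := pfun
      map_add' := fun x y => by
        apply ext_XT
        · rw [pr1_pfun, map_add, map_add, qq_add]; rfl
        · rw [pr2_pfun, map_add, map_add, qq_add]; rfl
      map_smul' := fun c x => by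
        apply ext_XT
        · rw [pr1_pfun, map_smul, RingHom.id_apply, map_smul, qq_smul]; rfl
        · rw [pr2_pfun, map_smul, RingHom.id_apply, map_smul, qq_smul]; rfl } 1 (fun x => by
        rw [one_mul, norm_pr (JJ 𝕜) x]
        change ‖pfun x‖ ≤ _
        rw [norm_pr (JJ 𝕜) (pfun x), pr1_pfun, pr2_pfun]
        exact add_le_add (norm_qq_le _) (norm_qq_le _))

lemma snd_zero {x : XT 𝕜} (hx : x ∈ X1 𝕜) : pr2 (JJ 𝕜) x 1 = 0 := by
  rw [← isXB_XT.eq x]; exact mem_X1.1 hx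

theorem oneComplemented_X1 : OneComplemented (X1 𝕜) := by
  refine ⟨PP, LinearMap.mkContinuous_norm_le _ zero_le_one _, fun x => mem_X1.2 (qq_one _),
    fun x hx => ?_⟩
  apply ext_XT
  · change qq (pr1 (JJ 𝕜) x) = _
    exact qq_eq (mem_X1.1 hx)
  · change qq (pr2 (JJ 𝕜) x) = _
    exact qq_eq (snd_zero hx)

lemma norm_X1 (x : X1 𝕜) : ‖x‖ = ‖pr1 (JJ 𝕜) (x : XT 𝕜) 0‖ + ‖pr2 (JJ 𝕜) (x : XT 𝕜) 0‖ := by
  change ‖(x : XT 𝕜)‖ = _
  rw [norm_pr (JJ 𝕜), ← norm_qq, ← norm_qq, qq_eq (mem_X1.1 x.2), qq_eq (snd_zero x.2)]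

/-- first coordinate -/
noncomputable def f1 : X1 𝕜 →L[𝕜] 𝕜 :=
  (EuclideanSpace.proj (0 : Fin 2)).comp ((pr1 (JJ 𝕜)).comp (X1 𝕜).subtypeL)

/-- second coordinate -/
noncomputable def f2 : X1 𝕜 →L[𝕜] 𝕜 :=
  (EuclideanSpace.proj (0 : Fin 2)).comp ((pr2 (JJ 𝕜)).comp (X1 𝕜).subtypeL)

lemma single_zero_one : (EuclideanSpace.single 0 1 : E2 𝕜) 1 = 0 := by
  rw [PiLp.single_apply, if_neg (by decide)]

lemma single_zero_zero : (EuclideanSpace.single 0 1 : E2 𝕜) 0 = 1 := by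
  rw [PiLp.single_apply, if_pos rfl]

/-- first basis vector -/
noncomputable def b1 : X1 𝕜 := ⟨mkX (EuclideanSpace.single 0 1) 0 single_zero_one, single_zero_one⟩

/-- second basis vector -/
noncomputable def b2 : X1 𝕜 := ⟨mkX 0 (EuclideanSpace.single 0 1) single_zero_one.symm, rfl⟩

lemma isL1_X1 : IsL1 (𝕜 := 𝕜) f1 f2 b1 b2 where
  norm_eq := norm_X1
  h11 := single_zero_zero
  h12 := rfl
  h21 := rfl
  h22 := single_zero_zero

end Pool.Agent.W703.OC
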