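import Pool.Agent.W703.OneComp

set_option autoImplicit false

open Set Filter Topology
open scoped ENNReal ZeroAtInfty

namespace Pool.Agent.W703.OC

section transfer

variable {𝕜 : Type*} [RCLike 𝕜] {Z : Type*} [NormedAddCommGroup Z] [NormedSpace 𝕜 Z]
  {X₁ : Type*} [NormedAddCommGroup X₁] [NormedSpace 𝕜 X₁]
  {Y : Type*} [NormedAddCommGroup Y] [NormedSpace 𝕜 Y]

/-- composition with an isometric isomorphism -/
noncomputable def pull (e : Z ≃ₗᵢ[𝕜] X₁) (S : X₁ →L[𝕜] Y) : Z →L[𝕜] Y :=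
  S.comp (e.toContinuousLinearEquiv : Z →L[𝕜] X₁)

lemma norm_pull (e : Z ≃ₗᵢ[𝕜] X₁) (S : X₁ →L[𝕜] Y) : ‖pull e S‖ = ‖S‖ := by
  apply le_antisymm
  · refine ContinuousLinearMap.opNorm_le_bound _ (norm_nonneg _) fun z => ?_
    change ‖S (e z)‖ ≤ _
    rw [← e.norm_map z]
    exact S.le_opNorm _
  · refine ContinuousLinearMap.opNorm_le_bound _ (norm_nonneg _) fun z => ?_
    obtain ⟨y, rfl⟩ := e.surjective z
    rw [e.norm_map y]
    exact (pull e S).le_opNorm y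

lemma pull_mem {e : Z ≃ₗᵢ[𝕜] X₁} {S : X₁ →L[𝕜] Y} (hS : S ∈ NA 𝕜 X₁ Y) : pull e S ∈ NA 𝕜 Z Y := by
  obtain ⟨x, hx1, hx2⟩ := hS
  obtain ⟨y, rfl⟩ := e.surjective x
  refine ⟨y, by rw [← e.norm_map y]; exact hx1, ?_⟩
  rw [norm_pull]
  exact hx2

/-- density of norm-attaining operators is invariant under isometric isomorphisms -/
lemma dense_pull (e : Z ≃ₗᵢ[𝕜] X₁) (h : Dense (NA 𝕜 X₁ Y)) : Dense (NA 𝕜 Z Y) := by
  rw [Metric.dense_iff] at h ⊢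
  intro T r hr
  obtain ⟨S, hS1, hS2⟩ := h (pull e.symm T) r hr
  refine ⟨pull e S, ?_, pull_mem hS2⟩
  rw [Metric.mem_ball, dist_eq_norm] at hS1 ⊢
  have h1 : pull e S - T = pull e (S - pull e.symm T) := by
    ext z
    change S (e z) - T z = S (e z) - T (e.symm (e z))
    rw [e.symm_apply_apply]
  rw [h1, norm_pull]
  exact hS1

lemma exists_near (T : Z →L[𝕜] Y) (h : Dense (NA 𝕜 Z Y)) :
    ∃ S : Z →L[𝕜] Y, ‖S - T‖ < 1 ∧ S ∈ NA 𝕜 Z Y := by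
  rw [Metric.dense_iff] at h
  obtain ⟨S, hS1, hS2⟩ := h T 1 one_pos
  rw [Metric.mem_ball, dist_eq_norm] at hS1
  exact ⟨S, hS1, hS2⟩

end transfer

section SC

variable {𝕜 : Type*} [RCLike 𝕜] {Z : Type*} [NormedAddCommGroup Z] [NormedSpace 𝕜 Z]
  {H : Type*} [NormedAddCommGroup H] [InnerProductSpace 𝕜 H]

/-- `Z` with the norm `(‖x‖² + ‖D x‖²)^(1/2)`, realised as the graph of `D` -/
def GG (D : Z →L[𝕜] H) : Submodule 𝕜 (WithLp 2 (Z × H)) where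
  carrier := {p | p.snd = D p.fst}
  add_mem' := by
    intro a b ha hb
    change (a + b).snd = D (a + b).fst
    rw [WithLp.add_fst, WithLp.add_snd, map_add, ← (show a.snd = D a.fst from ha),
      ← (show b.snd = D b.fst from hb)]
  zero_mem' := by
    change (0 : WithLp 2 (Z × H)).snd = D (0 : WithLp 2 (Z × H)).fst
    simp
  smul_mem' := by
    intro c a ha
    change (c • a).snd = D (c • a).fst
    rw [WithLp.smul_fst, WithLp.smul_snd, map_smul, ← (show a.snd = D a.fst from ha)]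

lemma isClosed_GG (D : Z →L[𝕜] H) : IsClosed (GG D : Set (WithLp 2 (Z × H))) := by
  change IsClosed {p : WithLp 2 (Z × H) | p.snd = D p.fst}
  refine isClosed_eq ?_ (D.continuous.comp ?_)
  · exact WithLp.continuous_snd ..
  · exact WithLp.continuous_fst ..

lemma norm_sq_GG {D : Z →L[𝕜] H} (p : GG D) :
    ‖p‖ ^ 2 = ‖(p : WithLp 2 (Z × H)).fst‖ ^ 2 + ‖(p : WithLp 2 (Z × H)).snd‖ ^ 2 :=
  WithLp.prod_norm_sq_eq_of_L2 (p : WithLp 2 (Z × H))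

/-- strict convexity -/
lemma strict {D : Z →L[𝕜] H} (hD : Function.Injective D) {a b : GG D} {M : ℝ}
    (ha : ‖a‖ ≤ M) (hb : ‖b‖ ≤ M) (hab : 2 * M ≤ ‖a + b‖) : a = b := by
  have hM : 0 ≤ M := (norm_nonneg a).trans ha
  have h1 := norm_sq_GG a
  have h2 := norm_sq_GG b
  have h3 := norm_sq_GG (a + b)
  set a1 := (a : WithLp 2 (Z × H)).fst
  set a2 := (a : WithLp 2 (Z × H)).snd
  set b1 := (b : WithLp 2 (Z × H)).fst
  set b2 := (b : WithLp 2 (Z × H)).snd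
  have e1 : ((a + b : GG D) : WithLp 2 (Z × H)).fst = a1 + b1 := rfl
  have e2 : ((a + b : GG D) : WithLp 2 (Z × H)).snd = a2 + b2 := rfl
  rw [e1, e2] at h3
  have h4 := parallelogram_law_with_norm 𝕜 a2 b2
  have h5 : ‖a1 + b1‖ ≤ ‖a1‖ + ‖b1‖ := norm_add_le _ _
  have h6 : ‖a‖ ^ 2 ≤ M ^ 2 := pow_le_pow_left₀ (norm_nonneg _) ha 2
  have h7 : ‖b‖ ^ 2 ≤ M ^ 2 := pow_le_pow_left₀ (norm_nonneg _) hb 2
  have h8 : (2 * M) ^ 2 ≤ ‖a + b‖ ^ 2 := pow_le_pow_left₀ (by positivity) hab 2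
  have h9 : ‖a1 + b1‖ ^ 2 ≤ (‖a1‖ + ‖b1‖) ^ 2 := pow_le_pow_left₀ (norm_nonneg _) h5 2
  have h10 : ‖a2 - b2‖ * ‖a2 - b2‖ ≤ 0 := by nlinarith [sq_nonneg (‖a1‖ - ‖b1‖)]
  have h11 : a2 = b2 := by
    have : ‖a2 - b2‖ = 0 := by nlinarith [norm_nonneg (a2 - b2)]
    rwa [norm_eq_zero, sub_eq_zero] at this
  have h12 : a1 = b1 := by
    apply hD
    have ea : a2 = D a1 := a.2
    have eb : b2 = D b1 := b.2
    rw [← ea, ← eb, h11]
  apply Subtype.ext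
  apply (WithLp.equiv 2 (Z × H)).injective
  exact Prod.ext h12 h11

/-- norm-attaining operators vanish in flat directions -/
lemma vanish {D : Z →L[𝕜] H} (hD : Function.Injective D) {V : Type*} [NormedAddCommGroup V]
    [NormedSpace 𝕜 V] (S : V →L[𝕜] GG D) {x z : V} (hx : ‖S x‖ = ‖S‖) (h1 : ‖x + z‖ ≤ 1)
    (h2 : ‖x - z‖ ≤ 1) : S z = 0 := by
  have e1 : ‖S (x + z)‖ ≤ ‖S‖ := by
    refine (S.le_opNorm _).trans ?_
    nlinarith [norm_nonneg S]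
  have e2 : ‖S (x - z)‖ ≤ ‖S‖ := by
    refine (S.le_opNorm _).trans ?_
    nlinarith [norm_nonneg S]
  have e3 : S (x + z) + S (x - z) = (2 : 𝕜) • S x := by
    rw [← map_add, ← map_smul]; congr 1; rw [two_smul]; abel
  have e4 : 2 * ‖S‖ ≤ ‖S (x + z) + S (x - z)‖ := by
    rw [e3, norm_smul, RCLike.norm_ofNat, hx]
  have e5 := strict hD e1 e2 e4
  have e6 : (2 : 𝕜) • S z = 0 := by
    have : (2 : 𝕜) • S z = S (x + z) - S (x - z) := by
      rw [← map_sub, ← map_smul]; congr 1; rw [two_smul]; abel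
    rw [this, e5, sub_self]
  exact (smul_eq_zero.1 e6).resolve_left two_ne_zero

/-- the formal identity onto the renormed space -/
noncomputable def TT (D : Z →L[𝕜] H) : Z →L[𝕜] GG D :=
  LinearMap.mkContinuous
    { toFun := fun x => ⟨WithLp.toLp 2 (x, D x), rfl⟩
      map_add' := fun x y => by
        apply Subtype.ext
        change WithLp.toLp 2 (x + y, D (x + y)) = WithLp.toLp 2 (x, D x) + WithLp.toLp 2 (y, D y)
        rw [map_add]; rfl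
      map_smul' := fun c x => by
        apply Subtype.ext
        change WithLp.toLp 2 (c • x, D (c • x)) = c • WithLp.toLp 2 (x, D x)
        rw [map_smul]; rfl } (1 + ‖D‖) (fun x => by
        have h1 : ‖(⟨WithLp.toLp 2 (x, D x), rfl⟩ : GG D)‖ ^ 2 = ‖x‖ ^ 2 + ‖D x‖ ^ 2 :=
          norm_sq_GG _
        have h2 := D.le_opNorm x
        have h3 : ‖(⟨WithLp.toLp 2 (x, D x), rfl⟩ : GG D)‖ ^ 2 ≤
            ((1 + ‖D‖) * ‖x‖) ^ 2 := by
          rw [h1]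
          have h4 : ‖D x‖ ^ 2 ≤ (‖D‖ * ‖x‖) ^ 2 :=
            pow_le_pow_left₀ (norm_nonneg _) h2 2
          nlinarith [norm_nonneg D, norm_nonneg x,
            mul_nonneg (norm_nonneg D) (sq_nonneg ‖x‖)]
        exact le_of_sq_le_sq h3 (by positivity))

lemma norm_TT_ge (D : Z →L[𝕜] H) (x : Z) : ‖x‖ ≤ ‖TT D x‖ := by
  have h1 : ‖TT D x‖ ^ 2 = ‖x‖ ^ 2 + ‖D x‖ ^ 2 := norm_sq_GG _
  exact le_of_sq_le_sq (by nlinarith [sq_nonneg ‖D x‖]) (norm_nonneg _)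

/-- operators near `TT` do not attain their norm -/
lemma dist_ge {D : Z →L[𝕜] H} (hD : Function.Injective D)
    (hflat : ∀ x : Z, ‖x‖ ≤ 1 → ∃ z : Z, ‖z‖ = 1 ∧ ‖x + (2⁻¹ : 𝕜) • z‖ ≤ 1 ∧
      ‖x - (2⁻¹ : 𝕜) • z‖ ≤ 1)
    {S : Z →L[𝕜] GG D} (hS : S ∈ NA 𝕜 Z (GG D)) : 1 ≤ ‖S - TT D‖ := by
  obtain ⟨x, hx1, hx2⟩ := hS
  obtain ⟨z, hz, hn1, hn2⟩ := hflat x hx1.le
  have h1 := vanish hD S hx2 hn1 hn2
  have h2 : S z = 0 := by
    rw [map_smul] at h1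
    exact (smul_eq_zero.1 h1).resolve_left (by norm_num)
  have h3 := (S - TT D).le_opNorm z
  rw [hz, mul_one] at h3
  refine le_trans ?_ h3
  have h4 : (S - TT D) z = - TT D z := by
    change S z - TT D z = _
    rw [h2, zero_sub]
  rw [h4, norm_neg, ← hz]
  exact norm_TT_ge D z

lemma not_dense {D : Z →L[𝕜] H} (hD : Function.Injective D)
    (hflat : ∀ x : Z, ‖x‖ ≤ 1 → ∃ z : Z, ‖z‖ = 1 ∧ ‖x + (2⁻¹ : 𝕜) • z‖ ≤ 1 ∧
      ‖x - (2⁻¹ : 𝕜) • z‖ ≤ 1) : ¬ Dense (NA 𝕜 Z (GG D)) := by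
  intro hd
  obtain ⟨S, hS1, hS2⟩ := exists_near (TT D) hd
  have h1 := dist_ge hD hflat hS2
  exact absurd h1 (not_le.2 hS1)

end SC

section czero

variable (𝕜 : Type*) [RCLike 𝕜]

/-- the unit vectors of `c₀` -/
noncomputable def ce (n : ℕ) : C₀(ℕ, 𝕜) where
  toFun := Pi.single n 1
  continuous_toFun := continuous_of_discreteTopology
  zero_at_infty' := by
    rw [cocompact_eq_cofinite, Nat.cofinite_eq_atTop]
    refine tendsto_const_nhds.congr' ?_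
    filter_upwards [eventually_gt_atTop n] with m hm
    rw [Pi.single_apply, if_neg (ne_of_gt hm)]

variable {𝕜}

lemma ce_apply (n m : ℕ) : ce 𝕜 n m = if m = n then 1 else 0 := by
  change (Pi.single n (1 : 𝕜) : ℕ → 𝕜) m = _
  rw [Pi.single_apply]

lemma c0_apply_le (x : C₀(ℕ, 𝕜)) (n : ℕ) : ‖x n‖ ≤ ‖x‖ :=
  x.toBCF.norm_coe_le_norm n

lemma c0_norm_le {x : C₀(ℕ, 𝕜)} {c : ℝ} (hc : 0 ≤ c) (h : ∀ n, ‖x n‖ ≤ c) : ‖x‖ ≤ c :=
  (BoundedContinuousFunction.norm_le hc (f := x.toBCF)).2 h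

lemma norm_ce (n : ℕ) : ‖ce 𝕜 n‖ = 1 := by
  apply le_antisymm
  · apply c0_norm_le zero_le_one
    intro m
    rw [ce_apply]
    split_ifs <;> simp
  · have := c0_apply_le (ce 𝕜 n) n
    rw [ce_apply, if_pos rfl, norm_one] at this
    exact this

lemma flat_dir (x : C₀(ℕ, 𝕜)) (hx : ‖x‖ ≤ 1) :
    ∀ᶠ n in atTop, ‖x + (2⁻¹ : 𝕜) • ce 𝕜 n‖ ≤ 1 ∧ ‖x - (2⁻¹ : 𝕜) • ce 𝕜 n‖ ≤ 1 := by
  have h1 : Tendsto (fun n => ‖x n‖) atTop (𝓝 0) := by
    have h2 : Tendsto x (cocompact ℕ) (𝓝 0) := x.zero_at_infty'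
    rw [cocompact_eq_cofinite, Nat.cofinite_eq_atTop] at h2
    have := h2.norm
    rwa [norm_zero] at this
  filter_upwards [h1.eventually_le_const (show (0 : ℝ) < 1 / 2 by norm_num)] with n hn
  have h3 : ‖(2⁻¹ : 𝕜)‖ = 1 / 2 := by rw [norm_inv, RCLike.norm_ofNat]; norm_num
  constructor
  · apply c0_norm_le zero_le_one
    intro m
    have e : (x + (2⁻¹ : 𝕜) • ce 𝕜 n) m = x m + 2⁻¹ * ce 𝕜 n m := rfl
    rw [e, ce_apply]
    by_cases h : m = n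
    · rw [if_pos h, mul_one, h]
      refine (norm_add_le _ _).trans ?_
      rw [h3]; linarith
    · rw [if_neg h, mul_zero, add_zero]
      exact (c0_apply_le x m).trans hx
  · apply c0_norm_le zero_le_one
    intro m
    have e : (x - (2⁻¹ : 𝕜) • ce 𝕜 n) m = x m - 2⁻¹ * ce 𝕜 n m := rfl
    rw [e, ce_apply]
    by_cases h : m = n
    · rw [if_pos h, mul_one, h]
      refine (norm_sub_le _ _).trans ?_
      rw [h3]; linarith
    · rw [if_neg h, mul_zero, sub_zero]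
      exact (c0_apply_le x m).trans hx

lemma half_sq (x : C₀(ℕ, 𝕜)) (n : ℕ) :
    ‖(((1 / 2 : ℝ) ^ n : ℝ) : 𝕜) * x n‖ ^ (2 : ℝ≥0∞).toReal ≤ ‖x‖ ^ 2 * (1 / 4) ^ n := by
  rw [ENNReal.toReal_ofNat, Real.rpow_two, norm_mul, norm_algebraMap', Real.norm_eq_abs,
    abs_of_pos (by positivity), mul_pow, ← pow_mul, mul_comm n 2, pow_mul, mul_comm]
  have h1 : ((1 : ℝ) / 2) ^ 2 = 1 / 4 := by norm_num
  rw [h1]
  have := c0_apply_le x n
  gcongr

lemma summable_half (x : C₀(ℕ, 𝕜)) : Summable (fun n : ℕ => ‖x‖ ^ 2 * (1 / 4 : ℝ) ^ n) :=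
  (summable_geometric_of_lt_one (by norm_num) (by norm_num)).mul_left _

/-- the injective operator from `c₀` to `ℓ₂` -/
noncomputable def DD : C₀(ℕ, 𝕜) →L[𝕜] lp (fun _ : ℕ => 𝕜) 2 :=
  LinearMap.mkContinuous
    { toFun := fun x => ⟨fun n => (((1 / 2 : ℝ) ^ n : ℝ) : 𝕜) * x n, memℓp_gen
        (Summable.of_nonneg_of_le (fun n => by positivity) (half_sq x) (summable_half x))⟩
      map_add' := fun x y => by ext n; exact mul_add _ _ _
      map_smul' := fun c x => by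
        ext n
        change (((1 / 2 : ℝ) ^ n : ℝ) : 𝕜) * (c * x n) = c * ((((1 / 2 : ℝ) ^ n : ℝ) : 𝕜) * x n)
        ring } 2 (fun x => by
        refine lp.norm_le_of_tsum_le (by simp) (by positivity) ?_
        have h1 := (Summable.of_nonneg_of_le (fun n => by positivity) (half_sq x)
          (summable_half x)).tsum_le_tsum (half_sq x) (summable_half x)
        refine h1.trans ?_
        rw [tsum_mul_left, tsum_geometric_of_lt_one (by norm_num) (by norm_num),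
          ENNReal.toReal_ofNat, Real.rpow_two, mul_pow]
        nlinarith [sq_nonneg ‖x‖])

lemma DD_injective : Function.Injective (DD (𝕜 := 𝕜)) := by
  intro x y h
  ext n
  have h1 : (DD x : ∀ _ : ℕ, 𝕜) n = (DD y : ∀ _ : ℕ, 𝕜) n := by rw [h]
  have h2 : (((1 / 2 : ℝ) ^ n : ℝ) : 𝕜) * x n = (((1 / 2 : ℝ) ^ n : ℝ) : 𝕜) * y n := h1
  have h3 : (((1 / 2 : ℝ) ^ n : ℝ) : 𝕜) ≠ 0 := by
    rw [Ne, RCLike.ofReal_eq_zero]; positivity
  exact mul_left_cancel₀ h3 h2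

lemma flat_dir' (x : C₀(ℕ, 𝕜)) (hx : ‖x‖ ≤ 1) : ∃ z : C₀(ℕ, 𝕜), ‖z‖ = 1 ∧
    ‖x + (2⁻¹ : 𝕜) • z‖ ≤ 1 ∧ ‖x - (2⁻¹ : 𝕜) • z‖ ≤ 1 := by
  obtain ⟨n, hn⟩ := (flat_dir x hx).exists
  exact ⟨ce 𝕜 n, norm_ce n, hn⟩

end czero

end Pool.Agent.W703.OC
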