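import Pool.Agent.H825R3.Seq

set_option autoImplicit false

open NormedSpace Set Filter Topology

namespace Pool.Agent.W703.JT

variable {X : Type*} [NormedAddCommGroup X] [NormedSpace ℝ X]

/-- functionals dominated by the upper limit of the sequence `f` -/
def LL (f : ℕ → StrongDual ℝ X) : Set (StrongDual ℝ X) :=
  {w | ∀ x : X, ∀ ε : ℝ, 0 < ε → ∀ N : ℕ, ∃ n, N ≤ n ∧ w x - ε < f n x}

/-- the convex hull of a tail -/
def TH (f : ℕ → StrongDual ℝ X) (m : ℕ) : Set (StrongDual ℝ X) := convexHull ℝ (f '' Ici m)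

lemma TH_convex (f : ℕ → StrongDual ℝ X) (m : ℕ) : Convex ℝ (TH f m) := convex_convexHull _ _

lemma mem_TH (f : ℕ → StrongDual ℝ X) {m k : ℕ} (h : m ≤ k) : f k ∈ TH f m :=
  subset_convexHull _ _ ⟨k, h, rfl⟩

lemma TH_anti (f : ℕ → StrongDual ℝ X) {m k : ℕ} (h : m ≤ k) : TH f k ⊆ TH f m :=
  convexHull_mono (image_mono (Ici_subset_Ici.2 h))

lemma exists_ge_of_mem_TH {f : ℕ → StrongDual ℝ X} {m : ℕ} {g : StrongDual ℝ X}
    (hg : g ∈ TH f m) (x : X) : ∃ i, m ≤ i ∧ g x ≤ f i x := by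
  by_contra hcon
  push Not at hcon
  have h1 : TH f m ⊆ {h : StrongDual ℝ X | h x < g x} := by
    apply convexHull_min
    · rintro _ ⟨i, hi, rfl⟩
      exact hcon i hi
    · exact convex_halfSpace_lt (f := fun h : StrongDual ℝ X => h x)
        ⟨fun a b => rfl, fun c a => rfl⟩ _
  have h2 : g x < g x := h1 hg
  exact lt_irrefl _ h2

lemma LL_subset {f g : ℕ → StrongDual ℝ X} (h : ∀ k, g k ∈ TH f k) : LL g ⊆ LL f := by
  intro w hw x ε hε N
  obtain ⟨n, hn, hn2⟩ := hw x ε hε N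
  obtain ⟨i, hi, hi2⟩ := exists_ge_of_mem_TH (h n) x
  exact ⟨i, hn.trans hi, hn2.trans_le hi2⟩

lemma TH_trans {f g : ℕ → StrongDual ℝ X} {s : ℕ} (h : ∀ k, g k ∈ TH f (k + s)) (m : ℕ) :
    TH g m ⊆ TH f (m + s) := by
  apply convexHull_min
  · rintro _ ⟨i, hi, rfl⟩
    exact TH_anti f (Nat.add_le_add_right hi s) (h i)
  · exact TH_convex _ _

lemma norm_le_of_mem_TH {f : ℕ → StrongDual ℝ X} (hf : ∀ k, ‖f k‖ ≤ 1) {m : ℕ}
    {g : StrongDual ℝ X} (hg : g ∈ TH f m) : ‖g‖ ≤ 1 := by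
  have h1 : TH f m ⊆ Metric.closedBall 0 1 := by
    apply convexHull_min
    · rintro _ ⟨i, hi, rfl⟩
      simpa using hf i
    · exact convex_closedBall _ _
  simpa using h1 hg

lemma LL_nonempty {f : ℕ → StrongDual ℝ X} (hf : ∀ k, ‖f k‖ ≤ 1) : (LL f).Nonempty := by
  have hK := WeakDual.isCompact_closedBall (𝕜 := ℝ) (E := X) (0 : StrongDual ℝ X) 1
  let u : ℕ → WeakDual ℝ X := fun n => StrongDual.toWeakDual (f n)
  have hu : ∀ n, u n ∈ (⇑WeakDual.toStrongDual ⁻¹' Metric.closedBall (0 : StrongDual ℝ X) 1) := by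
    intro n
    simp only [mem_preimage, mem_closedBall_zero_iff]
    exact hf n
  obtain ⟨a, -, ha⟩ := hK.exists_mapClusterPt (f := (atTop : Filter ℕ)) (u := u)
    (Filter.tendsto_principal.2 (Eventually.of_forall hu))
  refine ⟨WeakDual.toStrongDual a, ?_⟩
  intro x ε hε N
  have hc : Continuous (fun w : WeakDual ℝ X => w x) := WeakDual.eval_continuous x
  have h1 : MapClusterPt (a x) atTop (fun n => (u n) x) := ha.continuousAt_comp hc.continuousAt
  have h2 := h1.frequently (Metric.ball_mem_nhds (a x) hε)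
  obtain ⟨n, hn, hn2⟩ := (frequently_atTop.1 h2) N
  refine ⟨n, hn, ?_⟩
  rw [Real.dist_eq, abs_lt] at hn2
  have h3 : (u n) x = f n x := rfl
  have h4 : (WeakDual.toStrongDual a) x = a x := rfl
  rw [h3] at hn2
  rw [h4]
  linarith [hn2.1]

lemma LL_apply_le {f : ℕ → StrongDual ℝ X} {w : StrongDual ℝ X} (hw : w ∈ LL f) {x : X} {c : ℝ}
    (h : ∀ᶠ n in atTop, f n x ≤ c) : w x ≤ c := by
  obtain ⟨N, hN⟩ := eventually_atTop.1 h
  refine le_of_forall_pos_le_add fun ε hε => ?_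
  obtain ⟨n, hn, hn2⟩ := hw x ε hε N
  linarith [hN n hn]

lemma LL_norm {f : ℕ → StrongDual ℝ X} (hf : ∀ k, ‖f k‖ ≤ 1) {w : StrongDual ℝ X}
    (hw : w ∈ LL f) : ‖w‖ ≤ 1 := by
  refine ContinuousLinearMap.opNorm_le_bound _ zero_le_one fun x => ?_
  rw [Real.norm_eq_abs, abs_le']
  have key : ∀ z : X, w z ≤ 1 * ‖z‖ := by
    intro z
    refine LL_apply_le hw (Eventually.of_forall fun n => ?_)
    exact (le_abs_self _).trans ((f n).le_of_opNorm_le (hf n) z)
  refine ⟨key x, ?_⟩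
  have := key (-x)
  rwa [map_neg, norm_neg] at this

/-- the set of upper bounds in the definition of `al` -/
def AA (F : ℕ → StrongDual ℝ X) (p : StrongDual ℝ X) (B : ℝ) : Set ℝ :=
  {s | ∃ G : ℕ → StrongDual ℝ X, (∀ k, G k ∈ TH F k) ∧ ∀ w ∈ LL G, ‖p + B • G 0 - w‖ ≤ s}

/-- the inf-sup -/
noncomputable def al (F : ℕ → StrongDual ℝ X) (p : StrongDual ℝ X) (B : ℝ) : ℝ := sInf (AA F p B)

lemma AA_lower {F : ℕ → StrongDual ℝ X} (hF : ∀ k, ‖F k‖ ≤ 1) {p : StrongDual ℝ X} {B c : ℝ}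
    (hc : ∀ G : ℕ → StrongDual ℝ X, (∀ k, G k ∈ TH F k) → ∀ w ∈ LL G, c ≤ ‖p + B • G 0 - w‖)
    {s : ℝ} (hs : s ∈ AA F p B) : c ≤ s := by
  obtain ⟨G, hG, h⟩ := hs
  obtain ⟨w, hw⟩ := LL_nonempty (f := G) (fun k => norm_le_of_mem_TH hF (hG k))
  exact (hc G hG w hw).trans (h w hw)

lemma AA_bdd {F : ℕ → StrongDual ℝ X} (hF : ∀ k, ‖F k‖ ≤ 1) (p : StrongDual ℝ X) (B : ℝ) :
    BddBelow (AA F p B) := ⟨0, fun _ hs => AA_lower hF (fun _ _ _ _ => norm_nonneg _) hs⟩

lemma AA_nonempty {F : ℕ → StrongDual ℝ X} (hF : ∀ k, ‖F k‖ ≤ 1) (p : StrongDual ℝ X) (B : ℝ) :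
    ‖p‖ + |B| + 1 ∈ AA F p B := by
  refine ⟨F, fun k => mem_TH F le_rfl, fun w hw => ?_⟩
  have h1 := LL_norm hF hw
  calc ‖p + B • F 0 - w‖ ≤ ‖p + B • F 0‖ + ‖w‖ := norm_sub_le _ _
    _ ≤ (‖p‖ + ‖B • F 0‖) + ‖w‖ := by gcongr; exact norm_add_le _ _
    _ ≤ (‖p‖ + |B|) + 1 := by
        gcongr
        rw [norm_smul, Real.norm_eq_abs]
        have := hF 0
        nlinarith [abs_nonneg B]

lemma step {F : ℕ → StrongDual ℝ X} (hF : ∀ k, ‖F k‖ ≤ 1) (p : StrongDual ℝ X) (B : ℝ)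
    {ε : ℝ} (hε : 0 < ε) :
    ∃ (y : StrongDual ℝ X) (F' : ℕ → StrongDual ℝ X), y ∈ TH F 0 ∧ (∀ k, F' k ∈ TH F (k + 1)) ∧
      ∀ w ∈ LL F', ‖p + B • y - w‖ ≤ al F p B + ε ∧ al F p B - ε ≤ ‖p + B • y - w‖ := by
  obtain ⟨s, hs, hs2⟩ := exists_lt_of_csInf_lt ⟨_, AA_nonempty hF p B⟩
    (show sInf (AA F p B) < al F p B + ε by unfold al; linarith)
  obtain ⟨G, hG, hGs⟩ := hs
  have h1 : al F p B - ε / 2 ∉ AA F p B := by
    intro h
    have := csInf_le (AA_bdd hF p B) h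
    unfold al at this
    linarith
  have h2 : ∃ w ∈ LL G, al F p B - ε / 2 < ‖p + B • G 0 - w‖ := by
    by_contra hcon
    push Not at hcon
    exact h1 ⟨G, hG, hcon⟩
  obtain ⟨w, hw, hw2⟩ := h2
  obtain ⟨x, hx, hx2⟩ := ContinuousLinearMap.exists_lt_apply_of_lt_opNorm (p + B • G 0 - w) hw2
  -- choose the sign
  obtain ⟨x', hx', hx2'⟩ : ∃ x' : X, ‖x'‖ < 1 ∧ al F p B - ε / 2 < (p + B • G 0 - w) x' := by
    rcases le_total 0 ((p + B • G 0 - w) x) with h | h
    · exact ⟨x, hx, by rwa [Real.norm_eq_abs, abs_of_nonneg h] at hx2⟩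
    · refine ⟨-x, by rwa [norm_neg], ?_⟩
      rw [Real.norm_eq_abs, abs_of_nonpos h] at hx2
      rwa [map_neg]
  -- choose the subsequence
  have h3 : ∀ N : ℕ, ∃ n, N ≤ n ∧ G n x' < w x' + ε / 2 := by
    intro N
    obtain ⟨n, hn, hn2⟩ := hw (-x') (ε / 2) (by linarith) N
    refine ⟨n, hn, ?_⟩
    rw [map_neg, map_neg] at hn2
    linarith
  choose φ hφ hφ2 using h3
  refine ⟨G 0, fun k => G (φ (k + 1)), hG 0, fun k => TH_anti F (hφ (k + 1)) (hG _), ?_⟩
  intro v hv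
  have hv' : v ∈ LL G := by
    intro z δ hδ N
    obtain ⟨n, hn, hn2⟩ := hv z δ hδ N
    exact ⟨φ (n + 1), (hn.trans (Nat.le_succ n)).trans (hφ (n + 1)), hn2⟩
  refine ⟨(hGs v hv').trans hs2.le, ?_⟩
  have h4 : v x' ≤ w x' + ε / 2 := LL_apply_le hv (Eventually.of_forall fun n => (hφ2 (n + 1)).le)
  have h5 : (p + B • G 0 - v) x' ≤ ‖p + B • G 0 - v‖ := by
    have h6 := (p + B • G 0 - v).le_opNorm x'
    have h7 := le_abs_self ((p + B • G 0 - v) x')
    rw [← Real.norm_eq_abs] at h7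
    have h8 : ‖p + B • G 0 - v‖ * ‖x'‖ ≤ ‖p + B • G 0 - v‖ * 1 := by gcongr
    linarith
  have h9 : (p + B • G 0 - v) x' = (p + B • G 0 - w) x' + (w x' - v x') := by
    simp only [FunLike.coe_sub, Pi.sub_apply]; ring
  linarith

lemma al_mono {F F' : ℕ → StrongDual ℝ X} (hF : ∀ k, ‖F k‖ ≤ 1) {p y : StrongDual ℝ X}
    {β B' : ℝ} (hβ : 0 ≤ β) (hB' : 0 < B') (hy : y ∈ TH F 0) (hF' : ∀ k, F' k ∈ TH F (k + 1)) :
    al F p (β + B') ≤ al F' (p + β • y) B' := by
  have hF'n : ∀ k, ‖F' k‖ ≤ 1 := fun k => norm_le_of_mem_TH hF (hF' k)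
  apply le_csInf ⟨_, AA_nonempty hF'n _ _⟩
  rintro s ⟨G, hG, hGs⟩
  apply csInf_le (AA_bdd hF p _)
  have hG' : ∀ k, G k ∈ TH F (k + 1) := fun k => TH_trans hF' k (hG k)
  have hpos : 0 < β + B' := by linarith
  refine ⟨Function.update G 0 ((β / (β + B')) • y + (B' / (β + B')) • G 0), ?_, ?_⟩
  · intro k
    rcases Nat.eq_zero_or_pos k with rfl | hk
    · rw [Function.update_self]
      apply TH_convex F 0 hy (TH_anti F (Nat.zero_le _) (hG' 0)) (by positivity) (by positivity)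
      field_simp
    · rw [Function.update_of_ne hk.ne']
      exact TH_anti F (Nat.le_succ k) (hG' k)
  · intro w hw
    have hw' : w ∈ LL G := by
      intro z δ hδ N
      obtain ⟨n, hn, hn2⟩ := hw z δ hδ (N + 1)
      refine ⟨n, (Nat.le_succ N).trans hn, ?_⟩
      rwa [Function.update_of_ne (by omega)] at hn2
    have := hGs w hw'
    rw [Function.update_self]
    have e : p + (β + B') • ((β / (β + B')) • y + (B' / (β + B')) • G 0) - w =
        p + β • y + B' • G 0 - w := by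
      rw [smul_add, smul_smul, smul_smul, mul_div_cancel₀ _ hpos.ne', mul_div_cancel₀ _ hpos.ne']
      abel
    rw [e]
    exact this

/-- the recursive construction -/
lemma construct {f : ℕ → StrongDual ℝ X} (hf : ∀ k, ‖f k‖ ≤ 1) (β B ε : ℕ → ℝ)
    (hε : ∀ n, 0 < ε n) :
    ∃ (F : ℕ → ℕ → StrongDual ℝ X) (y p : ℕ → StrongDual ℝ X),
      F 0 = f ∧ p 0 = 0 ∧ (∀ n k, ‖F n k‖ ≤ 1) ∧ ∀ n, y n ∈ TH (F n) 0 ∧
      (∀ k, F (n + 1) k ∈ TH (F n) (k + 1)) ∧ p (n + 1) = p n + β n • y n ∧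
      ∀ w ∈ LL (F (n + 1)), ‖p n + B n • y n - w‖ ≤ al (F n) (p n) (B n) + ε n ∧
        al (F n) (p n) (B n) - ε n ≤ ‖p n + B n • y n - w‖ := by
  have hs : ∀ (n : ℕ) (S : {F : ℕ → StrongDual ℝ X // ∀ k, ‖F k‖ ≤ 1} × StrongDual ℝ X),
      ∃ (y : StrongDual ℝ X) (F' : ℕ → StrongDual ℝ X), y ∈ TH S.1.1 0 ∧
      (∀ k, F' k ∈ TH S.1.1 (k + 1)) ∧
      ∀ w ∈ LL F', ‖S.2 + B n • y - w‖ ≤ al S.1.1 S.2 (B n) + ε n ∧
        al S.1.1 S.2 (B n) - ε n ≤ ‖S.2 + B n • y - w‖ :=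
    fun n S => step S.1.2 S.2 (B n) (hε n)
  choose Y F' h1 h2 h3 using hs
  let st : ℕ → {F : ℕ → StrongDual ℝ X // ∀ k, ‖F k‖ ≤ 1} × StrongDual ℝ X := fun n =>
    Nat.rec (⟨f, hf⟩, 0) (fun n S =>
      (⟨F' n S, fun k => norm_le_of_mem_TH S.1.2 (h2 n S k)⟩, S.2 + β n • Y n S)) n
  refine ⟨fun n => (st n).1.1, fun n => Y n (st n), fun n => (st n).2, rfl, rfl,
    fun n => (st n).1.2, fun n => ⟨h1 n (st n), h2 n (st n), rfl, h3 n (st n)⟩⟩


/-- the weights -/
noncomputable def bB (n : ℕ) : ℝ := (1 / 2) ^ (n ^ 2)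

lemma bB_pos (n : ℕ) : 0 < bB n := by unfold bB; positivity

lemma bB_succ (n : ℕ) : bB (n + 1) = bB n * (1 / 2) ^ (2 * n + 1) := by
  unfold bB; rw [← pow_add]; congr 1; ring

lemma bB_zero : bB 0 = 1 := by simp [bB]

lemma bB_succ_le (n : ℕ) : bB (n + 1) ≤ bB n * (1 / 2) := by
  rw [bB_succ]
  have h1 : ((1 : ℝ) / 2) ^ (2 * n + 1) ≤ (1 / 2) ^ 1 :=
    pow_le_pow_of_le_one (by norm_num) (by norm_num) (by omega)
  rw [pow_one] at h1
  exact mul_le_mul_of_nonneg_left h1 (bB_pos n).le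

lemma bB_le (n : ℕ) : bB n ≤ (1 / 2) ^ n := by
  induction n with
  | zero => simp [bB_zero]
  | succ n ih =>
    rw [pow_succ]
    exact (bB_succ_le n).trans (by gcongr)

lemma bB_tendsto : Tendsto bB atTop (𝓝 0) :=
  squeeze_zero (fun n => (bB_pos n).le) bB_le
    (tendsto_pow_atTop_nhds_zero_of_lt_one (by norm_num) (by norm_num))

/-- the coefficients -/
noncomputable def bb (n : ℕ) : ℝ := bB n - bB (n + 1)

lemma bb_pos (n : ℕ) : 0 < bb n := by
  have h1 := bB_succ_le n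
  have h2 := bB_pos n
  unfold bb; linarith

lemma bb_le (n : ℕ) : bb n ≤ bB n := by
  have := bB_pos (n + 1)
  unfold bb; linarith

/-- **James' theorem**: on a nonreflexive Banach space some functional does not attain its norm. -/
theorem james [CompleteSpace X] (h : ¬ Function.Surjective (inclusionInDoubleDual ℝ X)) :
    ∃ f : StrongDual ℝ X, ∀ x : X, ‖x‖ ≤ 1 → f x < ‖f‖ := by
  obtain ⟨x, f, hx, hf, hz, hθ⟩ := H825R3.james_seq h (θ := 3/4) (δ := 1/4) (by norm_num)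
    (by norm_num) (by norm_num)
  -- elements of `L(f)` are far from the convex hull
  have hL0 : ∀ w ∈ LL f, ∀ k, w (x k) = 0 := by
    intro w hw k
    apply le_antisymm
    · apply LL_apply_le hw
      filter_upwards [eventually_gt_atTop k] with n hn
      rw [hz n k hn]
    · have : w (-x k) ≤ 0 := by
        apply LL_apply_le hw
        filter_upwards [eventually_gt_atTop k] with n hn
        rw [map_neg, hz n k hn, neg_zero]
      rw [map_neg] at this
      linarith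
  have hfar : ∀ g ∈ TH f 0, ∀ w ∈ LL f, (1 / 2 : ℝ) ≤ ‖g - w‖ := by
    intro g hg w hw
    have hg' : ∃ m, ∀ k, m ≤ k → (1 / 2 : ℝ) ≤ g (x k) := by
      have hsub : TH f 0 ⊆ {g : StrongDual ℝ X | ∃ m, ∀ k, m ≤ k → (1 / 2 : ℝ) ≤ g (x k)} := by
        apply convexHull_min
        · rintro _ ⟨i, hi, rfl⟩
          refine ⟨i, fun k hk => ?_⟩
          have := (abs_le.1 (hθ i k hk)).1
          linarith
        · rintro a ⟨m1, h1⟩ b ⟨m2, h2⟩ s t hs ht hst
          refine ⟨max m1 m2, fun k hk => ?_⟩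
          have e1 := h1 k ((le_max_left _ _).trans hk)
          have e2 := h2 k ((le_max_right _ _).trans hk)
          have e3 : (s • a + t • b) (x k) = s * a (x k) + t * b (x k) := rfl
          rw [e3]
          have e4 : s * (1 / 2) + t * (1 / 2) = (1 : ℝ) / 2 := by rw [← add_mul, hst, one_mul]
          have e5 : s * (1 / 2) ≤ s * a (x k) := by gcongr
          have e6 : t * (1 / 2) ≤ t * b (x k) := by gcongr
          linarith
      exact hsub hg
    obtain ⟨m, hm⟩ := hg'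
    have h1 := hm m le_rfl
    have h2 := (g - w).le_opNorm (x m)
    have h3 : (g - w) (x m) = g (x m) := by
      rw [FunLike.coe_sub, Pi.sub_apply, hL0 w hw m, sub_zero]
    rw [h3, Real.norm_eq_abs] at h2
    have h4 := le_abs_self (g (x m))
    have h5 : ‖g - w‖ * ‖x m‖ ≤ ‖g - w‖ * 1 := by gcongr; exact hx m
    linarith
  -- the construction
  let ε : ℕ → ℝ := fun n => (1 / 2) ^ (n + 3) * bB (n + 1)
  have hε : ∀ n, 0 < ε n := fun n => by have := bB_pos (n + 1); positivity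
  obtain ⟨F, y, p, hF0, hp0, hFn, hc⟩ := construct hf bb bB ε hε
  have hy0 : ∀ n, y n ∈ TH (F n) 0 := fun n => (hc n).1
  have hFs : ∀ n k, F (n + 1) k ∈ TH (F n) (k + 1) := fun n => (hc n).2.1
  have hps : ∀ n, p (n + 1) = p n + bb n • y n := fun n => (hc n).2.2.1
  have hup : ∀ n, ∀ w ∈ LL (F (n + 1)), ‖p n + bB n • y n - w‖ ≤ al (F n) (p n) (bB n) + ε n :=
    fun n w hw => ((hc n).2.2.2 w hw).1
  have hlo : ∀ n, ∀ w ∈ LL (F (n + 1)), al (F n) (p n) (bB n) - ε n ≤ ‖p n + bB n • y n - w‖ :=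
    fun n w hw => ((hc n).2.2.2 w hw).2
  set a : ℕ → ℝ := fun n => al (F n) (p n) (bB n) with ha
  have hFsh : ∀ m n, ∀ k, F (n + m) k ∈ TH (F n) (k + m) := by
    intro m
    induction m with
    | zero => intro n k; exact mem_TH _ le_rfl
    | succ m ih =>
      intro n k
      have h1 := hFs (n + m) k
      have h2 := TH_trans (f := F n) (g := F (n + m)) (s := m) (ih n) (k + 1) h1
      rwa [show k + 1 + m = k + (m + 1) by ring] at h2
  have hysh : ∀ m n, y (n + m) ∈ TH (F n) m := by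
    intro m n
    have h1 := TH_trans (hFsh m n) 0 (hy0 (n + m))
    rwa [zero_add] at h1
  have hyn : ∀ n, ‖y n‖ ≤ 1 := fun n => norm_le_of_mem_TH (hFn n) (hy0 n)
  have hLy : ∀ n, LL y ⊆ LL (F n) := by
    intro n w hw z δ hδ N
    obtain ⟨j, hj, hj2⟩ := hw z δ hδ (n + N)
    obtain ⟨m, rfl⟩ : ∃ m, j = n + m := ⟨j - n, by omega⟩
    obtain ⟨i, hi, hi2⟩ := exists_ge_of_mem_TH (hysh m n) z
    exact ⟨i, by omega, hj2.trans_le hi2⟩
  -- monotonicity
  have hmono : ∀ n, a n ≤ a (n + 1) := by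
    intro n
    have h1 := al_mono (F := F n) (F' := F (n + 1)) (hFn n) (p := p n) (y := y n) (bb_pos n).le
      (bB_pos (n + 1)) (hy0 n) (hFs n)
    have h2 : bb n + bB (n + 1) = bB n := by unfold bb; ring
    rw [h2, ← hps n] at h1
    exact h1
  have hmono' : Monotone a := monotone_nat_of_le_succ hmono
  have ha0 : 1 / 2 ≤ a 0 := by
    apply le_csInf ⟨_, AA_nonempty (hFn 0) _ _⟩
    intro s hs
    refine AA_lower (hFn 0) ?_ hs
    intro G hG w hw
    rw [hp0, bB_zero, one_smul, zero_add]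
    rw [hF0] at hG
    exact hfar _ (TH_anti f (Nat.zero_le _) (hG 0)) w (LL_subset hG hw)
  obtain ⟨w, hw⟩ := LL_nonempty hyn
  have hwn : ‖w‖ ≤ 1 := LL_norm hyn hw
  -- bounds on p
  have hpn : ∀ n, ‖p n‖ ≤ 1 - bB n := by
    intro n
    induction n with
    | zero => rw [hp0, norm_zero, bB_zero, sub_self]
    | succ n ih =>
      rw [hps]
      calc ‖p n + bb n • y n‖ ≤ ‖p n‖ + ‖bb n • y n‖ := norm_add_le _ _
        _ ≤ (1 - bB n) + bb n * 1 := by
            gcongr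
            rw [norm_smul, Real.norm_eq_abs, abs_of_pos (bb_pos n)]
            have := bb_pos n
            gcongr
            exact hyn n
        _ = 1 - bB (n + 1) := by unfold bb; ring
  have hpdiff : ∀ n m, ‖p (n + m) - p n‖ ≤ bB n - bB (n + m) := by
    intro n m
    induction m with
    | zero => simp
    | succ m ih =>
      rw [← add_assoc, hps]
      calc ‖p (n + m) + bb (n + m) • y (n + m) - p n‖
          = ‖(p (n + m) - p n) + bb (n + m) • y (n + m)‖ := by congr 1; abel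
        _ ≤ ‖p (n + m) - p n‖ + ‖bb (n + m) • y (n + m)‖ := norm_add_le _ _
        _ ≤ (bB n - bB (n + m)) + bb (n + m) * 1 := by
            gcongr
            rw [norm_smul, Real.norm_eq_abs, abs_of_pos (bb_pos _)]
            have := bb_pos (n + m)
            gcongr
            exact hyn _
        _ = bB n - bB (n + m + 1) := by unfold bb; ring
  have hpdiff' : ∀ n m, n ≤ m → ‖p m - p n‖ ≤ bB n := by
    intro n m hnm
    obtain ⟨k, rfl⟩ : ∃ k, m = n + k := ⟨m - n, by omega⟩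
    have h1 := hpdiff n k
    have h2 := bB_pos (n + k)
    linarith
  have hcau : CauchySeq p := by
    apply cauchySeq_of_le_tendsto_0 (fun n => bB n + bB n)
    · intro n m N hn hm
      rw [dist_eq_norm]
      calc ‖p n - p m‖ = ‖(p n - p N) - (p m - p N)‖ := by congr 1; abel
        _ ≤ ‖p n - p N‖ + ‖p m - p N‖ := norm_sub_le _ _
        _ ≤ bB N + bB N := add_le_add (hpdiff' N n hn) (hpdiff' N m hm)
    · have := bB_tendsto.add bB_tendsto
      simpa using this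
  obtain ⟨q, hq⟩ := cauchySeq_tendsto_of_complete hcau
  have hqp : ∀ n, ‖q - p n‖ ≤ bB n := by
    intro n
    refine le_of_tendsto ((hq.sub_const (p n)).norm) ?_
    filter_upwards [eventually_ge_atTop n] with m hm
    exact hpdiff' n m hm
  -- the limit of `a`
  have hz1 : Tendsto (fun n => p n + bB n • y n - w) atTop (𝓝 (q - w)) := by
    have h1 : Tendsto (fun n => bB n • y n) atTop (𝓝 0) := by
      rw [tendsto_zero_iff_norm_tendsto_zero]
      refine squeeze_zero (fun n => norm_nonneg _) (fun n => ?_) bB_tendsto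
      rw [norm_smul, Real.norm_eq_abs, abs_of_pos (bB_pos n)]
      have := hyn n
      have := bB_pos n
      nlinarith
    have h2 := (hq.add h1).sub_const w
    rwa [add_zero] at h2
  have hε0 : Tendsto ε atTop (𝓝 0) := by
    refine squeeze_zero (fun n => (hε n).le) (fun n => ?_) (bB_tendsto.comp (tendsto_add_atTop_nat 1))
    have h1 : ((1 : ℝ) / 2) ^ (n + 3) ≤ 1 := pow_le_one₀ (by norm_num) (by norm_num)
    have h2 := bB_pos (n + 1)
    show (1 / 2 : ℝ) ^ (n + 3) * bB (n + 1) ≤ bB (n + 1)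
    nlinarith
  have hwF : ∀ n, w ∈ LL (F (n + 1)) := fun n => hLy (n + 1) hw
  have hat : Tendsto a atTop (𝓝 ‖q - w‖) := by
    have h1 := hz1.norm
    refine tendsto_of_tendsto_of_tendsto_of_le_of_le (g := fun n => ‖p n + bB n • y n - w‖ - ε n)
      (h := fun n => ‖p n + bB n • y n - w‖ + ε n) ?_ ?_ ?_ ?_
    · simpa using h1.sub hε0
    · simpa using h1.add hε0
    · intro n
      have := hup n w (hwF n)
      simp only [ha]
      linarith
    · intro n
      have := hlo n w (hwF n)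
      simp only [ha]
      linarith
  set α : ℝ := ‖q - w‖ with hα
  have hale : ∀ n, a n ≤ α := fun n => hmono'.ge_of_tendsto hat n
  have hα2 : 1 / 2 ≤ α := ha0.trans (hale 0)
  -- the partial sums
  have hu : ∀ n, ‖p n - (1 - bB n) • w‖ ≤ α * (1 - bB n) + (1 / 4) * (1 - (1 / 2) ^ n) * bB n := by
    intro n
    induction n with
    | zero => simp [hp0, bB_zero]
    | succ n ih =>
      have hBn := bB_pos n
      have hBn' := bB_pos (n + 1)
      have hbn := bb_pos n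
      have e1 : p (n + 1) - (1 - bB (n + 1)) • w = (bb n / bB n) • (p n + bB n • y n - w) +
          (bB (n + 1) / bB n) • (p n - (1 - bB n) • w) := by
        rw [hps]
        ext z
        simp only [FunLike.coe_sub, FunLike.coe_add, FunLike.coe_smul, Pi.sub_apply, Pi.add_apply,
          Pi.smul_apply, smul_eq_mul]
        have hb : bb n = bB n - bB (n + 1) := rfl
        rw [hb]
        field_simp
        ring
      rw [e1]
      have h1 := hup n w (hwF n)
      have h2 : ‖(bb n / bB n) • (p n + bB n • y n - w)‖ ≤ (bb n / bB n) * (α + ε n) := by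
        rw [norm_smul, Real.norm_eq_abs, abs_of_pos (by positivity)]
        exact mul_le_mul_of_nonneg_left
          (h1.trans (by have := hale n; simp only [ha] at this; linarith)) (by positivity)
      have h3 : ‖(bB (n + 1) / bB n) • (p n - (1 - bB n) • w)‖ ≤
          (bB (n + 1) / bB n) * (α * (1 - bB n) + (1 / 4) * (1 - (1 / 2) ^ n) * bB n) := by
        rw [norm_smul, Real.norm_eq_abs, abs_of_pos (by positivity)]
        gcongr
      have h4 : bb n / bB n ≤ 1 := by rw [div_le_one hBn]; exact bb_le n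
      have h5 : (bb n / bB n) * ε n ≤ (1 / 2) ^ (n + 3) * bB (n + 1) := by
        calc (bb n / bB n) * ε n ≤ 1 * ε n := mul_le_mul_of_nonneg_right h4 (hε n).le
          _ = _ := one_mul _
      have h6 : (bb n / bB n) * α + (bB (n + 1) / bB n) * (α * (1 - bB n)) =
          α * (1 - bB (n + 1)) := by
        have : bb n = bB n - bB (n + 1) := rfl
        rw [this]; field_simp; ring
      have h7 : (bB (n + 1) / bB n) * ((1 / 4) * (1 - (1 / 2) ^ n) * bB n) =
          (1 / 4) * (1 - (1 / 2) ^ n) * bB (n + 1) := by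
        field_simp
      calc _ ≤ ‖(bb n / bB n) • (p n + bB n • y n - w)‖ +
            ‖(bB (n + 1) / bB n) • (p n - (1 - bB n) • w)‖ := norm_add_le _ _
        _ ≤ (bb n / bB n) * (α + ε n) +
            (bB (n + 1) / bB n) * (α * (1 - bB n) + (1 / 4) * (1 - (1 / 2) ^ n) * bB n) :=
            add_le_add h2 h3
        _ = ((bb n / bB n) * α + (bB (n + 1) / bB n) * (α * (1 - bB n))) + (bb n / bB n) * ε n +
            (bB (n + 1) / bB n) * ((1 / 4) * (1 - (1 / 2) ^ n) * bB n) := by ring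
        _ ≤ α * (1 - bB (n + 1)) + (1 / 2) ^ (n + 3) * bB (n + 1) +
            (1 / 4) * (1 - (1 / 2) ^ n) * bB (n + 1) := by rw [h6, h7]; gcongr
        _ = α * (1 - bB (n + 1)) + 1 / 4 * (1 - (1 / 2) ^ (n + 1)) * bB (n + 1) := by
            rw [pow_succ, pow_add]; ring
  have hu' : ∀ n, ‖p n - (1 - bB n) • w‖ ≤ α - α * bB n / 2 := by
    intro n
    have h1 := hu n
    have h2 := bB_pos n
    have h3 : (0 : ℝ) ≤ (1 / 2) ^ n := by positivity
    nlinarith [mul_nonneg h3 h2.le]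
  refine ⟨q - w, fun z hz => ?_⟩
  by_contra hcon
  push Not at hcon
  obtain ⟨n, hn, hn2⟩ := hw (-z) (1 / 16) (by norm_num) 2
  rw [map_neg, map_neg] at hn2
  have hBn := bB_pos n
  have e1 : q - w = (p n - (1 - bB n) • w) + bb n • (y n - w) + ((q - p (n + 1)) -
      bB (n + 1) • w) := by
    rw [hps]
    ext z
    simp only [FunLike.coe_sub, FunLike.coe_add, FunLike.coe_smul, Pi.sub_apply, Pi.add_apply,
      Pi.smul_apply, smul_eq_mul]
    have hb : bb n = bB n - bB (n + 1) := rfl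
    rw [hb]
    ring
  have e2 : (q - w) z = (p n - (1 - bB n) • w) z + bb n * (y n z - w z) +
      ((q - p (n + 1)) - bB (n + 1) • w) z := by
    conv_lhs => rw [e1]
    rfl
  have gen : ∀ g : StrongDual ℝ X, g z ≤ ‖g‖ := by
    intro g
    have h1 := g.le_opNorm z
    rw [Real.norm_eq_abs] at h1
    have h2 := le_abs_self (g z)
    have h3 : ‖g‖ * ‖z‖ ≤ ‖g‖ * 1 := by gcongr
    linarith
  have h1 := (gen (p n - (1 - bB n) • w)).trans (hu' n)
  have h2 : ((q - p (n + 1)) - bB (n + 1) • w) z ≤ 2 * bB (n + 1) := by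
    refine (gen _).trans ((norm_sub_le _ _).trans ?_)
    have h3 := hqp (n + 1)
    have h4 : ‖bB (n + 1) • w‖ ≤ bB (n + 1) := by
      rw [norm_smul, Real.norm_eq_abs, abs_of_pos (bB_pos _)]
      have := bB_pos (n + 1)
      nlinarith
    linarith
  have h3 : bb n * (y n z - w z) ≤ bB n * (1 / 16) := by
    have h4 := bb_le n
    have h5 := bb_pos n
    calc bb n * (y n z - w z) ≤ bb n * (1 / 16) := by gcongr; linarith
      _ ≤ bB n * (1 / 16) := by gcongr
  have h4 : bB (n + 1) ≤ bB n * (1 / 32) := by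
    rw [bB_succ]
    have h5 : ((1 : ℝ) / 2) ^ (2 * n + 1) ≤ (1 / 2) ^ 5 :=
      pow_le_pow_of_le_one (by norm_num) (by norm_num) (by omega)
    have h6 : ((1 : ℝ) / 2) ^ 5 = 1 / 32 := by norm_num
    rw [h6] at h5
    gcongr
  rw [e2] at hcon
  nlinarith

end Pool.Agent.W703.JT
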