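import Mathlib

set_option autoImplicit false

namespace Pool.Agent.W703.OC

/-- The set of norm-attaining operators from `X` to `Y`. -/
def NA (𝕜 : Type*) [RCLike 𝕜] (X Y : Type*) [NormedAddCommGroup X] [NormedSpace 𝕜 X]
    [NormedAddCommGroup Y] [NormedSpace 𝕜 Y] : Set (X →L[𝕜] Y) :=
  {T | ∃ x : X, ‖x‖ = 1 ∧ ‖T x‖ = ‖T‖}

/-- The subspace `X₁` is the range of a projection of norm at most one. -/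
def OneComplemented {𝕜 : Type*} [RCLike 𝕜] {X : Type*} [NormedAddCommGroup X] [NormedSpace 𝕜 X]
    (X₁ : Submodule 𝕜 X) : Prop :=
  ∃ P : X →L[𝕜] X, ‖P‖ ≤ 1 ∧ (∀ x, P x ∈ X₁) ∧ ∀ x ∈ X₁, P x = x

/-- The Bishop-Phelps-Bollobas property of the pair `(X, Y)`. -/
def BPBp (𝕜 : Type*) [RCLike 𝕜] (X Y : Type*) [NormedAddCommGroup X] [NormedSpace 𝕜 X]
    [NormedAddCommGroup Y] [NormedSpace 𝕜 Y] : Prop :=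
  ∀ ε : ℝ, 0 < ε → ε < 1 → ∃ η : ℝ, 0 < η ∧
    ∀ (T : X →L[𝕜] Y) (x₀ : X), ‖T‖ = 1 → ‖x₀‖ = 1 → 1 - η < ‖T x₀‖ →
      ∃ (S : X →L[𝕜] Y) (u₀ : X), ‖S‖ = 1 ∧ ‖u₀‖ = 1 ∧ ‖S u₀‖ = 1 ∧ ‖x₀ - u₀‖ < ε ∧ ‖S - T‖ < ε

end Pool.Agent.W703.OC
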