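import Pool.Agent.W703.OCDefs

set_option autoImplicit false

open Set Filter Topology
open scoped ENNReal Classical

namespace Pool.Agent.W703.OC

section Fam

variable {𝕜 : Type*} [RCLike 𝕜] {Γ : Type*} {W : Type*} [NormedAddCommGroup W] [NormedSpace 𝕜 W]

/-- the space of absolutely summable families -/
abbrev Lone (𝕜 : Type*) [RCLike 𝕜] (Γ : Type*) : Type _ := lp (fun _ : Γ => 𝕜) 1

lemma hasSum_norm (a : Lone 𝕜 Γ) : HasSum (fun γ => ‖a γ‖) ‖a‖ := by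
  have := lp.hasSum_norm (p := 1) (by simp) a
  simpa using this

lemma summable_fam [CompleteSpace W] (v : Γ → W) (hv : ∀ γ, ‖v γ‖ ≤ 1) (a : Lone 𝕜 Γ) :
    Summable (fun γ => a γ • v γ) := by
  refine Summable.of_norm_bounded (hasSum_norm a).summable fun γ => ?_
  rw [norm_smul]
  exact mul_le_of_le_one_right (norm_nonneg _) (hv γ)

/-- the operator on `ℓ_1(Γ)` with prescribed values at the unit vectors -/
noncomputable def ofFam [CompleteSpace W] (v : Γ → W) (hv : ∀ γ, ‖v γ‖ ≤ 1) :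
    Lone 𝕜 Γ →L[𝕜] W :=
  LinearMap.mkContinuous
    { toFun := fun a => ∑' γ, a γ • v γ
      map_add' := fun a b => by
        rw [← (summable_fam v hv a).tsum_add (summable_fam v hv b)]
        exact tsum_congr fun γ => add_smul _ _ _
      map_smul' := fun c a => by
        rw [RingHom.id_apply, ← (summable_fam v hv a).tsum_const_smul c]
        exact tsum_congr fun γ => smul_assoc c (a γ) (v γ) } 1 (fun a => by
        rw [one_mul]
        refine tsum_of_norm_bounded (hasSum_norm a) fun γ => ?_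
        rw [norm_smul]
        exact mul_le_of_le_one_right (norm_nonneg _) (hv γ))

/-- the unit vectors -/
noncomputable def ee (γ : Γ) : Lone 𝕜 Γ := lp.single 1 γ (1 : 𝕜)

lemma norm_ee (γ : Γ) : ‖(ee γ : Lone 𝕜 Γ)‖ = 1 := by
  unfold ee
  rw [lp.norm_single (by simp), norm_one]

lemma hasSum_ee (a : Lone 𝕜 Γ) : HasSum (fun γ => a γ • (ee γ : Lone 𝕜 Γ)) a := by
  have h := lp.hasSum_single (p := 1) (by simp) a
  convert h using 2 with γ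
  unfold ee
  rw [← lp.single_smul, smul_eq_mul, mul_one]

lemma ofFam_ee [CompleteSpace W] (v : Γ → W) (hv : ∀ γ, ‖v γ‖ ≤ 1) (γ : Γ) :
    ofFam v hv (ee γ : Lone 𝕜 Γ) = v γ := by
  change ∑' δ, (ee γ : Lone 𝕜 Γ) δ • v δ = v γ
  rw [tsum_eq_single γ]
  · unfold ee; rw [lp.single_apply_self, one_smul]
  · intro δ hδ
    unfold ee
    rw [lp.single_apply_ne _ _ _ hδ, zero_smul]

/-- an operator bounded by `c` at the unit vectors is bounded by `c` -/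
lemma norm_apply_le (A : Lone 𝕜 Γ →L[𝕜] W) {c : ℝ} (hc : ∀ γ, ‖A (ee γ)‖ ≤ c)
    (a : Lone 𝕜 Γ) : ‖A a‖ ≤ c * ‖a‖ := by
  have h1 : HasSum (fun γ => a γ • A (ee γ)) (A a) := by
    have := (hasSum_ee a).mapL A
    simpa only [map_smul] using this
  have h2 : HasSum (fun γ => c * ‖a γ‖) (c * ‖a‖) := (hasSum_norm a).mul_left c
  rw [← h1.tsum_eq]
  refine tsum_of_norm_bounded h2 fun γ => ?_
  rw [norm_smul, mul_comm]
  exact mul_le_mul_of_nonneg_right (hc γ) (norm_nonneg _)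

end Fam

section Space

variable (𝕜 : Type*) [RCLike 𝕜] (Z : Type*) [NormedAddCommGroup Z] [NormedSpace 𝕜 Z]
  [CompleteSpace Z]

/-- the unit sphere as a type -/
abbrev Sph : Type _ := {u : Z // ‖u‖ = 1}

/-- the index set -/
abbrev Ga : Type _ := Sph Z × Bool

/-- the first quotient map -/
noncomputable def q1 : Lone 𝕜 (Ga Z) →L[𝕜] Z := ofFam (fun γ => (γ.1 : Z)) (fun γ => γ.1.2.le)

/-- the sign attached to a boolean -/
def sg (b : Bool) : 𝕜 := if b then 1 else -1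

lemma norm_sg (b : Bool) : ‖sg 𝕜 b‖ = 1 := by
  cases b <;> simp [sg]

lemma sg_mul (b : Bool) : sg 𝕜 b * sg 𝕜 b = 1 := by
  cases b <;> simp [sg]

lemma sg_not (b : Bool) : sg 𝕜 (!b) = - sg 𝕜 b := by
  cases b <;> simp [sg]

/-- the coordinate functionals -/
noncomputable def psi (u : Sph Z) : Lone 𝕜 (Ga Z) →L[𝕜] 𝕜 :=
  ofFam (fun γ => if γ.1 = u then sg 𝕜 γ.2 else 0) (fun γ => by
    by_cases h : γ.1 = u
    · rw [if_pos h, norm_sg]
    · rw [if_neg h, norm_zero]; exact zero_le_one)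

/-- the kernel -/
noncomputable def NN : Submodule 𝕜 (Lone 𝕜 (Ga Z)) := (q1 𝕜 Z).ker ⊓ ⨅ u, (psi 𝕜 Z u).ker

instance isClosed_NN : IsClosed (NN 𝕜 Z : Set (Lone 𝕜 (Ga Z))) := by
  have h1 : (NN 𝕜 Z : Set (Lone 𝕜 (Ga Z))) =
      {a | q1 𝕜 Z a = 0} ∩ ⋂ u, {a | psi 𝕜 Z u a = 0} := by
    ext a
    simp [NN, Submodule.mem_inf, Submodule.mem_iInf]
  rw [h1]
  refine (isClosed_eq (q1 𝕜 Z).continuous continuous_const).inter ?_
  exact isClosed_iInter fun u => isClosed_eq (psi 𝕜 Z u).continuous continuous_const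

/-- the big space -/
abbrev XX : Type _ := Lone 𝕜 (Ga Z) ⧸ NN 𝕜 Z

/-- the vertices -/
noncomputable def vv (γ : Ga Z) : XX 𝕜 Z := (NN 𝕜 Z).mkQL (ee γ)

variable {𝕜 Z}

lemma mem_NN {a : Lone 𝕜 (Ga Z)} :
    a ∈ NN 𝕜 Z ↔ q1 𝕜 Z a = 0 ∧ ∀ u, psi 𝕜 Z u a = 0 := by
  simp [NN, Submodule.mem_inf, Submodule.mem_iInf]

lemma norm_vv_le (γ : Ga Z) : ‖vv 𝕜 Z γ‖ ≤ 1 :=
  (Submodule.Quotient.norm_mk_le _ _).trans (norm_ee γ).le

/-- an operator bounded by `c` at the vertices is bounded by `c` -/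
lemma opNorm_le_of_vv {W : Type*} [NormedAddCommGroup W] [NormedSpace 𝕜 W] (A : XX 𝕜 Z →L[𝕜] W)
    {c : ℝ} (hc0 : 0 ≤ c) (hc : ∀ γ, ‖A (vv 𝕜 Z γ)‖ ≤ c) : ‖A‖ ≤ c := by
  refine ContinuousLinearMap.opNorm_le_bound _ hc0 fun x => ?_
  refine le_of_forall_pos_le_add fun ε hε => ?_
  obtain ⟨a, rfl, ha⟩ := Submodule.Quotient.norm_mk_lt x (show 0 < ε / (c + 1) by positivity)
  have h1 := norm_apply_le (A.comp (NN 𝕜 Z).mkQL) hc a
  have h2 : c * ‖a‖ ≤ c * (‖(Submodule.Quotient.mk a : XX 𝕜 Z)‖ + ε / (c + 1)) := by gcongr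
  have h3 : c * (ε / (c + 1)) ≤ ε := by
    rw [mul_div_assoc', div_le_iff₀ (by positivity)]
    nlinarith
  have h4 : (A.comp (NN 𝕜 Z).mkQL) a = A (Submodule.Quotient.mk a) := rfl
  rw [h4] at h1
  linarith

/-- the first coordinate on the big space -/
noncomputable def Q1 : XX 𝕜 Z →L[𝕜] Z :=
  (NN 𝕜 Z).liftQL (q1 𝕜 Z) (fun a ha => (mem_NN.1 ha).1)

/-- the coordinate functionals on the big space -/
noncomputable def Psi (u : Sph Z) : XX 𝕜 Z →L[𝕜] 𝕜 :=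
  (NN 𝕜 Z).liftQL (psi 𝕜 Z u) (fun a ha => (mem_NN.1 ha).2 u)

lemma Q1_mk (a : Lone 𝕜 (Ga Z)) : Q1 (𝕜 := 𝕜) (Z := Z) ((NN 𝕜 Z).mkQL a) = q1 𝕜 Z a := rfl
lemma Psi_mk (u : Sph Z) (a : Lone 𝕜 (Ga Z)) :
    Psi (𝕜 := 𝕜) (Z := Z) u ((NN 𝕜 Z).mkQL a) = psi 𝕜 Z u a := rfl

lemma Q1_vv (γ : Ga Z) : Q1 (vv 𝕜 Z γ) = (γ.1 : Z) := by
  unfold vv
  rw [Q1_mk, q1, ofFam_ee]

lemma Psi_vv (u : Sph Z) (γ : Ga Z) : Psi u (vv 𝕜 Z γ) = if γ.1 = u then sg 𝕜 γ.2 else 0 := by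
  unfold vv
  rw [Psi_mk, psi, ofFam_ee]

lemma norm_Q1 : ‖(Q1 : XX 𝕜 Z →L[𝕜] Z)‖ ≤ 1 :=
  opNorm_le_of_vv _ zero_le_one fun γ => by rw [Q1_vv]; exact γ.1.2.le

lemma ext_XX {x y : XX 𝕜 Z} (h1 : Q1 x = Q1 y) (h2 : ∀ u, Psi u x = Psi u y) : x = y := by
  obtain ⟨a, rfl⟩ := (NN 𝕜 Z).mkQ_surjective x
  obtain ⟨b, rfl⟩ := (NN 𝕜 Z).mkQ_surjective y
  have h3 : a - b ∈ NN 𝕜 Z := by
    rw [mem_NN]
    refine ⟨?_, fun u => ?_⟩
    · rw [map_sub, sub_eq_zero]; exact h1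
    · rw [map_sub, sub_eq_zero]; exact h2 u
  exact (Submodule.Quotient.eq _).2 h3

/-- the embedding of `Z`, as a function -/
noncomputable def jfun (z : Z) : XX 𝕜 Z :=
  if h : z = 0 then 0 else
    ((‖z‖ / 2 : ℝ) : 𝕜) • (vv 𝕜 Z (⟨((‖z‖⁻¹ : ℝ) : 𝕜) • z, by
      rw [norm_smul, norm_algebraMap', norm_inv, norm_norm,
        inv_mul_cancel₀ (norm_ne_zero_iff.2 h)]⟩, true) +
      vv 𝕜 Z (⟨((‖z‖⁻¹ : ℝ) : 𝕜) • z, by
      rw [norm_smul, norm_algebraMap', norm_inv, norm_norm,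
        inv_mul_cancel₀ (norm_ne_zero_iff.2 h)]⟩, false))

lemma Q1_jfun (z : Z) : Q1 (jfun (𝕜 := 𝕜) z) = z := by
  unfold jfun
  split_ifs with h
  · rw [map_zero, h]
  · rw [map_smul, map_add, Q1_vv, Q1_vv]
    change ((‖z‖ / 2 : ℝ) : 𝕜) • (((‖z‖⁻¹ : ℝ) : 𝕜) • z + ((‖z‖⁻¹ : ℝ) : 𝕜) • z) = z
    rw [← two_smul 𝕜, smul_smul, smul_smul]
    have h1 : ((‖z‖ / 2 : ℝ) : 𝕜) * 2 * ((‖z‖⁻¹ : ℝ) : 𝕜) = 1 := by
      have h2 : (‖z‖ / 2) * 2 * ‖z‖⁻¹ = 1 := by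
        have := norm_ne_zero_iff.2 h
        field_simp
      exact_mod_cast congrArg (fun r : ℝ => (r : 𝕜)) h2
    rw [h1, one_smul]

lemma Psi_jfun (u : Sph Z) (z : Z) : Psi u (jfun (𝕜 := 𝕜) z) = 0 := by
  unfold jfun
  split_ifs with h
  · rw [map_zero]
  · rw [map_smul, map_add, Psi_vv, Psi_vv]
    simp only
    split_ifs with h2
    · simp [sg]
    · simp

lemma norm_jfun_le (z : Z) : ‖jfun (𝕜 := 𝕜) z‖ ≤ ‖z‖ := by
  unfold jfun
  split_ifs with h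
  · simp
  · rw [norm_smul, norm_algebraMap', Real.norm_eq_abs, abs_of_nonneg (by positivity)]
    refine (mul_le_mul_of_nonneg_left ((norm_add_le _ _).trans
      (add_le_add (norm_vv_le _) (norm_vv_le _))) (by positivity)).trans ?_
    linarith

/-- the isometric embedding -/
noncomputable def jj : Z →ₗᵢ[𝕜] XX 𝕜 Z where
  toFun := jfun
  map_add' a b := by
    apply ext_XX
    · rw [map_add, Q1_jfun, Q1_jfun, Q1_jfun]
    · intro u; rw [map_add, Psi_jfun, Psi_jfun, Psi_jfun, add_zero]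
  map_smul' c a := by
    apply ext_XX
    · rw [map_smul, Q1_jfun, Q1_jfun, RingHom.id_apply]
    · intro u; rw [map_smul, Psi_jfun, Psi_jfun, smul_zero]
  norm_map' z := by
    apply le_antisymm (norm_jfun_le z)
    have h1 := (Q1 : XX 𝕜 Z →L[𝕜] Z).le_of_opNorm_le norm_Q1 (jfun z)
    rw [Q1_jfun, one_mul] at h1
    exact h1

lemma Q1_jj (z : Z) : Q1 (jj (𝕜 := 𝕜) z) = z := Q1_jfun z

/-- The range of the embedding is one-complemented. -/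
theorem oneComplemented_range : OneComplemented (LinearMap.range (jj (𝕜 := 𝕜) (Z := Z)).toLinearMap) := by
  refine ⟨(jj (𝕜 := 𝕜) (Z := Z)).toContinuousLinearMap.comp Q1, ?_, ?_, ?_⟩
  · refine ContinuousLinearMap.opNorm_le_bound _ zero_le_one fun x => ?_
    have h1 : ((jj (𝕜 := 𝕜) (Z := Z)).toContinuousLinearMap.comp Q1) x = jj (𝕜 := 𝕜) (Q1 x) := rfl
    rw [h1, (jj (𝕜 := 𝕜) (Z := Z)).norm_map]
    exact (Q1 : XX 𝕜 Z →L[𝕜] Z).le_of_opNorm_le norm_Q1 x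
  · intro x
    exact ⟨Q1 x, rfl⟩
  · rintro _ ⟨z, rfl⟩
    change jj (𝕜 := 𝕜) (Q1 (jj (𝕜 := 𝕜) z)) = jj (𝕜 := 𝕜) z
    rw [Q1_jj]

lemma norm_vv (γ : Ga Z) : ‖vv 𝕜 Z γ‖ = 1 := by
  apply le_antisymm (norm_vv_le γ)
  have h1 := (Q1 : XX 𝕜 Z →L[𝕜] Z).le_of_opNorm_le norm_Q1 (vv 𝕜 Z γ)
  rw [Q1_vv, γ.1.2, one_mul] at h1
  exact h1

/-- the exposing functionals of the vertices -/
lemma exists_exposing (γ : Ga Z) : ∃ f : XX 𝕜 Z →L[𝕜] 𝕜, f (vv 𝕜 Z γ) = 1 ∧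
    (∀ γ', γ' ≠ γ → ‖f (vv 𝕜 Z γ')‖ ≤ 1 / 2) ∧ ‖f‖ ≤ 1 := by
  obtain ⟨g, hg1, hg2⟩ := exists_dual_vector 𝕜 (γ.1 : Z) (by rw [γ.1.2]; exact one_ne_zero)
  rw [γ.1.2, RCLike.ofReal_one] at hg2
  let f : XX 𝕜 Z →L[𝕜] 𝕜 := (2⁻¹ : 𝕜) • (g.comp Q1 + sg 𝕜 γ.2 • Psi γ.1)
  have hf : ∀ x, f x = 2⁻¹ * (g (Q1 x) + sg 𝕜 γ.2 * Psi γ.1 x) := fun x => rfl
  have h1 : f (vv 𝕜 Z γ) = 1 := by
    rw [hf, Q1_vv, Psi_vv, if_pos rfl, sg_mul, hg2]
    norm_num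
  have h2 : ∀ γ', γ' ≠ γ → ‖f (vv 𝕜 Z γ')‖ ≤ 1 / 2 := by
    intro γ' hne
    rw [hf, Q1_vv, Psi_vv]
    by_cases hu : γ'.1 = γ.1
    · have hb : γ'.2 = !γ.2 := by
        have h3 : γ'.2 ≠ γ.2 := fun h => hne (Prod.ext hu h)
        revert h3
        cases γ'.2 <;> cases γ.2 <;> simp
      rw [if_pos hu, hb, sg_not, mul_neg, sg_mul, hu, hg2]
      norm_num
    · rw [if_neg hu, mul_zero, add_zero, norm_mul, norm_inv, RCLike.norm_ofNat]
      have h3 := g.le_opNorm (γ'.1 : Z)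
      rw [hg1, γ'.1.2, one_mul] at h3
      linarith
  refine ⟨f, h1, h2, opNorm_le_of_vv f zero_le_one fun γ' => ?_⟩
  by_cases h : γ' = γ
  · rw [h, h1, norm_one]
  · exact (h2 γ' h).trans (by norm_num)

/-- The big space has Lindenstrauss' property A: the norm-attaining operators into every space
are dense. -/
theorem dense_NA [Nontrivial Z] (W : Type*) [NormedAddCommGroup W] [NormedSpace 𝕜 W] :
    Dense (NA 𝕜 (XX 𝕜 Z) W) := by
  rw [Metric.dense_iff]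
  intro T r hr
  by_cases hT : T = 0
  · -- the zero operator attains its norm
    obtain ⟨z, hz⟩ := exists_ne (0 : Z)
    have hz' : ‖((‖z‖⁻¹ : ℝ) : 𝕜) • z‖ = 1 := by
      rw [norm_smul, norm_algebraMap', norm_inv, norm_norm, inv_mul_cancel₀ (norm_ne_zero_iff.2 hz)]
    refine ⟨0, ?_, vv 𝕜 Z (⟨_, hz'⟩, true), norm_vv _, by simp⟩
    rw [hT]
    exact Metric.mem_ball_self hr
  · set M : ℝ := ‖T‖ with hM
    have hM0 : 0 < M := norm_pos_iff.2 hT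
    set ε : ℝ := r / (2 * M) with hε
    have hε0 : 0 < ε := by positivity
    have hεM : ε * M = r / 2 := by rw [hε]; field_simp
    set δ : ℝ := min (M / 2) (ε * M / 4) with hδ
    have hδ0 : 0 < δ := lt_min (by positivity) (by positivity)
    obtain ⟨γ, hγ⟩ : ∃ γ, M - δ < ‖T (vv 𝕜 Z γ)‖ := by
      by_contra hcon
      push Not at hcon
      have h1 : 0 ≤ M - δ := by
        have := min_le_left (M / 2) (ε * M / 4)
        linarith
      have := opNorm_le_of_vv T h1 hcon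
      linarith
    obtain ⟨f, hf1, hf2, hf3⟩ := exists_exposing (𝕜 := 𝕜) γ
    set t : ℝ := ‖T (vv 𝕜 Z γ)‖ with ht
    have htM : t ≤ M := by
      have := T.le_opNorm (vv 𝕜 Z γ)
      rwa [norm_vv, mul_one] at this
    have ht0 : M / 2 ≤ t := by
      have := min_le_left (M / 2) (ε * M / 4)
      linarith
    have hδt : δ ≤ ε / 2 * t := by
      have h1 := min_le_right (M / 2) (ε * M / 4)
      nlinarith
    let S : XX 𝕜 Z →L[𝕜] W := T + (ε : 𝕜) • f.smulRight (T (vv 𝕜 Z γ))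
    have hS : ∀ x, S x = T x + (ε : 𝕜) • (f x • T (vv 𝕜 Z γ)) := fun x => rfl
    have hSγ : ‖S (vv 𝕜 Z γ)‖ = (1 + ε) * t := by
      rw [hS, hf1, one_smul]
      have : T (vv 𝕜 Z γ) + (ε : 𝕜) • T (vv 𝕜 Z γ) = ((1 + ε : ℝ) : 𝕜) • T (vv 𝕜 Z γ) := by
        rw [RCLike.ofReal_add, RCLike.ofReal_one, add_smul, one_smul]
      rw [this, norm_smul, norm_algebraMap', Real.norm_eq_abs, abs_of_pos (by linarith)]
    have hSle : ‖S‖ ≤ (1 + ε) * t := by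
      refine opNorm_le_of_vv S (by positivity) fun γ' => ?_
      by_cases h : γ' = γ
      · rw [h, hSγ]
      · rw [hS]
        refine (norm_add_le _ _).trans ?_
        have h1 : ‖T (vv 𝕜 Z γ')‖ ≤ M := by
          have := T.le_opNorm (vv 𝕜 Z γ')
          rwa [norm_vv, mul_one] at this
        have h2 : ‖(ε : 𝕜) • (f (vv 𝕜 Z γ') • T (vv 𝕜 Z γ))‖ ≤ ε * (1 / 2 * t) := by
          rw [norm_smul, norm_smul, norm_algebraMap', Real.norm_eq_abs, abs_of_pos hε0]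
          have := hf2 γ' h
          gcongr
        linarith
    refine ⟨S, ?_, vv 𝕜 Z γ, norm_vv γ, le_antisymm ?_ ?_⟩
    · rw [Metric.mem_ball, dist_eq_norm]
      have h1 : S - T = (ε : 𝕜) • f.smulRight (T (vv 𝕜 Z γ)) := by simp [S]
      rw [h1, norm_smul, norm_algebraMap', Real.norm_eq_abs, abs_of_pos hε0,
        ContinuousLinearMap.norm_smulRight_apply]
      calc ε * (‖f‖ * t) ≤ ε * (1 * M) := by gcongr
        _ < r := by rw [one_mul, hεM]; linarith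
    · have := S.le_opNorm (vv 𝕜 Z γ)
      rwa [norm_vv, mul_one] at this
    · rw [hSγ]; exact hSle

end Space

end Pool.Agent.W703.OC
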