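import Pool.Agent.W703.JamesThm

set_option autoImplicit false

open NormedSpace Set Filter Topology RCLike ComplexConjugate

namespace Pool.Agent.W703.JT

/-- **James' theorem**, real and complex scalars: if every bounded functional attains its norm
then the space is reflexive. -/
theorem james_rclike (𝕜 : Type*) [RCLike 𝕜] (E : Type*) [NormedAddCommGroup E] [NormedSpace 𝕜 E]
    [CompleteSpace E] (h : ∀ f : StrongDual 𝕜 E, ∃ x : E, ‖x‖ ≤ 1 ∧ ‖f x‖ = ‖f‖)
    (Ψ : StrongDual 𝕜 (StrongDual 𝕜 E)) : ∃ x : E, ∀ f : StrongDual 𝕜 E, Ψ f = f x := by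
  let _ : NormedSpace ℝ E := NormedSpace.restrictScalars ℝ 𝕜 E
  have : IsScalarTower ℝ 𝕜 E := inferInstance
  have hsurj : Function.Surjective (inclusionInDoubleDual ℝ E) := by
    by_contra hcon
    obtain ⟨f, hf⟩ := james hcon
    obtain ⟨x, hx, hx2⟩ := h f.extendRCLike
    rw [StrongDual.norm_extendRCLike] at hx2
    have hpos : 0 < ‖f‖ := by simpa using hf 0 (by simp)
    set g : StrongDual 𝕜 E := f.extendRCLike with hg
    have hgx : g x ≠ 0 := by
      intro h0
      rw [h0, norm_zero] at hx2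
      exact hpos.ne hx2
    let c : 𝕜 := conj (g x) / (‖g x‖ : 𝕜)
    have hc : ‖c‖ = 1 := by
      simp only [c, norm_div, RCLike.norm_conj, norm_algebraMap', norm_norm]
      exact div_self (norm_ne_zero_iff.2 hgx)
    have h1 : g (c • x) = (‖g x‖ : 𝕜) := by
      rw [map_smul, smul_eq_mul, div_mul_eq_mul_div, RCLike.conj_mul]
      rw [pow_two, mul_div_assoc, div_self, mul_one]
      exact_mod_cast norm_ne_zero_iff.2 hgx
    have h2 : f (c • x) = ‖f‖ := by
      rw [← StrongDual.re_extendRCLike_apply (𝕜 := 𝕜) f (c • x), ← hg, h1, RCLike.ofReal_re, hx2]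
    have h3 := hf (c • x) (by rw [norm_smul, hc, one_mul]; exact hx)
    rw [h2] at h3
    exact lt_irrefl _ h3
  let Φ : StrongDual ℝ (StrongDual ℝ E) :=
    (RCLike.reCLM.comp (Ψ.restrictScalars ℝ)).comp
      ((StrongDual.extendRCLikeₗᵢ (𝕜 := 𝕜) (F := E)).toContinuousLinearEquiv :
        StrongDual ℝ E →L[ℝ] StrongDual 𝕜 E)
  obtain ⟨x, hx⟩ := hsurj Φ
  refine ⟨x, ?_⟩
  have key : ∀ f : StrongDual 𝕜 E, re (Ψ f) = re (f x) := by
    intro f
    let u : StrongDual ℝ E := (StrongDual.extendRCLikeₗᵢ (𝕜 := 𝕜) (F := E)).symm f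
    have hu : (StrongDual.extendRCLikeₗᵢ (𝕜 := 𝕜) (F := E)) u = f :=
      (StrongDual.extendRCLikeₗᵢ (𝕜 := 𝕜) (F := E)).apply_symm_apply f
    have h1 : Φ u = u x := by rw [← hx]; rfl
    have h2 : Φ u = re (Ψ f) := by
      rw [← hu]; rfl
    have h3 : u x = re (f x) := by
      rw [← hu]
      exact (StrongDual.re_extendRCLike_apply (𝕜 := 𝕜) u x).symm
    rw [← h2, h1, h3]
  intro f
  apply RCLike.ext (key f)
  have h1 := key ((RCLike.I : 𝕜) • f)
  rw [map_smul, FunLike.coe_smul, Pi.smul_apply, smul_eq_mul, smul_eq_mul] at h1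
  simp only [RCLike.mul_re, RCLike.I_re, zero_mul, zero_sub, neg_inj] at h1
  rcases RCLike.I_eq_zero_or_im_I_eq_one (K := 𝕜) with h2 | h2
  · have e1 : ∀ z : 𝕜, im z = 0 := fun z => by
      have h3 := RCLike.re_add_im z
      have h4 : (im z : ℝ) * im (I : 𝕜) = im z := RCLike.mul_im_I_ax z
      rw [h2] at h4
      simpa using h4.symm
    rw [e1, e1]
  · rw [h2, one_mul, one_mul] at h1
    exact h1

section null

variable {𝕜 : Type*} [RCLike 𝕜] {E : Type*} [NormedAddCommGroup E] [NormedSpace 𝕜 E]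

/-- finitely many unit vectors norm a finite-dimensional space of functionals -/
lemma exists_norming (V : Submodule 𝕜 (StrongDual 𝕜 E)) [FiniteDimensional 𝕜 V] :
    ∃ A : Finset E, (∀ a ∈ A, ‖a‖ ≤ 1) ∧ ∀ g ∈ V, g ≠ 0 → ∃ a ∈ A, ‖g‖ ≤ 2 * ‖g a‖ := by
  classical
  have : ProperSpace V := FiniteDimensional.proper 𝕜 V
  have hcomp : IsCompact (Metric.sphere (0 : V) 1) := isCompact_sphere _ _
  have hsph : ∀ g : V, g ∈ Metric.sphere (0 : V) 1 ↔ ‖(g : StrongDual 𝕜 E)‖ = 1 := by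
    intro g
    rw [Metric.mem_sphere, Subtype.dist_eq, dist_eq_norm]
    simp
  -- vectors for the elements of the sphere
  have h1 : ∀ g : V, ‖(g : StrongDual 𝕜 E)‖ = 1 → ∃ a : E, ‖a‖ ≤ 1 ∧ 3 / 4 < ‖(g : StrongDual 𝕜 E) a‖ := by
    intro g hg
    obtain ⟨a, ha, ha2⟩ := ContinuousLinearMap.exists_lt_apply_of_lt_opNorm
      (g : StrongDual 𝕜 E) (r := 3 / 4) (by
        rw [hg]; norm_num)
    exact ⟨a, ha.le, ha2⟩
  choose! a ha1 ha2 using h1
  obtain ⟨t, ht, hcov⟩ := hcomp.elim_nhds_subcover (fun g => Metric.ball g (1 / 4))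
    (fun g _ => Metric.ball_mem_nhds _ (by norm_num))
  refine ⟨t.image a, ?_, ?_⟩
  · intro b hb
    obtain ⟨g, hg, rfl⟩ := Finset.mem_image.1 hb
    exact ha1 g ((hsph g).1 (ht g hg))
  · intro g hgV hg0
    have hgn : 0 < ‖g‖ := norm_pos_iff.2 hg0
    let g' : V := ⟨((‖g‖⁻¹ : ℝ) : 𝕜) • g, V.smul_mem _ hgV⟩
    have hg' : ‖(g' : StrongDual 𝕜 E)‖ = 1 := by
      change ‖((‖g‖⁻¹ : ℝ) : 𝕜) • g‖ = 1
      rw [norm_smul, norm_algebraMap', norm_inv, norm_norm, inv_mul_cancel₀ hgn.ne']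
    obtain ⟨p, hp, hp2⟩ := mem_iUnion₂.1 (hcov ((hsph g').2 hg'))
    refine ⟨a p, Finset.mem_image_of_mem _ hp, ?_⟩
    have hp1 : ‖(p : StrongDual 𝕜 E)‖ = 1 := (hsph p).1 (ht p hp)
    have e1 := ha2 p hp1
    have e2 := ha1 p hp1
    have e3 : ‖(p : StrongDual 𝕜 E) - g'‖ < 1 / 4 := by
      have h5 : dist g' p < 1 / 4 := hp2
      rw [Subtype.dist_eq, dist_comm, dist_eq_norm] at h5
      exact h5
    have e4 : ‖((p : StrongDual 𝕜 E) - g') (a p)‖ ≤ 1 / 4 := by
      refine (ContinuousLinearMap.le_opNorm _ _).trans ?_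
      nlinarith [norm_nonneg (a p), norm_nonneg ((p : StrongDual 𝕜 E) - g')]
    have e5 : ‖(p : StrongDual 𝕜 E) (a p)‖ ≤ ‖((p : StrongDual 𝕜 E) - g') (a p)‖ +
        ‖(g' : StrongDual 𝕜 E) (a p)‖ := by
      have : (p : StrongDual 𝕜 E) (a p) = ((p : StrongDual 𝕜 E) - g') (a p) +
        (g' : StrongDual 𝕜 E) (a p) := by simp
      conv_lhs => rw [this]
      exact norm_add_le _ _
    have e6 : ‖(g' : StrongDual 𝕜 E) (a p)‖ = ‖g‖⁻¹ * ‖g (a p)‖ := by
      have : (g' : StrongDual 𝕜 E) (a p) = ((‖g‖⁻¹ : ℝ) : 𝕜) * g (a p) := rfl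
      rw [this, norm_mul, norm_algebraMap', norm_inv, norm_norm]
    have e7 : 1 / 2 ≤ ‖g‖⁻¹ * ‖g (a p)‖ := by rw [← e6]; linarith
    have e8 : ‖g‖ * (1 / 2) ≤ ‖g‖ * (‖g‖⁻¹ * ‖g (a p)‖) := by gcongr
    rw [← mul_assoc, mul_inv_cancel₀ hgn.ne', one_mul] at e8
    linarith

/-- a norm-one functional vanishing on a finite set -/
lemma exists_vanish (hinf : ¬ FiniteDimensional 𝕜 E) (A : Finset E) :
    ∃ k : StrongDual 𝕜 E, ‖k‖ = 1 ∧ ∀ a ∈ A, k a = 0 := by
  let S : Submodule 𝕜 E := Submodule.span 𝕜 (A : Set E)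
  have : FiniteDimensional 𝕜 S := FiniteDimensional.span_finset 𝕜 A
  have hcl : IsClosed (S : Set E) := S.closed_of_finiteDimensional
  obtain ⟨x, hx⟩ : ∃ x, x ∉ S := by
    by_contra hcon
    push Not at hcon
    apply hinf
    have h0 : S = ⊤ := (Submodule.eq_top_iff').2 hcon
    have h1 : FiniteDimensional 𝕜 (⊤ : Submodule 𝕜 E) := h0 ▸ (inferInstance : FiniteDimensional 𝕜 S)
    exact (LinearEquiv.finiteDimensional (Submodule.topEquiv (R := 𝕜) (M := E)))
  have hne : (Submodule.Quotient.mk x : E ⧸ S) ≠ 0 := by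
    rwa [Ne, Submodule.Quotient.mk_eq_zero]
  obtain ⟨g, hg1, hg2⟩ := exists_dual_vector 𝕜 (Submodule.Quotient.mk x : E ⧸ S)
    (norm_ne_zero_iff.2 hne)
  let k0 : StrongDual 𝕜 E := g.comp S.mkQL
  have hk0 : k0 x ≠ 0 := by
    have : k0 x = g (Submodule.Quotient.mk x) := rfl
    rw [this, hg2]
    exact_mod_cast norm_ne_zero_iff.2 hne
  have hk0' : ‖k0‖ ≠ 0 := by
    intro h0
    rw [norm_eq_zero] at h0
    rw [h0] at hk0
    exact hk0 rfl
  refine ⟨((‖k0‖⁻¹ : ℝ) : 𝕜) • k0, ?_, ?_⟩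
  · rw [norm_smul, norm_algebraMap', norm_inv, norm_norm, inv_mul_cancel₀ hk0']
  · intro a ha
    have h1 : (Submodule.Quotient.mk a : E ⧸ S) = 0 := by
      rw [Submodule.Quotient.mk_eq_zero]
      exact Submodule.subset_span ha
    have h2 : k0 a = g (Submodule.Quotient.mk a) := rfl
    rw [FunLike.coe_smul, Pi.smul_apply, h2, h1, map_zero, smul_zero]

/-- In the dual of an infinite-dimensional reflexive space there is a normalised sequence which
tends to zero pointwise. -/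
theorem exists_null_seq (hinf : ¬ FiniteDimensional 𝕜 E)
    (hrefl : ∀ Ψ : StrongDual 𝕜 (StrongDual 𝕜 E), ∃ x : E, ∀ f : StrongDual 𝕜 E, Ψ f = f x) :
    ∃ k : ℕ → StrongDual 𝕜 E, (∀ n, ‖k n‖ = 1) ∧ ∀ x, Tendsto (fun n => k n x) atTop (𝓝 0) := by
  classical
  -- states: finite sets of functionals; the norming set is chosen
  have hA : ∀ W : Finset (StrongDual 𝕜 E), ∃ A : Finset E, (∀ a ∈ A, ‖a‖ ≤ 1) ∧
      ∀ g ∈ Submodule.span 𝕜 (W : Set (StrongDual 𝕜 E)), g ≠ 0 → ∃ a ∈ A, ‖g‖ ≤ 2 * ‖g a‖ := by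
    intro W
    have : FiniteDimensional 𝕜 (Submodule.span 𝕜 (W : Set (StrongDual 𝕜 E))) :=
      FiniteDimensional.span_finset 𝕜 W
    exact exists_norming _
  choose A hA1 hA2 using hA
  choose kk hkk1 hkk2 using fun B : Finset E => exists_vanish (𝕜 := 𝕜) hinf B
  -- recursion: the state is the set of functionals so far and the set of vectors so far
  let st : ℕ → Finset (StrongDual 𝕜 E) × Finset E := fun n =>
    Nat.rec (∅, ∅) (fun _ s => (insert (kk s.2) s.1, s.2 ∪ A (insert (kk s.2) s.1))) n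
  let k : ℕ → StrongDual 𝕜 E := fun n => kk (st n).2
  have hst : ∀ n, st (n + 1) = (insert (k n) (st n).1, (st n).2 ∪ A (insert (k n) (st n).1)) :=
    fun n => rfl
  have hmono1 : ∀ n m, n ≤ m → (st n).1 ⊆ (st m).1 := by
    intro n m h
    induction h with
    | refl => exact Finset.Subset.refl _
    | step h ih => exact ih.trans (by rw [hst]; exact Finset.subset_insert _ _)
  have hmono2 : ∀ n m, n ≤ m → (st n).2 ⊆ (st m).2 := by
    intro n m h
    induction h with
    | refl => exact Finset.Subset.refl _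
    | step h ih => exact ih.trans (by rw [hst]; exact Finset.subset_union_left)
  have hkmem : ∀ n, k n ∈ (st (n + 1)).1 := fun n => by rw [hst]; exact Finset.mem_insert_self _ _
  have hAmem : ∀ n, A ((st (n + 1)).1) ⊆ (st (n + 1)).2 := fun n => by
    rw [hst]; exact Finset.subset_union_right
  refine ⟨k, fun n => hkk1 _, ?_⟩
  -- cluster points vanish
  have hK := WeakDual.isCompact_closedBall (𝕜 := 𝕜) (E := E) (0 : StrongDual 𝕜 E) 1
  let u : ℕ → WeakDual 𝕜 E := fun n => StrongDual.toWeakDual (k n)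
  have hu : ∀ᶠ n in atTop, u n ∈ (⇑WeakDual.toStrongDual ⁻¹' Metric.closedBall (0 : StrongDual 𝕜 E) 1) := by
    refine Eventually.of_forall fun n => ?_
    simp only [mem_preimage, mem_closedBall_zero_iff]
    exact (hkk1 _).le
  have hlim : Tendsto u atTop (𝓝 0) := by
    apply hK.tendsto_nhds_of_unique_mapClusterPt hu
    intro a _ ha
    have hfreq : ∀ (x : E) (ε : ℝ), 0 < ε → ∀ N, ∃ n, N ≤ n ∧ dist (k n x) (a x) < ε := by
      intro x ε hε N
      have hc : Continuous (fun w : WeakDual 𝕜 E => w x) := WeakDual.eval_continuous x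
      have h1 : MapClusterPt (a x) atTop (fun n => (u n) x) := ha.continuousAt_comp hc.continuousAt
      have h2 := h1.frequently (Metric.ball_mem_nhds (a x) hε)
      obtain ⟨n, hn, hn2⟩ := (frequently_atTop.1 h2) N
      exact ⟨n, hn, hn2⟩
    let φ : StrongDual 𝕜 E := WeakDual.toStrongDual a
    have hφ : ∀ x, φ x = a x := fun x => rfl
    have hφ0 : ∀ n, ∀ b ∈ (st n).2, φ b = 0 := by
      intro n b hb
      by_contra hne
      obtain ⟨m, hm, hm2⟩ := hfreq b ‖φ b‖ (norm_pos_iff.2 hne) n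
      have h1 : k m b = 0 := hkk2 _ b (hmono2 n m hm hb)
      rw [h1, dist_zero_left, ← hφ] at hm2
      exact lt_irrefl _ hm2
    let G : Submodule 𝕜 (StrongDual 𝕜 E) := (Submodule.span 𝕜 (range k)).topologicalClosure
    have hφG : φ ∈ G := by
      by_contra hcon
      have hGc : IsClosed (G : Set (StrongDual 𝕜 E)) := Submodule.isClosed_topologicalClosure _
      have hne : (Submodule.Quotient.mk φ : StrongDual 𝕜 E ⧸ G) ≠ 0 := by
        rwa [Ne, Submodule.Quotient.mk_eq_zero]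
      have hne' : ‖(Submodule.Quotient.mk φ : StrongDual 𝕜 E ⧸ G)‖ ≠ 0 := by
        intro h0
        apply hcon
        have h1 : φ ∈ closure (G : Set (StrongDual 𝕜 E)) :=
          (QuotientAddGroup.norm_mk_eq_zero_iff_mem_closure (S := G.toAddSubgroup) (m := φ)).1 h0
        rwa [hGc.closure_eq] at h1
      obtain ⟨g, hg1, hg2⟩ := exists_dual_vector 𝕜 (Submodule.Quotient.mk φ : StrongDual 𝕜 E ⧸ G)
        hne'
      obtain ⟨x, hx⟩ := hrefl (g.comp G.mkQL)
      have h1 : ∀ n, k n x = 0 := by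
        intro n
        rw [← hx]
        have : (Submodule.Quotient.mk (k n) : StrongDual 𝕜 E ⧸ G) = 0 := by
          rw [Submodule.Quotient.mk_eq_zero]
          exact Submodule.le_topologicalClosure _ (Submodule.subset_span ⟨n, rfl⟩)
        change g (Submodule.Quotient.mk (k n)) = 0
        rw [this, map_zero]
      have h2 : φ x ≠ 0 := by
        rw [← hx]
        change g (Submodule.Quotient.mk φ) ≠ 0
        rw [hg2]
        exact_mod_cast hne'
      obtain ⟨m, hm, hm2⟩ := hfreq x ‖φ x‖ (norm_pos_iff.2 h2) 0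
      rw [h1, dist_zero_left, ← hφ] at hm2
      exact lt_irrefl _ hm2
    have hφz : φ = 0 := by
      by_contra hne
      have hpos : 0 < ‖φ‖ := norm_pos_iff.2 hne
      have h1 : φ ∈ closure ((Submodule.span 𝕜 (range k) : Submodule 𝕜 _) : Set (StrongDual 𝕜 E)) := by
        rw [← Submodule.topologicalClosure_coe]; exact hφG
      obtain ⟨g, hg, hg2⟩ := Metric.mem_closure_iff.1 h1 (‖φ‖ / 4) (by linarith)
      rw [dist_eq_norm] at hg2
      have hg0 : g ≠ 0 := by
        rintro rfl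
        rw [sub_zero] at hg2
        linarith
      -- `g` lies in the span of finitely many `k n`
      have h2 : ∃ n, g ∈ Submodule.span 𝕜 (((st (n + 1)).1 : Finset (StrongDual 𝕜 E)) :
          Set (StrongDual 𝕜 E)) := by
        refine Submodule.span_induction (p := fun g _ => ∃ n, g ∈ Submodule.span 𝕜
          (((st (n + 1)).1 : Finset (StrongDual 𝕜 E)) : Set (StrongDual 𝕜 E))) ?_ ?_ ?_ ?_ hg
        · rintro _ ⟨n, rfl⟩
          exact ⟨n, Submodule.subset_span (hkmem n)⟩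
        · exact ⟨0, Submodule.zero_mem _⟩
        · rintro a b _ _ ⟨n, hn⟩ ⟨m, hm⟩
          refine ⟨max n m, Submodule.add_mem _ ?_ ?_⟩
          · exact Submodule.span_mono (Finset.coe_subset.2 (hmono1 (n + 1) (max n m + 1) (by omega))) hn
          · exact Submodule.span_mono (Finset.coe_subset.2 (hmono1 (m + 1) (max n m + 1) (by omega))) hm
        · rintro c a _ ⟨n, hn⟩
          exact ⟨n, Submodule.smul_mem _ _ hn⟩
      obtain ⟨n, hn⟩ := h2
      obtain ⟨b, hb, hb2⟩ := hA2 _ g hn hg0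
      have h3 : φ b = 0 := hφ0 (n + 1) b (hAmem n hb)
      have h4 : ‖b‖ ≤ 1 := hA1 _ b hb
      have h5 : ‖g b‖ ≤ ‖φ - g‖ := by
        have h6 : (φ - g) b = - g b := by simp [h3]
        have h7 := (φ - g).le_opNorm b
        rw [h6, norm_neg] at h7
        nlinarith [norm_nonneg (φ - g)]
      have h8 : ‖φ‖ ≤ ‖φ - g‖ + ‖g‖ := by
        have : φ = (φ - g) + g := by abel
        conv_lhs => rw [this]
        exact norm_add_le _ _
      linarith
    exact (WeakDual.toStrongDual (𝕜 := 𝕜) (E := E)).injective (by rw [map_zero]; exact hφz)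
  intro x
  have hc : Continuous (fun w : WeakDual 𝕜 E => w x) := WeakDual.eval_continuous x
  have h1 := (hc.tendsto 0).comp hlim
  exact h1

end null

end Pool.Agent.W703.JT
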