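import Mathlib

set_option autoImplicit false

open Filter Topology

namespace Pool.Agent.W703.WMP

variable {𝕜 : Type*} [RCLike 𝕜] {E : Type*} [NormedAddCommGroup E] [NormedSpace 𝕜 E]

/-- The operator attains its norm at a vector of norm one. -/
def AttainsNorm {F : Type*} [NormedAddCommGroup F] [NormedSpace 𝕜 F] (T : E →L[𝕜] F) : Prop :=
  ∃ x : E, ‖x‖ = 1 ∧ ‖T x‖ = ‖T‖

/-- The sequence tends to zero weakly. -/
def WeaklyNull (𝕜 : Type*) [RCLike 𝕜] {E : Type*} [NormedAddCommGroup E] [NormedSpace 𝕜 E]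
    (x : ℕ → E) : Prop :=
  ∀ f : StrongDual 𝕜 E, Tendsto (fun n => f (x n)) atTop (𝓝 0)

/-- A sequence of vectors of norm one on which the operator tends to its norm. -/
def IsMaximizing {F : Type*} [NormedAddCommGroup F] [NormedSpace 𝕜 F] (T : E →L[𝕜] F)
    (x : ℕ → E) : Prop :=
  (∀ n, ‖x n‖ = 1) ∧ Tendsto (fun n => ‖T (x n)‖) atTop (𝓝 ‖T‖)

/-- The weak maximizing property of the pair `(E, F)`. -/
def HasWMP (𝕜 : Type*) [RCLike 𝕜] (E F : Type*) [NormedAddCommGroup E] [NormedSpace 𝕜 E]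
    [NormedAddCommGroup F] [NormedSpace 𝕜 F] : Prop :=
  ∀ T : E →L[𝕜] F, (∃ x : ℕ → E, IsMaximizing T x ∧ ¬ WeaklyNull 𝕜 x) → AttainsNorm T

end Pool.Agent.W703.WMP
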