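import Pool.Agent.W703.Refl
import Pool.Agent.W703.WMPDefs

set_option autoImplicit false

open Set Filter Topology
open scoped ENNReal

namespace Pool.Agent.W703.WMP

variable {𝕜 : Type*} [RCLike 𝕜] {E : Type*} [NormedAddCommGroup E] [NormedSpace 𝕜 E]

/-- the space of bounded sequences -/
abbrev Linf (𝕜 : Type*) [RCLike 𝕜] : Type _ := lp (fun _ : ℕ => 𝕜) ∞

/-- the operator into bounded sequences given by a bounded sequence of functionals -/
noncomputable def opOf (g : ℕ → StrongDual 𝕜 E) (C : ℝ) (hg : ∀ n, ‖g n‖ ≤ C) :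
    E →L[𝕜] Linf 𝕜 :=
  LinearMap.mkContinuous
    { toFun := fun x => ⟨fun n => g n x, memℓp_infty ⟨C * ‖x‖, by
        rintro _ ⟨n, rfl⟩
        exact (g n).le_of_opNorm_le (hg n) x⟩⟩
      map_add' := fun x y => by ext n; exact map_add (g n) x y
      map_smul' := fun c x => by ext n; exact map_smul (g n) c x } C (fun x => by
        have hC : 0 ≤ C := (norm_nonneg _).trans (hg 0)
        refine lp.norm_le_of_forall_le (by positivity) fun n => ?_
        exact (g n).le_of_opNorm_le (hg n) x)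

lemma opOf_apply (g : ℕ → StrongDual 𝕜 E) (C : ℝ) (hg : ∀ n, ‖g n‖ ≤ C) (x : E) (n : ℕ) :
    (opOf g C hg x) n = g n x := rfl

/-- a vector of norm one which almost norms a functional -/
lemma exists_unit (g : StrongDual 𝕜 E) {δ : ℝ} (hδ : 0 < δ) (hg : δ < ‖g‖) :
    ∃ x : E, ‖x‖ = 1 ∧ ‖g‖ - δ ≤ ‖g x‖ := by
  obtain ⟨x, hx, hx2⟩ := ContinuousLinearMap.exists_lt_apply_of_lt_opNorm g
    (show ‖g‖ - δ < ‖g‖ by linarith)
  have hx0 : x ≠ 0 := by
    rintro rfl
    rw [map_zero, norm_zero] at hx2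
    linarith
  have hpos : 0 < ‖x‖ := norm_pos_iff.2 hx0
  refine ⟨((‖x‖⁻¹ : ℝ) : 𝕜) • x, ?_, ?_⟩
  · rw [norm_smul, norm_algebraMap', norm_inv, norm_norm, inv_mul_cancel₀ hpos.ne']
  · rw [map_smul, norm_smul, norm_algebraMap', norm_inv, norm_norm]
    have h1 : 1 ≤ ‖x‖⁻¹ := (one_le_inv₀ hpos).2 hx.le
    nlinarith [norm_nonneg (g x)]

/-- The key consequence of the weak maximizing property for the pair `(E, ℓ_∞)`. -/
lemma key (hW : HasWMP 𝕜 E (Linf 𝕜)) {g : ℕ → StrongDual 𝕜 E} {h : StrongDual 𝕜 E} {c : ℝ}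
    (hgh : ∀ x, Tendsto (fun n => g n x) atTop (𝓝 (h x)))
    (hgc : Tendsto (fun n => ‖g n‖) atTop (𝓝 c)) (hc : ‖h‖ < c)
    {x : ℕ → E} (hx : ∀ n, ‖x n‖ = 1) (hgx : Tendsto (fun n => ‖g n (x n)‖) atTop (𝓝 c)) :
    WeaklyNull 𝕜 x := by
  have hc0 : 0 < c := (norm_nonneg h).trans_lt hc
  -- the weights
  let d : ℕ → ℝ := fun n => c + |‖g n‖ - c| + 1 / ((n : ℝ) + 1)
  have hd0 : ∀ n, c < d n := fun n => by
    have : 0 < 1 / ((n : ℝ) + 1) := by positivity
    have := abs_nonneg (‖g n‖ - c)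
    simp only [d]; linarith
  have hdn : ∀ n, ‖g n‖ < d n := fun n => by
    have : 0 < 1 / ((n : ℝ) + 1) := by positivity
    have := le_abs_self (‖g n‖ - c)
    simp only [d]; linarith
  have hdpos : ∀ n, 0 < d n := fun n => hc0.trans (hd0 n)
  have hdlim : Tendsto d atTop (𝓝 c) := by
    have h1 : Tendsto (fun n => |‖g n‖ - c|) atTop (𝓝 0) := by
      have := (hgc.sub_const c).abs
      simpa using this
    have h2 : Tendsto (fun n : ℕ => 1 / ((n : ℝ) + 1)) atTop (𝓝 0) :=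
      tendsto_one_div_add_atTop_nhds_zero_nat
    have := (h1.const_add c).add h2
    simpa [d] using this
  let a : ℕ → ℝ := fun n => c / d n
  have ha0 : ∀ n, 0 < a n := fun n => div_pos hc0 (hdpos n)
  have hag : ∀ n, a n * ‖g n‖ < c := fun n => by
    simp only [a]
    rw [div_mul_eq_mul_div, div_lt_iff₀ (hdpos n)]
    exact mul_lt_mul_of_pos_left (hdn n) hc0
  have halim : Tendsto a atTop (𝓝 1) := by
    have := (tendsto_const_nhds (x := c)).div hdlim hc0.ne'
    rwa [div_self hc0.ne'] at this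
  let T : E →L[𝕜] Linf 𝕜 := opOf (fun n => ((a n : ℝ) : 𝕜) • g n) c (fun n => by
    rw [norm_smul, norm_algebraMap', Real.norm_eq_abs, abs_of_pos (ha0 n)]
    exact (hag n).le)
  have hTle : ‖T‖ ≤ c := by
    refine ContinuousLinearMap.opNorm_le_bound _ hc0.le fun z => ?_
    refine lp.norm_le_of_forall_le (by positivity) fun n => ?_
    have : (T z) n = ((a n : ℝ) : 𝕜) * g n z := rfl
    rw [this, norm_mul, norm_algebraMap', Real.norm_eq_abs, abs_of_pos (ha0 n)]
    calc a n * ‖g n z‖ ≤ a n * (‖g n‖ * ‖z‖) := by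
          have := (g n).le_opNorm z
          have := (ha0 n).le
          gcongr
      _ = (a n * ‖g n‖) * ‖z‖ := by ring
      _ ≤ c * ‖z‖ := by have := (hag n).le; gcongr
  have hTcoord : ∀ z n, a n * ‖g n z‖ ≤ ‖T z‖ := by
    intro z n
    have h1 := lp.norm_apply_le_norm (E := fun _ : ℕ => 𝕜) (p := ∞) (by simp) (T z) n
    have : (T z) n = ((a n : ℝ) : 𝕜) * g n z := rfl
    rwa [this, norm_mul, norm_algebraMap', Real.norm_eq_abs, abs_of_pos (ha0 n)] at h1
  have hTx : ∀ n, ‖T (x n)‖ ≤ ‖T‖ := fun n => by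
    have := T.le_opNorm (x n)
    rwa [hx n, mul_one] at this
  have hagx : Tendsto (fun n => a n * ‖g n (x n)‖) atTop (𝓝 c) := by
    have := halim.mul hgx
    rwa [one_mul] at this
  have hTeq : ‖T‖ = c := by
    apply le_antisymm hTle
    exact le_of_tendsto hagx (Eventually.of_forall fun n => (hTcoord (x n) n).trans (hTx n))
  have hmax : IsMaximizing T x := by
    refine ⟨hx, ?_⟩
    rw [hTeq]
    exact tendsto_of_tendsto_of_tendsto_of_le_of_le hagx tendsto_const_nhds
      (fun n => hTcoord (x n) n) (fun n => (hTx n).trans hTle)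
  by_contra hcon
  obtain ⟨z, hz, hz2⟩ := hW T ⟨x, hmax, hcon⟩
  rw [hTeq] at hz2
  -- the norm of `T z` is smaller than `c`
  have h1 : Tendsto (fun n => a n * ‖g n z‖) atTop (𝓝 ‖h z‖) := by
    have := halim.mul (hgh z).norm
    rwa [one_mul] at this
  have h2 : ‖h z‖ < c := by
    have := h.le_opNorm z
    rw [hz, mul_one] at this
    exact this.trans_lt hc
  obtain ⟨r, hr1, hr2⟩ := exists_between h2
  obtain ⟨N, hN⟩ := eventually_atTop.1 (h1.eventually_lt_const hr1)
  have h3 : ∀ n, a n * ‖g n z‖ < c := fun n => by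
    have h4 := (g n).le_opNorm z
    rw [hz, mul_one] at h4
    exact (mul_le_mul_of_nonneg_left h4 (ha0 n).le).trans_lt (hag n)
  -- the maximum over the first terms
  let m : ℝ := (insert r ((Finset.range N).image fun n => a n * ‖g n z‖)).max'
    (Finset.insert_nonempty _ _)
  have hm : m < c := by
    have := Finset.max'_mem (insert r ((Finset.range N).image fun n => a n * ‖g n z‖))
      (Finset.insert_nonempty _ _)
    rcases Finset.mem_insert.1 this with h4 | h4
    · exact h4.le.trans_lt hr2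
    · obtain ⟨n, -, hn⟩ := Finset.mem_image.1 h4
      change a n * ‖g n z‖ = m at hn
      rw [← hn]; exact h3 n
  have hm0 : 0 ≤ m := ((norm_nonneg _).trans hr1.le).trans
    (Finset.le_max' (insert r ((Finset.range N).image fun n => a n * ‖g n z‖)) r
      (Finset.mem_insert_self _ _))
  have h5 : ‖T z‖ ≤ m := by
    refine lp.norm_le_of_forall_le hm0 fun n => ?_
    have h6 : (T z) n = ((a n : ℝ) : 𝕜) * g n z := rfl
    rw [h6, norm_mul, norm_algebraMap', Real.norm_eq_abs, abs_of_pos (ha0 n)]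
    rcases lt_or_ge n N with hn | hn
    · exact Finset.le_max' (insert r ((Finset.range N).image fun n => a n * ‖g n z‖)) _
        (Finset.mem_insert_of_mem (Finset.mem_image_of_mem _ (Finset.mem_range.2 hn)))
    · exact (hN n hn).le.trans
        (Finset.le_max' (insert r ((Finset.range N).image fun n => a n * ‖g n z‖)) r
          (Finset.mem_insert_self _ _))
  linarith

/-- In presence of the weak maximizing property the dual is flat at infinity. -/
lemma flat (hW : HasWMP 𝕜 E (Linf 𝕜)) {k : ℕ → StrongDual 𝕜 E} (hk1 : ∀ n, ‖k n‖ = 1)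
    (hk0 : ∀ x, Tendsto (fun n => k n x) atTop (𝓝 0)) (h : StrongDual 𝕜 E) {ε : ℝ} (hε : 0 < ε)
    (N : ℕ) : ∃ n, N ≤ n ∧ ‖h + k n‖ ≤ max ‖h‖ 1 + ε := by
  by_contra hcon
  push Not at hcon
  -- a convergent subsequence of norms
  have hb : ∀ n, ‖h + k (n + N)‖ ∈ Icc (max ‖h‖ 1 + ε) (‖h‖ + 1) := fun n => by
    refine ⟨(hcon (n + N) (by omega)).le, ?_⟩
    calc ‖h + k (n + N)‖ ≤ ‖h‖ + ‖k (n + N)‖ := norm_add_le _ _
      _ = ‖h‖ + 1 := by rw [hk1]
  obtain ⟨c, hc, φ, hφ, hφ2⟩ := isCompact_Icc.tendsto_subseq hb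
  have hc1 : ‖h‖ < c := by
    have := hc.1
    have := le_max_left ‖h‖ 1
    linarith
  have hc2 : 1 < c := by
    have := hc.1
    have := le_max_right ‖h‖ 1
    linarith
  let g : ℕ → StrongDual 𝕜 E := fun n => h + k (φ n + N)
  have hφN : Tendsto (fun n => φ n + N) atTop atTop :=
    (tendsto_add_atTop_nat N).comp hφ.tendsto_atTop
  have hgh : ∀ x, Tendsto (fun n => g n x) atTop (𝓝 (h x)) := fun x => by
    have h1 := ((hk0 x).comp hφN).const_add (h x)
    rw [add_zero] at h1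
    exact h1
  have hgc : Tendsto (fun n => ‖g n‖) atTop (𝓝 c) := hφ2
  have hgpos : ∀ n, 1 < ‖g n‖ := fun n => by
    have h1 := (hb (φ n)).1
    have h2 := le_max_right ‖h‖ 1
    have h3 : ‖g n‖ = ‖h + k (φ n + N)‖ := rfl
    rw [h3]; linarith
  have hex : ∀ n : ℕ, ∃ x : E, ‖x‖ = 1 ∧ ‖g n‖ - 1 / ((n : ℝ) + 1) ≤ ‖g n x‖ := by
    intro n
    refine exists_unit (g n) (by positivity) ((?_ : 1 / ((n : ℝ) + 1) ≤ 1).trans_lt (hgpos n))
    rw [div_le_one (by positivity)]
    have : (0 : ℝ) ≤ n := Nat.cast_nonneg n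
    linarith
  choose x hx1 hx2 using hex
  have hgx : Tendsto (fun n => ‖g n (x n)‖) atTop (𝓝 c) := by
    have h1 : Tendsto (fun n : ℕ => ‖g n‖ - 1 / ((n : ℝ) + 1)) atTop (𝓝 c) := by
      have := hgc.sub tendsto_one_div_add_atTop_nhds_zero_nat
      rwa [sub_zero] at this
    refine tendsto_of_tendsto_of_tendsto_of_le_of_le h1 hgc hx2 fun n => ?_
    have := (g n).le_opNorm (x n)
    rwa [hx1, mul_one] at this
  have hwn := key hW hgh hgc hc1 hx1 hgx
  have h4 := (hwn h).norm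
  rw [norm_zero] at h4
  have h5 : c ≤ 0 + 1 := by
    refine le_of_tendsto_of_tendsto hgx (h4.add_const 1) (Eventually.of_forall fun n => ?_)
    have h6 : g n (x n) = h (x n) + k (φ n + N) (x n) := rfl
    show ‖g n (x n)‖ ≤ ‖h (x n)‖ + 1
    rw [h6]
    refine (norm_add_le _ _).trans ?_
    have h7 := (k (φ n + N)).le_opNorm (x n)
    rw [hk1, hx1, mul_one] at h7
    linarith
  linarith

/-- Functionals attain their norms. -/
lemma attains (hW : HasWMP 𝕜 E (Linf 𝕜)) (f : StrongDual 𝕜 E) :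
    ∃ x : E, ‖x‖ ≤ 1 ∧ ‖f x‖ = ‖f‖ := by
  rcases eq_or_ne f 0 with rfl | hf
  · exact ⟨0, by simp, by simp⟩
  have hf0 : 0 < ‖f‖ := norm_pos_iff.2 hf
  let T : E →L[𝕜] Linf 𝕜 := opOf (fun _ => f) ‖f‖ (fun _ => le_rfl)
  have hT : ∀ z, ‖T z‖ = ‖f z‖ := by
    intro z
    apply le_antisymm
    · exact lp.norm_le_of_forall_le (norm_nonneg _) fun n => le_rfl
    · exact lp.norm_apply_le_norm (E := fun _ : ℕ => 𝕜) (p := ∞) (by simp) (T z) 0
  have hTn : ‖T‖ = ‖f‖ := by
    apply le_antisymm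
    · exact ContinuousLinearMap.opNorm_le_bound _ (norm_nonneg _) fun z => by
        rw [hT]; exact f.le_opNorm z
    · exact ContinuousLinearMap.opNorm_le_bound _ (norm_nonneg _) fun z => by
        rw [← hT]; exact T.le_opNorm z
  have hex : ∀ n : ℕ, ∃ x : E, ‖x‖ = 1 ∧ ‖f‖ - ‖f‖ / ((n : ℝ) + 2) ≤ ‖f x‖ := by
    intro n
    refine exists_unit f (by positivity) ?_
    rw [div_lt_iff₀ (by positivity)]
    have : (0 : ℝ) ≤ n := Nat.cast_nonneg n
    nlinarith
  choose x hx1 hx2 using hex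
  have h0 : Tendsto (fun n : ℕ => ‖f‖ / ((n : ℝ) + 2)) atTop (𝓝 0) := by
    have h1 : Tendsto (fun n : ℕ => ((n : ℝ) + 2)) atTop atTop :=
      tendsto_atTop_add_const_right _ _ tendsto_natCast_atTop_atTop
    exact h1.const_div_atTop _
  have hlim : Tendsto (fun n => ‖f (x n)‖) atTop (𝓝 ‖f‖) := by
    have h1 : Tendsto (fun n : ℕ => ‖f‖ - ‖f‖ / ((n : ℝ) + 2)) atTop (𝓝 ‖f‖) := by
      have := h0.const_sub ‖f‖
      rwa [sub_zero] at this
    refine tendsto_of_tendsto_of_tendsto_of_le_of_le h1 tendsto_const_nhds hx2 fun n => ?_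
    have := f.le_opNorm (x n)
    rwa [hx1, mul_one] at this
  obtain ⟨z, hz, hz2⟩ := hW T ⟨x, ⟨hx1, by simp only [hT, hTn]; exact hlim⟩, by
    intro hwn
    have h1 := (hwn f).norm
    rw [norm_zero] at h1
    have := tendsto_nhds_unique h1 hlim
    linarith⟩
  exact ⟨z, hz.le, by rw [← hT, hz2, hTn]⟩

/-- **Main result.** If `(E, ℓ_∞)` has the weak maximizing property then `E` is
finite-dimensional. -/
theorem finiteDimensional_of_WMP [CompleteSpace E] (hW : HasWMP 𝕜 E (Linf 𝕜)) :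
    FiniteDimensional 𝕜 E := by
  classical
  by_contra hinf
  obtain ⟨k, hk1, hk0⟩ := JT.exists_null_seq hinf (JT.james_rclike 𝕜 E (attains hW))
  -- norming vectors
  have hex : ∀ n : ℕ, ∃ x : E, ‖x‖ = 1 ∧ ‖k n‖ - 1 / ((n : ℝ) + 2) ≤ ‖k n x‖ := by
    intro n
    refine exists_unit (k n) (by positivity) ?_
    rw [hk1, div_lt_one (by positivity)]
    have : (0 : ℝ) ≤ n := Nat.cast_nonneg n
    linarith
  choose x hx1 hx2 using hex
  have h0 : Tendsto (fun n : ℕ => 1 / ((n : ℝ) + 2)) atTop (𝓝 0) := by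
    have h1 : Tendsto (fun n : ℕ => ((n : ℝ) + 2)) atTop atTop :=
      tendsto_atTop_add_const_right _ _ tendsto_natCast_atTop_atTop
    exact h1.const_div_atTop _
  have hkx : Tendsto (fun n => ‖k n (x n)‖) atTop (𝓝 1) := by
    have h1 : Tendsto (fun n : ℕ => ‖k n‖ - 1 / ((n : ℝ) + 2)) atTop (𝓝 1) := by
      have := h0.const_sub 1
      rw [sub_zero] at this
      simpa only [hk1] using this
    refine tendsto_of_tendsto_of_tendsto_of_le_of_le h1 tendsto_const_nhds hx2 fun n => ?_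
    have := (k n).le_opNorm (x n)
    rwa [hx1, hk1, mul_one] at this
  have hxw : WeaklyNull 𝕜 x := key hW (h := 0) (c := 1) (fun z => by simpa using hk0 z)
    (by simp only [hk1]; exact tendsto_const_nhds) (by simp) hx1 hkx
  -- the choice of the next index
  have hnext : ∀ (m : ℕ) (S : Finset ℕ), ∃ n, (∀ i ∈ S, i < n) ∧ 3 / 4 ≤ ‖k n (x n)‖ ∧
      (∀ i ∈ S, ‖k n (x i)‖ ≤ (1 / 2) ^ (m + 4)) ∧ (∀ i ∈ S, ‖k i (x n)‖ ≤ (1 / 2) ^ (m + 4)) ∧
      ‖∑ i ∈ S, k i + k n‖ ≤ max ‖∑ i ∈ S, k i‖ 1 + (1 / 2) ^ (m + 1) := by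
    intro m S
    have hp : (0 : ℝ) < (1 / 2) ^ (m + 4) := by positivity
    have e1 : ∀ᶠ n in atTop, ∀ i ∈ S, i < n :=
      (Finset.eventually_all S).2 fun i _ => eventually_gt_atTop i
    have e2 : ∀ᶠ n in atTop, 3 / 4 ≤ ‖k n (x n)‖ := hkx.eventually_const_le (by norm_num)
    have e3 : ∀ᶠ n in atTop, ∀ i ∈ S, ‖k n (x i)‖ ≤ (1 / 2) ^ (m + 4) :=
      (Finset.eventually_all S).2 fun i _ => by
        have := (hk0 (x i)).norm
        rw [norm_zero] at this
        exact this.eventually_le_const hp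
    have e4 : ∀ᶠ n in atTop, ∀ i ∈ S, ‖k i (x n)‖ ≤ (1 / 2) ^ (m + 4) :=
      (Finset.eventually_all S).2 fun i _ => by
        have := (hxw (k i)).norm
        rw [norm_zero] at this
        exact this.eventually_le_const hp
    obtain ⟨N, hN⟩ := eventually_atTop.1 (e1.and (e2.and (e3.and e4)))
    obtain ⟨n, hn, hn2⟩ := flat hW hk1 hk0 (∑ i ∈ S, k i)
      (show (0 : ℝ) < (1 / 2) ^ (m + 1) by positivity) N
    obtain ⟨f1, f2, f3, f4⟩ := hN n hn
    exact ⟨n, f1, f2, f3, f4, hn2⟩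
  choose ν hν1 hν2 hν3 hν4 hν5 using hnext
  let S : ℕ → Finset ℕ := fun m => Nat.rec ∅ (fun m s => insert (ν m s) s) m
  let n : ℕ → ℕ := fun m => ν m (S m)
  have hS : ∀ m, S (m + 1) = insert (n m) (S m) := fun m => rfl
  have hSmono : ∀ i m, i < m → n i ∈ S m := by
    intro i m h
    induction h with
    | refl => rw [hS]; exact Finset.mem_insert_self _ _
    | step h ih => rw [hS]; exact Finset.mem_insert_of_mem ih
  have hnotin : ∀ m, n m ∉ S m := fun m h => lt_irrefl _ (hν1 m (S m) _ h)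
  have hsum : ∀ m, ∑ i ∈ S m, k i = ∑ j ∈ Finset.range m, k (n j) := by
    intro m
    induction m with
    | zero => rfl
    | succ m ih => rw [hS, Finset.sum_insert (hnotin m), Finset.sum_range_succ, ih, add_comm]
  let s : ℕ → StrongDual 𝕜 E := fun m => ∑ j ∈ Finset.range m, k (n j)
  have hsb : ∀ m, ‖s m‖ ≤ 2 - (1 / 2) ^ m := by
    intro m
    induction m with
    | zero => simp [s]
    | succ m ih =>
      have h1 := hν5 m (S m)
      rw [hsum] at h1
      have h2 : s (m + 1) = s m + k (n m) := Finset.sum_range_succ _ _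
      have h3 : ‖s (m + 1)‖ ≤ max ‖s m‖ 1 + (1 / 2) ^ (m + 1) := by rw [h2]; exact h1
      have h4 : max ‖s m‖ 1 ≤ 2 - (1 / 2) ^ m := by
        apply max_le ih
        have : ((1 : ℝ) / 2) ^ m ≤ 1 := pow_le_one₀ (by norm_num) (by norm_num)
        linarith
      have h5 : ((1 : ℝ) / 2) ^ (m + 1) = (1 / 2) ^ m * (1 / 2) := pow_succ _ _
      rw [h5] at h3 ⊢
      linarith
  -- values at the norming vectors
  have hval : ∀ j m, j < m → 1 / 2 ≤ ‖s m (x (n j))‖ := by
    intro j m hjm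
    have hj1 : 3 / 4 ≤ ‖k (n j) (x (n j))‖ := hν2 j (S j)
    have hterm : ∀ i, i ≠ j → ‖k (n i) (x (n j))‖ ≤ (1 / 2) ^ (max i j + 4) := by
      intro i hij
      rcases lt_or_gt_of_ne hij with h | h
      · rw [max_eq_right h.le]
        exact hν4 j (S j) (n i) (hSmono i j h)
      · rw [max_eq_left h.le]
        exact hν3 i (S i) (n j) (hSmono j i h)
    have hsplit : s m (x (n j)) = k (n j) (x (n j)) +
        ∑ i ∈ (Finset.range m).erase j, k (n i) (x (n j)) := by
      simp only [s, FunLike.coe_sum, Finset.sum_apply]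
      exact (Finset.add_sum_erase _ _ (Finset.mem_range.2 hjm)).symm
    have hrest : ‖∑ i ∈ (Finset.range m).erase j, k (n i) (x (n j))‖ ≤ 1 / 4 := by
      refine (norm_sum_le _ _).trans ?_
      calc ∑ i ∈ (Finset.range m).erase j, ‖k (n i) (x (n j))‖
          ≤ ∑ i ∈ (Finset.range m).erase j, ((1 : ℝ) / 2) ^ (i + 4) := by
            refine Finset.sum_le_sum fun i hi => ?_
            refine (hterm i (Finset.ne_of_mem_erase hi)).trans ?_
            exact pow_le_pow_of_le_one (by norm_num) (by norm_num) (by have := le_max_left i j; omega)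
        _ ≤ ∑ i ∈ Finset.range m, ((1 : ℝ) / 2) ^ (i + 4) :=
            Finset.sum_le_sum_of_subset_of_nonneg (Finset.erase_subset _ _)
              fun _ _ _ => by positivity
        _ = (∑ i ∈ Finset.range m, ((1 : ℝ) / 2) ^ i) * (1 / 16) := by
            rw [Finset.sum_mul]
            refine Finset.sum_congr rfl fun i _ => ?_
            rw [pow_add]; norm_num
        _ ≤ 2 * (1 / 16) := by
            have := sum_geometric_two_le m
            gcongr
        _ ≤ 1 / 4 := by norm_num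
    rw [hsplit]
    have h1 := norm_sub_norm_le (k (n j) (x (n j)))
      (-(∑ i ∈ (Finset.range m).erase j, k (n i) (x (n j))))
    rw [norm_neg, sub_neg_eq_add] at h1
    linarith
  -- a cluster point
  have hK := WeakDual.isCompact_closedBall (𝕜 := 𝕜) (E := E) (0 : StrongDual 𝕜 E) 2
  let u : ℕ → WeakDual 𝕜 E := fun m => StrongDual.toWeakDual (s m)
  have hu : ∀ m, u m ∈ (⇑WeakDual.toStrongDual ⁻¹' Metric.closedBall (0 : StrongDual 𝕜 E) 2) := by
    intro m
    simp only [mem_preimage, mem_closedBall_zero_iff]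
    have h1 := hsb m
    have h2 : (0 : ℝ) < (1 / 2) ^ m := by positivity
    change ‖s m‖ ≤ 2
    linarith
  obtain ⟨a, -, ha⟩ := hK.exists_mapClusterPt (f := (atTop : Filter ℕ)) (u := u)
    (Filter.tendsto_principal.2 (Eventually.of_forall hu))
  let φ : StrongDual 𝕜 E := WeakDual.toStrongDual a
  have hφ : ∀ j, 1 / 4 ≤ ‖φ (x (n j))‖ := by
    intro j
    have hc : Continuous (fun w : WeakDual 𝕜 E => w (x (n j))) := WeakDual.eval_continuous _
    have h1 : MapClusterPt (a (x (n j))) atTop (fun m => (u m) (x (n j))) :=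
      ha.continuousAt_comp hc.continuousAt
    have h2 := h1.frequently (Metric.ball_mem_nhds (a (x (n j))) (show (0 : ℝ) < 1 / 4 by norm_num))
    obtain ⟨m, hm, hm2⟩ := (frequently_atTop.1 h2) (j + 1)
    have h3 : ‖s m (x (n j)) - φ (x (n j))‖ < 1 / 4 := by
      rw [← dist_eq_norm]; exact hm2
    have h4 := hval j m hm
    have h5 := norm_sub_norm_le (s m (x (n j))) (φ (x (n j)))
    linarith
  have hnm : StrictMono n := by
    apply strictMono_nat_of_lt_succ
    intro m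
    exact hν1 (m + 1) (S (m + 1)) (n m) (hSmono m (m + 1) (Nat.lt_succ_self m))
  have h6 := ((hxw φ).comp hnm.tendsto_atTop).norm
  rw [norm_zero] at h6
  have h7 : (1 : ℝ) / 4 ≤ 0 := ge_of_tendsto h6 (Eventually.of_forall fun j => hφ j)
  norm_num at h7

/-- Conversely operators on a finite-dimensional space attain their norms. -/
theorem WMP_of_finiteDimensional [FiniteDimensional 𝕜 E] (F : Type*) [NormedAddCommGroup F]
    [NormedSpace 𝕜 F] : HasWMP 𝕜 E F := by
  rintro T ⟨x, ⟨hx1, hx2⟩, -⟩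
  have : ProperSpace E := FiniteDimensional.proper 𝕜 E
  obtain ⟨a, ha, φ, hφ, hlim⟩ := (isCompact_sphere (0 : E) 1).tendsto_subseq
    (x := x) (fun n => by rw [mem_sphere_zero_iff_norm]; exact hx1 n)
  refine ⟨a, mem_sphere_zero_iff_norm.1 ha, ?_⟩
  have h1 : Tendsto (fun n => ‖T (x (φ n))‖) atTop (𝓝 ‖T a‖) :=
    ((T.continuous.tendsto a).comp hlim).norm
  exact tendsto_nhds_unique h1 (hx2.comp hφ.tendsto_atTop)

end Pool.Agent.W703.WMP
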